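import Pool.Agent.Helper49.WR.RunBasic

/-!
# WR-H: the graded grammar of a context-free grammar

Here `Q = Finset.range M ×ˢ S`, where `S` is a finite set of words that contains the suffixes of
all `X l`, `lo τ = τ.1.1.1` and `hi τ = τ.2.2.1.1` are the block numbers of the two states of a
type.

* `exists_forms`: take all suffixes (`List.tails`) of the outputs of the rules, `[nonterminal
  initial]`, `[]`, and all `[terminal t]` with `t` in an output.
* `cfWG_graded`: `leaf_le`, `leaf_val` by `Run.fst_le`, `Run.single_letter`; the number of types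
  with given block numbers is at most `|S| * |F| * |S|` (inject the filtered set into
  `S ×ˢ F ×ˢ S` by `τ ↦ (τ.1.1.2, τ.2.1.1, τ.2.2.1.2)`, `Finset.card_le_card_of_injOn`).
* `cfWG_sound`: a derivation of type `(q, α, q')` and weight `e` gives a word `u` with `Yields g α u`
  and `Run q u e q'`: induction, with `Yields.nonterm`, `Yields.term` (from `Yields g
  [terminal t] u₁` one gets `u₁ = [t]` by `cases`), `Run.append`.
* `cfWG_complete`: induction on `Yields g α u`, with `Run.split`; the intermediate state is in `Q`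
  by `Run.lt` and `Run.mem_suffix`; the forms are in `F` by `FormsOK`.
-/

set_option autoImplicit false

namespace Pool.Helper49.WR

open Pool.Agent.Helper1.FIM (Yields)

variable {T Λ : Type}

theorem exists_forms (g : ContextFreeGrammar.{0} T) : ∃ F, FormsOK g F := by
  classical
  let B : Finset (List (Symbol T g.NT)) := (g.rules.image fun r => r.output) ∪ {[Symbol.nonterminal g.initial]}
  let F : Finset (List (Symbol T g.NT)) := (B.biUnion fun β => β.tails.toFinset) ∪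
    ((g.rules.biUnion fun r => r.output.toFinset).image fun s => [s])
  have hF : ∀ γ, γ ∈ F ↔ (∃ β ∈ B, γ <:+ β) ∨ ∃ r ∈ g.rules, ∃ s ∈ r.output, [s] = γ := by
    intro γ
    simp only [F, Finset.mem_union, Finset.mem_biUnion, List.mem_toFinset, List.mem_tails, Finset.mem_image]
    constructor
    · rintro (h | ⟨s, ⟨r, hr, hs⟩, rfl⟩)
      · exact Or.inl h
      · exact Or.inr ⟨r, hr, s, hs, rfl⟩
    · rintro (h | ⟨r, hr, s, hs, rfl⟩)
      · exact Or.inl h
      · exact Or.inr ⟨s, ⟨r, hr, hs⟩, rfl⟩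
  have hB : ∀ β, β ∈ B ↔ (∃ r ∈ g.rules, r.output = β) ∨ β = [Symbol.nonterminal g.initial] := by
    intro β
    simp only [B, Finset.mem_union, Finset.mem_image, Finset.mem_singleton]
  have hinit : [Symbol.nonterminal g.initial] ∈ B := (hB _).2 (Or.inr rfl)
  refine ⟨F, ⟨?_, ?_, ?_, ?_⟩⟩
  · exact (hF _).2 (Or.inl ⟨_, hinit, List.suffix_rfl⟩)
  · intro s γ h
    rcases (hF _).1 h with ⟨β, hβ, hs⟩ | ⟨r, hr, s', hs', he⟩
    · exact (hF _).2 (Or.inl ⟨β, hβ, (List.suffix_cons s γ).trans hs⟩)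
    · have h1 : γ = [] := by
        have := congrArg List.tail he
        simpa using this.symm
      rw [h1]
      exact (hF _).2 (Or.inl ⟨_, hinit, List.nil_suffix⟩)
  · intro t γ h
    rcases (hF _).1 h with ⟨β, hβ, hs⟩ | ⟨r, hr, s', hs', he⟩
    · have h1 : Symbol.terminal t ∈ β := hs.subset (by simp)
      rcases (hB β).1 hβ with ⟨r, hr, rfl⟩ | rfl
      · exact (hF _).2 (Or.inr ⟨r, hr, _, h1, rfl⟩)
      · simp at h1
    · have h1 : s' = Symbol.terminal t := by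
        have := congrArg List.head? he
        simpa using this
      rw [← h1]
      exact (hF _).2 (Or.inr ⟨r, hr, s', hs', rfl⟩)
  · intro r hr
    exact (hF _).2 (Or.inl ⟨_, (hB _).2 (Or.inl ⟨r, hr, rfl⟩), List.suffix_rfl⟩)

open Classical in
theorem cfWG_graded (g : ContextFreeGrammar.{0} T) (X : Λ → List T) (ℓ : ℕ → Λ) (M : ℕ)
    (S : Finset (List T)) (F : Finset (List (Symbol T g.NT))) :
    Graded (cfWG g X ℓ M (Finset.range M ×ˢ S) F) (fun τ => τ.1.1.1) (fun τ => τ.2.2.1.1)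
      (S.card * F.card * S.card) := by
  refine ⟨?_, ?_, ?_, ?_, ?_, ?_⟩
  · rintro τ v (⟨-, h, -⟩ | ⟨t, -, h⟩)
    · rw [h]
    · exact h.fst_le
  · rintro τ v (⟨-, -, h⟩ | ⟨t, -, h⟩)
    · exact Or.inl h
    · exact h.single_letter
  · rintro τ σ ρ ⟨h, -, -, -⟩
    show σ.1.1.1 = τ.1.1.1
    rw [h]
  · rintro τ σ ρ ⟨-, h, -, -⟩
    show σ.2.2.1.1 = ρ.1.1.1
    rw [h]
  · rintro τ σ ρ ⟨-, -, h, -⟩
    show ρ.2.2.1.1 = τ.2.2.1.1
    rw [h]
  · intro a b
    have h1 : (S ×ˢ F ×ˢ S).card = S.card * F.card * S.card := by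
      rw [Finset.card_product, Finset.card_product, mul_assoc]
    rw [← h1]
    refine Finset.card_le_card_of_injOn (fun τ => (τ.1.1.2, τ.2.1.1, τ.2.2.1.2)) ?_ ?_
    · rintro ⟨q, α, q'⟩ -
      have h2 := (Finset.mem_product.1 q.2).2
      have h3 := (Finset.mem_product.1 q'.2).2
      simp only [Finset.coe_product, Set.mem_prod, Finset.mem_coe]
      exact ⟨h2, α.2, h3⟩
    · rintro ⟨q, α, q'⟩ hτ ⟨r, β, r'⟩ hσ h
      simp only [Finset.coe_filter, Finset.mem_univ, true_and, Set.mem_ofPred_eq] at hτ hσ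
      simp only [Prod.mk.injEq] at h
      obtain ⟨h2, h3, h4⟩ := h
      have e1 : q = r := Subtype.ext (Prod.ext (hτ.1.trans hσ.1.symm) h2)
      have e2 : α = β := Subtype.ext h3
      have e3 : q' = r' := Subtype.ext (Prod.ext (hτ.2.trans hσ.2.symm) h4)
      rw [e1, e2, e3]

open Classical in
theorem cfWG_sound {g : ContextFreeGrammar.{0} T} {X : Λ → List T} {ℓ : ℕ → Λ} {M : ℕ}
    {Q : Finset (ℕ × List T)} {F : Finset (List (Symbol T g.NT))} {τ : CT g Q F}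
    {U : Finset (CT g Q F)} {e : Vec} {n : ℕ} (h : Der (cfWG g X ℓ M Q F) τ U e n) :
    ∃ u, Yields g τ.2.1.1 u ∧ Run X ℓ M τ.1.1 u e τ.2.2.1 := by
  induction h with
  | @leaf τ v h =>
    rcases h with ⟨h1, h2, h3⟩ | ⟨t, h1, h2⟩
    · refine ⟨[], ?_, ?_⟩
      · rw [h1]
        exact Yields.nil
      · rw [h2, h3]
        exact Run.nil _
    · refine ⟨[t], ?_, h2⟩
      rw [h1]
      exact Yields.term t [] [] Yields.nil
  | @bin τ σ ρ U W v w m n h _ _ ih₁ ih₂ =>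
    obtain ⟨u₁, y₁, r₁⟩ := ih₁
    obtain ⟨u₂, y₂, r₂⟩ := ih₂
    obtain ⟨h1, h2, h3, h4⟩ := h
    refine ⟨u₁ ++ u₂, ?_, ?_⟩
    · rcases h4 with ⟨t, h5, h6⟩ | ⟨r, hr, h5, h6⟩
      · rw [h6] at y₁
        rw [h5]
        cases y₁ with
        | term _ _ w hw =>
          cases hw
          exact Yields.term t _ _ y₂
      · rw [h6] at y₁
        rw [h5]
        exact Yields.nonterm r hr _ _ _ y₁ y₂
    · rw [h1, h2] at r₁
      rw [h3] at r₂
      exact r₁.append r₂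

open Classical in
theorem cfWG_complete {g : ContextFreeGrammar.{0} T} {X : Λ → List T} {ℓ : ℕ → Λ} {M : ℕ}
    {S : Finset (List T)} (hS : ∀ l s, s <:+ X l → s ∈ S) {F : Finset (List (Symbol T g.NT))}
    (hF : FormsOK g F) {α : List (Symbol T g.NT)} {u : List T} (hy : Yields g α u)
    (hα : α ∈ F) {q q' : ℕ × List T} {e : Vec} (hr : Run X ℓ M q u e q')
    (hq : q ∈ Finset.range M ×ˢ S) (hq₂ : ∃ l, q.2 <:+ X l) (hq' : q' ∈ Finset.range M ×ˢ S) :
    ∃ U n, Der (cfWG g X ℓ M (Finset.range M ×ˢ S) F) (⟨q, hq⟩, ⟨α, hα⟩, ⟨q', hq'⟩) U e n := by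
  induction hy generalizing q q' e with
  | nil =>
    cases hr
    exact ⟨_, _, Der.leaf (Or.inl ⟨rfl, rfl, rfl⟩)⟩
  | term a γ w h ih =>
    have hr' : Run X ℓ M q ([a] ++ w) e q' := hr
    obtain ⟨p, e₁, e₂, r₁, r₂, rfl⟩ := hr'.split
    have hqM : q.1 < M := Finset.mem_range.1 (Finset.mem_product.1 hq).1
    have hp₂ := r₁.mem_suffix hq₂
    have hp : p ∈ Finset.range M ×ˢ S := by
      rw [Finset.mem_product, Finset.mem_range]
      obtain ⟨l, hl⟩ := hp₂
      exact ⟨r₁.lt hqM, hS l _ hl⟩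
    obtain ⟨U, n, hU⟩ := ih (hF.tail _ _ hα) r₂ hp hp₂ hq'
    refine ⟨_, _, Der.bin ?_ (Der.leaf (τ := (⟨q, hq⟩, ⟨[Symbol.terminal a], hF.term _ _ hα⟩, ⟨p, hp⟩)) (Or.inr ⟨a, rfl, r₁⟩)) hU⟩
    exact ⟨rfl, rfl, rfl, Or.inl ⟨a, rfl, rfl⟩⟩
  | nonterm r hr0 γ w₁ w₂ h₁ h₂ ih₁ ih₂ =>
    obtain ⟨p, e₁, e₂, r₁, r₂, rfl⟩ := hr.split
    have hqM : q.1 < M := Finset.mem_range.1 (Finset.mem_product.1 hq).1
    have hp₂ := r₁.mem_suffix hq₂
    have hp : p ∈ Finset.range M ×ˢ S := by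
      rw [Finset.mem_product, Finset.mem_range]
      obtain ⟨l, hl⟩ := hp₂
      exact ⟨r₁.lt hqM, hS l _ hl⟩
    obtain ⟨U₁, n₁, hU₁⟩ := ih₁ (hF.out r hr0) r₁ hq hq₂ hp
    obtain ⟨U₂, n₂, hU₂⟩ := ih₂ (hF.tail _ _ hα) r₂ hp hp₂ hq'
    refine ⟨_, _, Der.bin ?_ hU₁ hU₂⟩
    exact ⟨rfl, rfl, rfl, Or.inr ⟨r, hr0, rfl, rfl⟩⟩

end Pool.Helper49.WR
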