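import Mathlib

/-!
# Project WR: `A ≀ B` is not co-context-free when `B` contains `ℤ²`

Common definitions: weighted binary grammars, derivations with used sets, contexts, links,
block words, configurations.
-/

set_option autoImplicit false

namespace Pool.Helper49.WR

/-! ### Weighted binary grammars -/

/-- A weighted binary grammar: types `J`, weights in `V`.  A derivation is a binary tree whose
inner nodes are instances of `bin` and whose leaves are instances of `leaf`; its weight is the sum
of the weights of its leaves. -/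
structure WG (J V : Type) where
  leaf : J → V → Prop
  bin : J → J → J → Prop

section
variable {J V : Type} [DecidableEq J] [AddCommMonoid V]

/-- `Der G τ U e n`: there is a derivation tree with root type `τ`, whose set of types of nodes is
`U`, of weight `e`, with `n` nodes. -/
inductive Der (G : WG J V) : J → Finset J → V → ℕ → Prop
  | leaf {τ : J} {v : V} (h : G.leaf τ v) : Der G τ {τ} v 1
  | bin {τ σ ρ : J} {U W : Finset J} {v w : V} {m n : ℕ} (h : G.bin τ σ ρ)
      (h₁ : Der G σ U v m) (h₂ : Der G ρ W w n) :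
      Der G τ (insert τ (U ∪ W)) (v + w) (m + n + 1)

/-- `Ctx G τ π Y W p n`: there is a derivation tree with root type `τ` and one hole, of type `π`;
`Y` = set of types of the nodes on the path from the root to the hole (hole excluded), `W` = set of
types of all nodes (hole excluded), `p` = weight, `n` = number of nodes (hole excluded). -/
inductive Ctx (G : WG J V) : J → J → Finset J → Finset J → V → ℕ → Prop
  | nil {τ : J} : Ctx G τ τ ∅ ∅ 0 0
  | left {τ σ ρ π : J} {Y U W : Finset J} {v w : V} {m n : ℕ} (h : G.bin τ σ ρ)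
      (h₁ : Ctx G σ π Y U v m) (h₂ : Der G ρ W w n) :
      Ctx G τ π (insert τ Y) (insert τ (U ∪ W)) (v + w) (m + n + 1)
  | right {τ σ ρ π : J} {Y U W : Finset J} {v w : V} {m n : ℕ} (h : G.bin τ σ ρ)
      (h₁ : Der G σ U v m) (h₂ : Ctx G ρ π Y W w n) :
      Ctx G τ π (insert τ Y) (insert τ (U ∪ W)) (v + w) (m + n + 1)

/-- Derivations without repetition: no node has a proper descendant of the same type. -/
inductive Irr (G : WG J V) : J → Finset J → V → Prop
  | leaf {τ : J} {v : V} (h : G.leaf τ v) : Irr G τ {τ} v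
  | bin {τ σ ρ : J} {U W : Finset J} {v w : V} (h : G.bin τ σ ρ)
      (h₁ : Irr G σ U v) (h₂ : Irr G ρ W w) (hn : τ ∉ U ∪ W) :
      Irr G τ (insert τ (U ∪ W)) (v + w)

/-- The weights of the loops with types in `A` and fewer than `N` nodes. -/
def loops (G : WG J V) (A : Finset J) (N : ℕ) : Set V :=
  {p | ∃ σ ∈ A, ∃ Y W m, Ctx G σ σ Y W p m ∧ W ⊆ A ∧ m < N}

/-- The weights of the loops with types in `A`. -/
def allLoops (G : WG J V) (A : Finset J) : Set V :=
  {p | ∃ σ ∈ A, ∃ Y W m, Ctx G σ σ Y W p m ∧ W ⊆ A}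

/-- The extended grammar: a type remembers the set of types used below it. -/
def ext (G : WG J V) : WG (J × Finset J) V where
  leaf x v := x.2 = {x.1} ∧ G.leaf x.1 v
  bin x y z := x.2 = insert x.1 (y.2 ∪ z.2) ∧ G.bin x.1 y.1 z.1

end

/-- Exponent vectors. -/
abbrev Vec := ℕ →₀ ℕ

/-- A graded grammar: types have intervals `[lo, hi]`, and at most `K` types have a given
interval. -/
structure Graded {J : Type} [Fintype J] [DecidableEq J] (G : WG J Vec) (lo hi : J → ℕ) (K : ℕ) :
    Prop where
  leaf_le : ∀ τ v, G.leaf τ v → lo τ ≤ hi τ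
  leaf_val : ∀ τ v, G.leaf τ v → v = 0 ∨ v = Finsupp.single (hi τ) 1
  bin_lo : ∀ τ σ ρ, G.bin τ σ ρ → lo σ = lo τ
  bin_mid : ∀ τ σ ρ, G.bin τ σ ρ → hi σ = lo ρ
  bin_hi : ∀ τ σ ρ, G.bin τ σ ρ → hi ρ = hi τ
  card : ∀ a b, (Finset.univ.filter fun σ => lo σ = a ∧ hi σ = b).card ≤ K

/-- The small loops of a graded grammar with types in `U`. -/
def smallLoops {J : Type} [DecidableEq J] (G : WG J Vec) (U : Finset J) (C : ℕ) : Set Vec :=
  {p | ∃ σ ∈ U, ∃ Y W m, Ctx G σ σ Y W p m ∧ W ⊆ U ∧ p.degree ≤ C}

/-! ### Links -/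

/-- A link `(i, j, c, d)`, standing for the exponent vector `c ε_i + d ε_j`. -/
abbrev Link := ℕ × ℕ × ℕ × ℕ

/-- The exponent vector of a link. -/
noncomputable def Link.vec (p : Link) : Vec :=
  Finsupp.single p.1 p.2.2.1 + Finsupp.single p.2.1 p.2.2.2

/-- A noncrossing set of links. -/
def NC (P : Finset Link) : Prop :=
  ∀ p ∈ P, ∀ q ∈ P, ¬ (p.1 < q.1 ∧ q.1 < p.2.1 ∧ p.2.1 < q.2.1)

/-- `b + ∑_{p ∈ P} k_p vec p`. -/
noncomputable def lin (b : Vec) (P : Finset Link) (k : Link → ℕ) : Vec :=
  b + ∑ p ∈ P, k p • Link.vec p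

/-! ### Block words -/

/-- The word `X(ℓ 0)^{e 0} X(ℓ 1)^{e 1} ⋯ X(ℓ (M-1))^{e (M-1)}`. -/
def bword {T Λ : Type} (X : Λ → List T) (ℓ : ℕ → Λ) (M : ℕ) (e : ℕ → ℕ) : List T :=
  (List.range M).flatMap fun i => (List.replicate (e i) (X (ℓ i))).flatten

/-! ### Configurations over `ℤ²` -/

/-- Displacements. -/
abbrev D := ℤ × ℤ

/-- The group ring `ℤ[ℤ²]`; its elements are the finitely supported configurations. -/
abbrev R := AddMonoidAlgebra ℤ D

/-- The configuration with value `μ` at `v`. -/
noncomputable def pt (v : D) (μ : ℤ) : R := AddMonoidAlgebra.single v μ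

/-- The configuration of a word `(d₁, μ₁) ⋯ (d_n, μ_n)`: move by `d₁`, add `μ₁` at the current
place, move by `d₂`, and so on. -/
noncomputable def cfg : List (D × ℤ) → R
  | [] => 0
  | (d, μ) :: w => pt d 1 * (pt 0 μ + cfg w)

/-- The displacement of a word. -/
def dsp : List (D × ℤ) → D
  | [] => 0
  | (d, _) :: w => d + dsp w

/-- `Mod B l f σ`: the coloured word `l` (entries `(d, μ, χ)`, `χ` the colour of the move `d`)
can be modified, by replacing each move `d` by `d + t χ` with `t ∈ ℤ`, `|t| ≤ B`, to a word with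
configuration `f` and displacement `dsp + σ`. -/
inductive Mod (B : ℤ) : List (D × ℤ × D) → R → D → Prop
  | nil : Mod B [] 0 0
  | cons {d : D} {μ : ℤ} {χ : D} {l : List (D × ℤ × D)} {f : R} {σ : D} (t : ℤ) (ht : |t| ≤ B)
      (h : Mod B l f σ) : Mod B ((d, μ, χ) :: l) (pt (d + t • χ) 1 * (pt 0 μ + f)) (t • χ + σ)

/-- The word underlying a coloured word. -/
def uncol (l : List (D × ℤ × D)) : List (D × ℤ) := l.map fun c => (c.1, c.2.1)

/-! ### Groups -/

/-- The element `a^{x₁} b^{y₁} c^{μ₁} a^{x₂} b^{y₂} c^{μ₂} ⋯` of a group. -/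
def ev {G : Type} [Group G] (a b c : G) (w : List (D × ℤ)) : G :=
  (w.map fun x => a ^ x.1.1 * b ^ x.1.2 * c ^ x.2).prod

/-- `(a, b, c)` behaves as in a wreath product `⟨c⟩ ≀ ⟨a, b⟩` with `⟨a, b⟩ ≅ ℤ²`, `c ≠ 1`. -/
structure WTriple {G : Type} [Group G] (a b c : G) : Prop where
  comm : a * b = b * a
  ne : c ≠ 1
  /-- zero configuration and zero displacement imply that the value is `1` -/
  kill : ∀ w : List (D × ℤ), cfg w = 0 → dsp w = 0 → ev a b c w = 1
  /-- if the value is `1` then `c` is killed by every value of the configuration -/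
  alive : ∀ w : List (D × ℤ), ev a b c w = 1 → ∀ x, c ^ ((cfg w).coeff x) = 1

/-- Co-context-free groups: some finite family generates the group as a monoid and the words over
it that do not represent the identity form a context-free language. -/
def CoCF (G : Type) [Group G] : Prop :=
  ∃ n : ℕ, ∃ f : Fin n → G,
    Function.Surjective (fun w : List (Fin n) => (w.map f).prod) ∧
    Language.IsContextFree
      (({w : List (Fin n) | (w.map f).prod ≠ 1} : Set (List (Fin n))) : Language (Fin n))

end Pool.Helper49.WR
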