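import Pool.Agent.Helper49.WR.CtxBasic

/-!
# WR-B: removing loops

* `Irr.der`: an irredundant derivation is a derivation.
* `irr_decomp`: strong induction on the number `n` of nodes.
  Leaf: `b = e`, `s = 0`.
  `bin` with root `τ` and subtrees `Der σ U₁ v m`, `Der ρ W₁ w m'` (`n = m + m' + 1`):
  - if `τ ∈ U₁` then by `Der.extract` the left subtree is a context `Ctx σ τ Y₂ W₂ p m₂` and a
    derivation `Der τ U₃ e₃ n₃` with `m = m₂ + n₃`.  The context
    `Ctx.left h ctx h₂ : Ctx τ τ _ (insert τ (W₂ ∪ W₁)) (p + w) (m₂ + m' + 1)` is a loop with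
    fewer than `n` nodes (as `n₃ ≥ 1`), so `p + w ∈ loops G U n`; apply the induction hypothesis
    to `Der τ U₃ e₃ n₃` (`n₃ < n`, `U₃ ⊆ U`) and add the loop: `loops` is monotone in the set and
    in the bound (`AddSubmonoid.closure_mono`).
  - the same if `τ ∈ W₁` (with `Ctx.right`).
  - otherwise apply the induction hypothesis to both subtrees; the used sets only get smaller, so
    `τ` is not used below and `Irr.bin` applies.
* `Irr.bound`: `|b| ≤ 2^|U|`, induction: at a `bin` node `τ ∉ U ∪ W`, so `|U|, |W| ≤ |U ∪ W|` and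
  `|insert τ (U ∪ W)| = |U ∪ W| + 1`, hence `|b| ≤ 2^|U| + 2^|W| ≤ 2^(|U ∪ W| + 1)`.
-/

set_option autoImplicit false

namespace Pool.Helper49.WR

variable {J V : Type} [DecidableEq J] [AddCommMonoid V] {G : WG J V}

private theorem loops_mono71 {A B : Finset J} {m n : ℕ} (hA : A ⊆ B) (hn : m ≤ n) :
    AddSubmonoid.closure (loops G A m) ≤ AddSubmonoid.closure (loops G B n) := by
  refine AddSubmonoid.closure_mono ?_
  rintro p ⟨σ, hσ, Y, W, k, hc, hW, hk⟩
  exact ⟨σ, hA hσ, Y, W, k, hc, hW.trans hA, lt_of_lt_of_le hk hn⟩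

theorem Irr.der {τ : J} {U : Finset J} {e : V} (h : Irr G τ U e) : ∃ n, Der G τ U e n := by
  induction h with
  | leaf h => exact ⟨1, Der.leaf h⟩
  | bin h h₁ h₂ hn ih₁ ih₂ =>
    obtain ⟨m, hm⟩ := ih₁
    obtain ⟨n, hn'⟩ := ih₂
    exact ⟨m + n + 1, Der.bin h hm hn'⟩

theorem irr_decomp {τ : J} {U : Finset J} {e : V} {n : ℕ} (h : Der G τ U e n) :
    ∃ U' b s, U' ⊆ U ∧ Irr G τ U' b ∧ e = b + s ∧ s ∈ AddSubmonoid.closure (loops G U n) := by
  induction n using Nat.strong_induction_on generalizing τ U e with
  | _ n ih =>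
    cases h with
    | @leaf _ v h => exact ⟨{τ}, e, 0, Finset.Subset.refl _, Irr.leaf h, (add_zero _).symm,
        AddSubmonoid.zero_mem _⟩
    | @bin _ σ ρ U₁ W₁ v w m m' h h₁ h₂ =>
      by_cases h3 : τ ∈ U₁
      · obtain ⟨Y, W', p, k, U', e', n', hc, hd, e1, e2, e3⟩ := h₁.extract h3
        have hn' : 1 ≤ n' := hd.pos
        have hU' : U' ⊆ insert τ (U₁ ∪ W₁) := by
          rw [← e1]
          intro x hx
          simp only [Finset.mem_union, Finset.mem_insert]
          tauto
        obtain ⟨U'', b, s, g1, g2, g3, g4⟩ := ih n' (by omega) hd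
        have hl : p + w ∈ AddSubmonoid.closure (loops G (insert τ (U₁ ∪ W₁)) (m + m' + 1)) := by
          refine AddSubmonoid.subset_closure ⟨τ, Finset.mem_insert_self _ _, _, _, _,
            Ctx.left h hc h₂, ?_, by omega⟩
          rw [← e1]
          intro x hx
          simp only [Finset.mem_union, Finset.mem_insert] at hx ⊢
          tauto
        refine ⟨U'', b, s + (p + w), g1.trans hU', g2, ?_,
          AddSubmonoid.add_mem _ (loops_mono71 hU' (by omega) g4) hl⟩
        rw [e2, g3]
        abel
      · by_cases h4 : τ ∈ W₁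
        · obtain ⟨Y, W', p, k, U', e', n', hc, hd, e1, e2, e3⟩ := h₂.extract h4
          have hn' : 1 ≤ n' := hd.pos
          have hU' : U' ⊆ insert τ (U₁ ∪ W₁) := by
            rw [← e1]
            intro x hx
            simp only [Finset.mem_union, Finset.mem_insert]
            tauto
          obtain ⟨U'', b, s, g1, g2, g3, g4⟩ := ih n' (by omega) hd
          have hl : v + p ∈ AddSubmonoid.closure (loops G (insert τ (U₁ ∪ W₁)) (m + m' + 1)) := by
            refine AddSubmonoid.subset_closure ⟨τ, Finset.mem_insert_self _ _, _, _, _,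
              Ctx.right h h₁ hc, ?_, by omega⟩
            rw [← e1]
            intro x hx
            simp only [Finset.mem_union, Finset.mem_insert] at hx ⊢
            tauto
          refine ⟨U'', b, s + (v + p), g1.trans hU', g2, ?_,
            AddSubmonoid.add_mem _ (loops_mono71 hU' (by omega) g4) hl⟩
          rw [e2, g3]
          abel
        · obtain ⟨U', b, s, a1, a2, a3, a4⟩ := ih m (by omega) h₁
          obtain ⟨W', b', s', c1, c2, c3, c4⟩ := ih m' (by omega) h₂
          have hsub1 : U₁ ⊆ insert τ (U₁ ∪ W₁) := by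
            intro x hx
            simp only [Finset.mem_union, Finset.mem_insert]
            tauto
          have hsub2 : W₁ ⊆ insert τ (U₁ ∪ W₁) := by
            intro x hx
            simp only [Finset.mem_union, Finset.mem_insert]
            tauto
          refine ⟨insert τ (U' ∪ W'), b + b', s + s',
            Finset.insert_subset_insert _ (Finset.union_subset_union a1 c1), Irr.bin h a2 c2 ?_, ?_,
            AddSubmonoid.add_mem _ (loops_mono71 hsub1 (by omega) a4)
              (loops_mono71 hsub2 (by omega) c4)⟩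
          · rw [Finset.mem_union]
            rintro (h5 | h5)
            · exact h3 (a1 h5)
            · exact h4 (c1 h5)
          · rw [a3, c3]
            abel

theorem Irr.bound (len : V →+ ℕ) (hl : ∀ τ v, G.leaf τ v → len v ≤ 1) {τ : J} {U : Finset J}
    {b : V} (h : Irr G τ U b) : len b ≤ 2 ^ U.card := by
  induction h with
  | @leaf τ v h =>
    rw [Finset.card_singleton, pow_one]
    exact (hl τ v h).trans (by norm_num)
  | @bin τ σ ρ U W v w h h₁ h₂ hn ih₁ ih₂ =>
    rw [map_add, Finset.card_insert_of_notMem hn, pow_succ]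
    have h1 : 2 ^ U.card ≤ 2 ^ (U ∪ W).card :=
      Nat.pow_le_pow_right (by norm_num) (Finset.card_le_card Finset.subset_union_left)
    have h2 : 2 ^ W.card ≤ 2 ^ (U ∪ W).card :=
      Nat.pow_le_pow_right (by norm_num) (Finset.card_le_card Finset.subset_union_right)
    omega

end Pool.Helper49.WR
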