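import Pool.Agent.Helper49.WR.CtxBasic

/-!
# WR-D: intervals in graded grammars

All by induction on the derivation / context, using `Graded.bin_lo`, `bin_mid`, `bin_hi`.

* `Der.interval`: all used types have intervals inside the interval of the root.
  (`bin`: `lo σ = lo τ`, `hi σ = lo ρ`, `hi ρ = hi τ`, and `lo ≤ hi` for both children by
  induction.)
* `Der.supp`: the weight is supported in the interval of the root (leaf: `leaf_val`, `leaf_le`).
* `Der.noncross`: the intervals of the used types do not cross (`bin`: a type of the left subtree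
  has its interval in `[lo τ, hi σ]`, one of the right subtree in `[hi σ, hi τ]`; the root contains
  all).
* `Ctx.interval`: the types on the path have intervals between those of the root and of the hole.
  (`left`: `hi σ = lo ρ ≤ hi ρ = hi τ` where `lo ρ ≤ hi ρ` comes from `Der.interval`.)
* `Ctx.shape`: if the hole has the same interval as the root, then the weight is
  `c ε_{lo τ} + d ε_{hi τ}`: at a `left` node `hi π ≤ hi σ ≤ hi τ = hi π`, so `lo ρ = hi σ = hi τ =
  hi ρ` and the weight of the side tree is supported in `{hi τ}` (`Der.supp`), so it is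
  `single (hi τ) d'` (`Finsupp.ext`); similarly `right`.
* `Ctx.path_card`: the types on the path of such a context all have the interval of the root, so
  there are at most `K` of them.
* `Der.pure_card`: if the root has a one-point interval then so have all used types, at most `K`.
* `leaf_degree`: the weight of a leaf has degree at most one (`Finsupp.degree_single`).
-/

set_option autoImplicit false

namespace Pool.Helper49.WR

variable {J : Type} [Fintype J] [DecidableEq J] {G : WG J Vec} {lo hi : J → ℕ} {K : ℕ}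

theorem Graded.leaf_degree (hG : Graded G lo hi K) {τ : J} {v : Vec} (h : G.leaf τ v) :
    v.degree ≤ 1 := by
  rcases hG.leaf_val τ v h with rfl | rfl
  · simp
  · rw [Finsupp.degree_single]

theorem Der.interval (hG : Graded G lo hi K) {τ : J} {U : Finset J} {e : Vec} {n : ℕ}
    (h : Der G τ U e n) : lo τ ≤ hi τ ∧ ∀ σ ∈ U, lo τ ≤ lo σ ∧ lo σ ≤ hi σ ∧ hi σ ≤ hi τ := by
  induction h with
  | @leaf τ v h =>
    have h0 := hG.leaf_le τ v h
    refine ⟨h0, ?_⟩
    intro σ hσ
    rw [Finset.mem_singleton] at hσ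
    subst hσ
    exact ⟨le_rfl, h0, le_rfl⟩
  | @bin τ σ ρ U W v w m n h h₁ h₂ ih₁ ih₂ =>
    have e1 := hG.bin_lo _ _ _ h
    have e2 := hG.bin_mid _ _ _ h
    have e3 := hG.bin_hi _ _ _ h
    obtain ⟨i1, j1⟩ := ih₁
    obtain ⟨i2, j2⟩ := ih₂
    refine ⟨by omega, ?_⟩
    intro x hx
    rw [Finset.mem_insert, Finset.mem_union] at hx
    rcases hx with rfl | hx | hx
    · omega
    · have := j1 x hx
      omega
    · have := j2 x hx
      omega

theorem Der.supp (hG : Graded G lo hi K) {τ : J} {U : Finset J} {e : Vec} {n : ℕ}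
    (h : Der G τ U e n) : ∀ i, e i ≠ 0 → lo τ ≤ i ∧ i ≤ hi τ := by
  induction h with
  | @leaf τ v h =>
    have h0 := hG.leaf_le τ v h
    intro i hi'
    rcases hG.leaf_val τ v h with rfl | rfl
    · exact absurd rfl hi'
    · by_cases hii : hi τ = i
      · omega
      · exact absurd (Finsupp.single_eq_of_ne (Ne.symm hii)) hi'
  | @bin τ σ ρ U W v w m n h h₁ h₂ ih₁ ih₂ =>
    have e1 := hG.bin_lo _ _ _ h
    have e2 := hG.bin_mid _ _ _ h
    have e3 := hG.bin_hi _ _ _ h
    have i1 := (h₁.interval hG).1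
    have i2 := (h₂.interval hG).1
    intro i hi'
    rw [Finsupp.add_apply] at hi'
    by_cases hv : v i = 0
    · have hw : w i ≠ 0 := by
        intro hw
        rw [hv, hw] at hi'
        exact hi' rfl
      have := ih₂ i hw
      omega
    · have := ih₁ i hv
      omega

theorem Der.noncross (hG : Graded G lo hi K) {τ : J} {U : Finset J} {e : Vec} {n : ℕ}
    (h : Der G τ U e n) :
    ∀ σ ∈ U, ∀ ρ ∈ U, ¬ (lo σ < lo ρ ∧ lo ρ < hi σ ∧ hi σ < hi ρ) := by
  induction h with
  | @leaf τ v h =>
    intro σ hσ ρ hρ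
    rw [Finset.mem_singleton] at hσ hρ
    subst hσ
    subst hρ
    omega
  | @bin τ σ ρ U W v w m n h h₁ h₂ ih₁ ih₂ =>
    have e1 := hG.bin_lo _ _ _ h
    have e2 := hG.bin_mid _ _ _ h
    have e3 := hG.bin_hi _ _ _ h
    have j0 := (Der.bin h h₁ h₂).interval hG
    have j1 := h₁.interval hG
    have j2 := h₂.interval hG
    intro x hx y hy
    have hx' := j0.2 x hx
    have hy' := j0.2 y hy
    rw [Finset.mem_insert, Finset.mem_union] at hx hy
    rcases hx with rfl | hx | hx
    · omega
    · rcases hy with rfl | hy | hy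
      · omega
      · exact ih₁ x hx y hy
      · have a1 := j1.2 x hx
        have a2 := j2.2 y hy
        omega
    · rcases hy with rfl | hy | hy
      · omega
      · have a1 := j1.2 y hy
        have a2 := j2.2 x hx
        omega
      · exact ih₂ x hx y hy

theorem Ctx.interval (hG : Graded G lo hi K) {τ π : J} {Y W : Finset J} {p : Vec} {m : ℕ}
    (h : Ctx G τ π Y W p m) :
    (lo τ ≤ lo π ∧ hi π ≤ hi τ) ∧
      ∀ σ ∈ Y, lo τ ≤ lo σ ∧ lo σ ≤ lo π ∧ hi π ≤ hi σ ∧ hi σ ≤ hi τ := by
  induction h with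
  | nil =>
    refine ⟨⟨le_rfl, le_rfl⟩, ?_⟩
    intro σ hσ
    exact absurd hσ (Finset.notMem_empty σ)
  | @left τ σ ρ π Y U W v w m n h h₁ h₂ ih =>
    have e1 := hG.bin_lo _ _ _ h
    have e2 := hG.bin_mid _ _ _ h
    have e3 := hG.bin_hi _ _ _ h
    have j2 := (h₂.interval hG).1
    obtain ⟨i1, j1⟩ := ih
    refine ⟨by omega, ?_⟩
    intro x hx
    rw [Finset.mem_insert] at hx
    rcases hx with rfl | hx
    · omega
    · have := j1 x hx
      omega
  | @right τ σ ρ π Y U W v w m n h h₁ h₂ ih =>
    have e1 := hG.bin_lo _ _ _ h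
    have e2 := hG.bin_mid _ _ _ h
    have e3 := hG.bin_hi _ _ _ h
    have j2 := (h₁.interval hG).1
    obtain ⟨i1, j1⟩ := ih
    refine ⟨by omega, ?_⟩
    intro x hx
    rw [Finset.mem_insert] at hx
    rcases hx with rfl | hx
    · omega
    · have := j1 x hx
      omega

theorem Ctx.shape (hG : Graded G lo hi K) {τ π : J} {Y W : Finset J} {p : Vec} {m : ℕ}
    (h : Ctx G τ π Y W p m) (h₁ : lo π = lo τ) (h₂ : hi π = hi τ) :
    ∃ c d, p = Finsupp.single (lo τ) c + Finsupp.single (hi τ) d := by
  induction h with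
  | nil => exact ⟨0, 0, by simp⟩
  | @left τ σ ρ π Y U W v w m n h h₁' h₂' ih =>
    have e1 := hG.bin_lo _ _ _ h
    have e2 := hG.bin_mid _ _ _ h
    have e3 := hG.bin_hi _ _ _ h
    have j1 := (h₁'.interval hG).1
    have j2 := (h₂'.interval hG).1
    obtain ⟨c, d, hcd⟩ := ih (by omega) (by omega)
    have hs := h₂'.supp hG
    have hw : w = Finsupp.single (hi τ) (w (hi τ)) := by
      ext i
      by_cases hii : i = hi τ
      · rw [hii, Finsupp.single_eq_same]
      · rw [Finsupp.single_eq_of_ne hii]
        by_contra hne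
        have := hs i hne
        omega
    refine ⟨c, d + w (hi τ), ?_⟩
    have e4 : hi σ = hi τ := by omega
    rw [hcd, e1, e4, Finsupp.single_add, ← add_assoc]
    exact congrArg _ hw
  | @right τ σ ρ π Y U W v w m n h h₁' h₂' ih =>
    have e1 := hG.bin_lo _ _ _ h
    have e2 := hG.bin_mid _ _ _ h
    have e3 := hG.bin_hi _ _ _ h
    have j1 := (h₁'.interval hG).1
    have j2 := (h₂'.interval hG).1
    obtain ⟨c, d, hcd⟩ := ih (by omega) (by omega)
    have hs := h₁'.supp hG
    have hv : v = Finsupp.single (lo τ) (v (lo τ)) := by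
      ext i
      by_cases hii : i = lo τ
      · rw [hii, Finsupp.single_eq_same]
      · rw [Finsupp.single_eq_of_ne hii]
        by_contra hne
        have := hs i hne
        omega
    refine ⟨v (lo τ) + c, d, ?_⟩
    have e4 : lo ρ = lo τ := by omega
    rw [hcd, e3, e4, Finsupp.single_add, add_assoc]
    rw [← hv]

theorem Ctx.path_card (hG : Graded G lo hi K) {τ π : J} {Y W : Finset J} {p : Vec} {m : ℕ}
    (h : Ctx G τ π Y W p m) (h₁ : lo π = lo τ) (h₂ : hi π = hi τ) : Y.card ≤ K := by
  have hI := h.interval hG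
  refine le_trans (Finset.card_le_card ?_) (hG.card (lo τ) (hi τ))
  intro σ hσ
  have := hI.2 σ hσ
  rw [Finset.mem_filter]
  exact ⟨Finset.mem_univ σ, by omega, by omega⟩

theorem Der.pure_card (hG : Graded G lo hi K) {τ : J} {U : Finset J} {e : Vec} {n : ℕ}
    (h : Der G τ U e n) (h₁ : lo τ = hi τ) : U.card ≤ K := by
  have hI := h.interval hG
  refine le_trans (Finset.card_le_card ?_) (hG.card (lo τ) (hi τ))
  intro σ hσ
  have := hI.2 σ hσ
  rw [Finset.mem_filter]
  exact ⟨Finset.mem_univ σ, by omega, by omega⟩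

end Pool.Helper49.WR
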