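import Pool.Agent.Helper49.WR.IrrDecomp
import Pool.Agent.Helper49.WR.Intervals

/-!
# WR-E: loops are sums of small loops

* `ctx_reduce`: strong induction on the number `m` of nodes of the context `Ctx τ π Y W p m`, where
  `π` has the same interval as `τ`.
  - `nil`: `p₀ = 0`, `s = 0`.
  - `left` with `G.bin τ σ ρ`, `Ctx σ π Y₁ U₁ v m₁`, `Der ρ W₁ w n₁`, `m = m₁ + n₁ + 1`.  By
    `Ctx.interval`, `σ` has the same interval as `τ`, and `lo ρ = hi σ = hi τ = hi ρ`.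
    * If `τ ∈ Y₁`: `Ctx.extract` gives `Ctx σ τ Y₂ U₂ v₂ m₂` and `Ctx τ π Y₃ U₃ v₃ m₃`, `1 ≤ m₃`,
      `m₁ = m₂ + m₃`.  The loop `Ctx.left h _ _ : Ctx τ τ _ (insert τ (U₂ ∪ W₁)) (v₂ + w)
      (m₂ + n₁ + 1)` has fewer than `m` nodes, so its weight is in `loops G W m`.  Apply the
      induction hypothesis to `Ctx τ π Y₃ U₃ v₃ m₃` (`Y₃ ⊆ Y`, `U₃ ⊆ W`; `loops` is monotone).
    * If `τ ∉ Y₁`: apply the induction hypothesis to `Ctx σ π Y₁ U₁ v m₁` (degree at most
      `|Y₁| 2^K`) and `irr_decomp` to `Der ρ W₁ w n₁`: `w = b + s'` with `Irr ρ U' b`,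
      `U' ⊆ W₁`, so `b.degree ≤ 2^|U'| ≤ 2^K` by `Irr.bound` (with `len = Finsupp.degree`) and
      `Der.pure_card` (for `Der ρ W₁ w n₁`, as `lo ρ = hi ρ`).  Use `Ctx.left` with the reduced
      context and the derivation `Irr.der`; `|insert τ Y₁| = |Y₁| + 1`.
  - `right`: symmetric.
* `loops_small`: show by strong induction on `m` that for all `σ ∈ U`, `Ctx σ σ Y W p m` with
  `W ⊆ U` one has `p ∈ closure (smallLoops G U (K * 2^K))`: apply `ctx_reduce`; `p₀` is the weight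
  of a loop at `σ`, of degree at most `|Y| 2^K ≤ K 2^K` (`Ctx.path_card`), so `p₀ ∈ smallLoops`;
  and `s ∈ closure (loops G W m)`, whose generators are in the closure by the induction hypothesis
  (`AddSubmonoid.closure_le`).
-/

set_option autoImplicit false

namespace Pool.Helper49.WR

variable {J : Type} [Fintype J] [DecidableEq J] {G : WG J Vec} {lo hi : J → ℕ} {K : ℕ}

private theorem loops_mono1 {A B : Finset J} {N M : ℕ} (hAB : A ⊆ B) (hNM : N ≤ M) :
    loops G A N ⊆ loops G B M := by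
  rintro p ⟨σ, hσ, Y, W, m, hc, hW, hm⟩
  exact ⟨σ, hAB hσ, Y, W, m, hc, hW.trans hAB, lt_of_lt_of_le hm hNM⟩

private theorem closure_mono1 {A B : Finset J} {N M : ℕ} (hAB : A ⊆ B) (hNM : N ≤ M) {s : Vec}
    (hs : s ∈ AddSubmonoid.closure (loops G A N)) : s ∈ AddSubmonoid.closure (loops G B M) :=
  AddSubmonoid.closure_mono (loops_mono1 hAB hNM) hs

private theorem irr_degree1 (hG : Graded G lo hi K) {ρ : J} {W₁ : Finset J} {w : Vec} {n₁ : ℕ}
    (h : Der G ρ W₁ w n₁) (h₁ : lo ρ = hi ρ) :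
    ∃ U' b s n, U' ⊆ W₁ ∧ Der G ρ U' b n ∧ w = b + s ∧ b.degree ≤ 2 ^ K ∧
      s ∈ AddSubmonoid.closure (loops G W₁ n₁) := by
  obtain ⟨U', b, s, hU', hirr, hw, hs⟩ := irr_decomp h
  obtain ⟨n, hn⟩ := hirr.der
  refine ⟨U', b, s, n, hU', hn, hw, ?_, hs⟩
  have h2 : b.degree ≤ 2 ^ U'.card :=
    Irr.bound (G := G) (Finsupp.degree : Vec →+ ℕ) (fun τ v hv => hG.leaf_degree hv) hirr
  have h3 : U'.card ≤ K := (Finset.card_le_card hU').trans (h.pure_card hG h₁)
  exact h2.trans (Nat.pow_le_pow_right (by norm_num) h3)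

theorem ctx_reduce (hG : Graded G lo hi K) {τ π : J} {Y W : Finset J} {p : Vec} {m : ℕ}
    (h : Ctx G τ π Y W p m) (h₁ : lo π = lo τ) (h₂ : hi π = hi τ) :
    ∃ Y₀ W₀ p₀ s m₀, Ctx G τ π Y₀ W₀ p₀ m₀ ∧ Y₀ ⊆ Y ∧ W₀ ⊆ W ∧ p = p₀ + s ∧
      p₀.degree ≤ Y.card * 2 ^ K ∧ s ∈ AddSubmonoid.closure (loops G W m) := by
  induction m using Nat.strong_induction_on generalizing τ Y W p with
  | _ m ih =>
  cases h with
  | nil =>
    exact ⟨∅, ∅, 0, 0, 0, Ctx.nil, le_rfl, le_rfl, by simp, by simp, AddSubmonoid.zero_mem _⟩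
  | @left _ σ ρ _ Y₁ U₁ W₁ v w m₁ n₁ hb hc hd =>
    have i1 := (hc.interval hG).1
    have i2 := (hd.interval hG).1
    have i3 := hG.bin_lo _ _ _ hb
    have i4 := hG.bin_mid _ _ _ hb
    have i5 := hG.bin_hi _ _ _ hb
    by_cases hτ : τ ∈ Y₁
    · obtain ⟨Y₂, U₂, v₂, m₂, Y₃, U₃, v₃, m₃, hc₂, hc₃, hY, hU, hv, hm, hm₃⟩ := hc.extract hτ
      have hloop := Ctx.left hb hc₂ hd
      obtain ⟨Y₀, W₀, p₀, s, m₀, g1, g2, g3, g4, g5, g6⟩ := ih m₃ (by omega) hc₃ h₁ h₂
      have hYs : Y₃ ⊆ insert τ Y₁ := by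
        intro x hx; rw [← hY]; simp [hx]
      have hUs : U₃ ⊆ insert τ (U₁ ∪ W₁) := by
        intro x hx; rw [← hU]; simp [hx]
      refine ⟨Y₀, W₀, p₀, s + (v₂ + w), m₀, g1, g2.trans hYs, g3.trans hUs, ?_, ?_, ?_⟩
      · rw [hv, g4]; abel
      · exact g5.trans (Nat.mul_le_mul_right _ (Finset.card_le_card hYs))
      · refine AddSubmonoid.add_mem _ (closure_mono1 hUs (by omega) g6)
          (AddSubmonoid.subset_closure ⟨τ, Finset.mem_insert_self _ _, _, _, _, hloop, ?_, by omega⟩)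
        intro x hx
        rw [← hU]
        simp only [Finset.mem_insert, Finset.mem_union] at hx ⊢
        tauto
    · obtain ⟨Y₀, W₀, p₀, s, m₀, g1, g2, g3, g4, g5, g6⟩ :=
        ih m₁ (by omega) hc (by omega) (by omega)
      obtain ⟨U', b, s', n, k1, k2, k3, k4, k5⟩ := irr_degree1 hG hd (by omega)
      refine ⟨insert τ Y₀, insert τ (W₀ ∪ U'), p₀ + b, s + s', m₀ + n + 1, Ctx.left hb g1 k2,
        Finset.insert_subset_insert _ g2,
        Finset.insert_subset_insert _ (Finset.union_subset_union g3 k1), ?_, ?_, ?_⟩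
      · rw [g4, k3]; abel
      · rw [map_add, Finset.card_insert_of_notMem hτ, Nat.add_mul, Nat.one_mul]
        exact Nat.add_le_add g5 k4
      · refine AddSubmonoid.add_mem _ (closure_mono1 ?_ (by omega) g6)
          (closure_mono1 ?_ (by omega) k5)
        · intro x hx; simp [hx]
        · intro x hx; simp [hx]
  | @right _ σ ρ _ Y₁ U₁ W₁ v w m₁ n₁ hb hd hc =>
    have i1 := (hc.interval hG).1
    have i2 := (hd.interval hG).1
    have i3 := hG.bin_lo _ _ _ hb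
    have i4 := hG.bin_mid _ _ _ hb
    have i5 := hG.bin_hi _ _ _ hb
    by_cases hτ : τ ∈ Y₁
    · obtain ⟨Y₂, U₂, v₂, m₂, Y₃, U₃, v₃, m₃, hc₂, hc₃, hY, hU, hv, hm, hm₃⟩ := hc.extract hτ
      have hloop := Ctx.right hb hd hc₂
      obtain ⟨Y₀, W₀, p₀, s, m₀, g1, g2, g3, g4, g5, g6⟩ := ih m₃ (by omega) hc₃ h₁ h₂
      have hYs : Y₃ ⊆ insert τ Y₁ := by
        intro x hx; rw [← hY]; simp [hx]
      have hUs : U₃ ⊆ insert τ (U₁ ∪ W₁) := by
        intro x hx; rw [← hU]; simp [hx]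
      refine ⟨Y₀, W₀, p₀, s + (v + v₂), m₀, g1, g2.trans hYs, g3.trans hUs, ?_, ?_, ?_⟩
      · rw [hv, g4]; abel
      · exact g5.trans (Nat.mul_le_mul_right _ (Finset.card_le_card hYs))
      · refine AddSubmonoid.add_mem _ (closure_mono1 hUs (by omega) g6)
          (AddSubmonoid.subset_closure ⟨τ, Finset.mem_insert_self _ _, _, _, _, hloop, ?_, by omega⟩)
        intro x hx
        rw [← hU]
        simp only [Finset.mem_insert, Finset.mem_union] at hx ⊢
        tauto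
    · obtain ⟨Y₀, W₀, p₀, s, m₀, g1, g2, g3, g4, g5, g6⟩ :=
        ih n₁ (by omega) hc (by omega) (by omega)
      obtain ⟨U', b, s', n, k1, k2, k3, k4, k5⟩ := irr_degree1 hG hd (by omega)
      refine ⟨insert τ Y₀, insert τ (U' ∪ W₀), b + p₀, s' + s, n + m₀ + 1, Ctx.right hb k2 g1,
        Finset.insert_subset_insert _ g2,
        Finset.insert_subset_insert _ (Finset.union_subset_union k1 g3), ?_, ?_, ?_⟩
      · rw [g4, k3]; abel
      · rw [map_add, Finset.card_insert_of_notMem hτ, Nat.add_mul, Nat.one_mul, Nat.add_comm]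
        exact Nat.add_le_add g5 k4
      · refine AddSubmonoid.add_mem _ (closure_mono1 ?_ (by omega) k5)
          (closure_mono1 ?_ (by omega) g6)
        · intro x hx; simp [hx]
        · intro x hx; simp [hx]

theorem loops_small (hG : Graded G lo hi K) (U : Finset J) :
    AddSubmonoid.closure (allLoops G U) ≤
      AddSubmonoid.closure (smallLoops G U (K * 2 ^ K)) := by
  rw [AddSubmonoid.closure_le]
  have key : ∀ m : ℕ, ∀ σ ∈ U, ∀ Y W : Finset J, ∀ p : Vec, Ctx G σ σ Y W p m → W ⊆ U →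
      p ∈ AddSubmonoid.closure (smallLoops G U (K * 2 ^ K)) := by
    intro m
    induction m using Nat.strong_induction_on with
    | _ m ih =>
    intro σ hσ Y W p hc hW
    obtain ⟨Y₀, W₀, p₀, s, m₀, g1, g2, g3, g4, g5, g6⟩ := ctx_reduce hG hc rfl rfl
    rw [g4]
    refine AddSubmonoid.add_mem _ (AddSubmonoid.subset_closure
      ⟨σ, hσ, Y₀, W₀, m₀, g1, g3.trans hW, ?_⟩) ?_
    · exact g5.trans (Nat.mul_le_mul_right _ (hc.path_card hG rfl rfl))
    · have : AddSubmonoid.closure (loops G W m) ≤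
          AddSubmonoid.closure (smallLoops G U (K * 2 ^ K)) := by
        rw [AddSubmonoid.closure_le]
        rintro q ⟨σ', hσ', Y', W', m', hc', hW', hm'⟩
        exact ih m' hm' σ' (hW hσ') Y' W' q hc' (hW'.trans hW)
      exact this g6
  rintro p ⟨σ, hσ, Y, W, m, hc, hW⟩
  exact key m σ hσ Y W p hc hW

end Pool.Helper49.WR
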