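import Pool.Agent.Helper49.WR.Defs
import Pool.Agent.Helper1.FIM.Grammar

/-!
# Project WR: the automaton of block words and the graded grammar of a context-free grammar
-/

set_option autoImplicit false

namespace Pool.Helper49.WR

open Pool.Agent.Helper1.FIM (Yields)

/-- A state `(a, s)`: we are in block `a`, and `s` is the part of the current copy of `X (ℓ a)`
that remains to be read.  `Run q u e q'`: the word `u` leads from `q` to `q'`, and `e` counts, for
each block, the copies that were started. -/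
inductive Run {T Λ : Type} (X : Λ → List T) (ℓ : ℕ → Λ) (M : ℕ) :
    ℕ × List T → List T → Vec → ℕ × List T → Prop
  | nil (q : ℕ × List T) : Run X ℓ M q [] 0 q
  | letter {a : ℕ} {t : T} {s u : List T} {e : Vec} {q' : ℕ × List T}
      (h : Run X ℓ M (a, s) u e q') : Run X ℓ M (a, t :: s) (t :: u) e q'
  | start {a b : ℕ} {t : T} {s u : List T} {e : Vec} {q' : ℕ × List T} (hab : a ≤ b)
      (hb : b < M) (hX : X (ℓ b) = t :: s) (h : Run X ℓ M (b, s) u e q') :
      Run X ℓ M (a, []) (t :: u) (Finsupp.single b 1 + e) q'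

section
variable {T Λ : Type}

/-- The types of the graded grammar: a state, a sentential form, a state. -/
abbrev CT (g : ContextFreeGrammar.{0} T) (Q : Finset (ℕ × List T))
    (F : Finset (List (Symbol T g.NT))) : Type :=
  {q : ℕ × List T // q ∈ Q} × {α : List (Symbol T g.NT) // α ∈ F} × {q : ℕ × List T // q ∈ Q}

/-- The graded grammar: a type `(q, α, q')` derives the exponent vectors of the words `u` with
`α ⇒ u` that lead from `q` to `q'`. -/
def cfWG (g : ContextFreeGrammar.{0} T) (X : Λ → List T) (ℓ : ℕ → Λ) (M : ℕ)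
    (Q : Finset (ℕ × List T)) (F : Finset (List (Symbol T g.NT))) : WG (CT g Q F) Vec where
  leaf τ v := (τ.2.1.1 = [] ∧ τ.2.2 = τ.1 ∧ v = 0) ∨
    ∃ t, τ.2.1.1 = [Symbol.terminal t] ∧ Run X ℓ M τ.1.1 [t] v τ.2.2.1
  bin τ σ ρ := σ.1 = τ.1 ∧ σ.2.2 = ρ.1 ∧ ρ.2.2 = τ.2.2 ∧
    ((∃ t, τ.2.1.1 = Symbol.terminal t :: ρ.2.1.1 ∧ σ.2.1.1 = [Symbol.terminal t]) ∨
      ∃ r ∈ g.rules, τ.2.1.1 = Symbol.nonterminal r.input :: ρ.2.1.1 ∧ σ.2.1.1 = r.output)

/-- A finite set of sentential forms that is closed under what the derivations need. -/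
structure FormsOK (g : ContextFreeGrammar.{0} T) (F : Finset (List (Symbol T g.NT))) : Prop where
  init : [Symbol.nonterminal g.initial] ∈ F
  tail : ∀ s γ, s :: γ ∈ F → γ ∈ F
  term : ∀ t γ, Symbol.terminal t :: γ ∈ F → [Symbol.terminal t] ∈ F
  out : ∀ r ∈ g.rules, r.output ∈ F

end

end Pool.Helper49.WR
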