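import Pool.Agent.Helper49.WR.Defs

/-!
# WR-K: a large exponent has a link with a large multiplicity

* `card_links`: a set of links with ends `< M` and coefficients with sum `≤ C` has at most
  `M * M * ((C + 1) * (C + 1))` elements: it is contained in
  `range M ×ˢ range M ×ˢ range (C+1) ×ˢ range (C+1)`.
* `exists_big`: if all links `p ∈ P` with `1 ≤ vec p i` had `k p < κ` then
  `e i = b i + ∑ k p * vec p i ≤ Bd + |P| * (C * κ)` (`vec p i ≤ p.2.2.1 + p.2.2.2 ≤ C`; links with
  `vec p i = 0` contribute nothing).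
* `ends_big`: if `k p ≥ κ` and `1 ≤ vec p m` then `e m ≥ κ`.
-/

set_option autoImplicit false

namespace Pool.Helper49.WR

private theorem vec_le26 (p : Link) (i : ℕ) : Link.vec p i ≤ p.2.2.1 + p.2.2.2 := by
  unfold Link.vec
  rw [Finsupp.add_apply, Finsupp.single_apply, Finsupp.single_apply]
  split_ifs <;> omega

private theorem lin_apply26 (b : Vec) (P : Finset Link) (k : Link → ℕ) (i : ℕ) :
    lin b P k i = b i + ∑ p ∈ P, k p * Link.vec p i := by
  unfold lin
  rw [Finsupp.add_apply, Finsupp.finsetSum_apply]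
  simp only [Finsupp.smul_apply, smul_eq_mul]

theorem card_links (M C : ℕ) (P : Finset Link)
    (hP : ∀ p ∈ P, p.1 ≤ p.2.1 ∧ p.2.1 < M ∧ p.2.2.1 + p.2.2.2 ≤ C) :
    P.card ≤ M * M * ((C + 1) * (C + 1)) := by
  have h1 : P ⊆ Finset.range M ×ˢ Finset.range M ×ˢ Finset.range (C + 1) ×ˢ
      Finset.range (C + 1) := by
    intro p hp
    obtain ⟨h1, h2, h3⟩ := hP p hp
    simp only [Finset.mem_product, Finset.mem_range]
    refine ⟨by omega, by omega, by omega, by omega⟩
  refine (Finset.card_le_card h1).trans (le_of_eq ?_)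
  simp only [Finset.card_product, Finset.card_range]
  ring

theorem exists_big (C Bd κ : ℕ) (b : Vec) (P : Finset Link) (k : Link → ℕ)
    (hb : ∀ i, b i ≤ Bd) (hC : ∀ p ∈ P, p.2.2.1 + p.2.2.2 ≤ C) (i : ℕ)
    (hi : Bd + P.card * (C * κ) < lin b P k i) : ∃ p ∈ P, κ ≤ k p ∧ 1 ≤ Link.vec p i := by
  by_contra hcon
  push Not at hcon
  rw [lin_apply26] at hi
  have h1 : ∀ p ∈ P, k p * Link.vec p i ≤ C * κ := by
    intro p hp
    have h2 := vec_le26 p i
    have h3 := hC p hp
    by_cases h4 : κ ≤ k p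
    · have h5 := hcon p hp h4
      have h6 : Link.vec p i = 0 := by omega
      rw [h6]; simp
    · calc k p * Link.vec p i ≤ κ * C := Nat.mul_le_mul (by omega) (by omega)
        _ = C * κ := Nat.mul_comm _ _
  have h2 := Finset.sum_le_sum h1
  rw [Finset.sum_const, smul_eq_mul] at h2
  have h3 := hb i
  omega

theorem ends_big (κ : ℕ) (b : Vec) (P : Finset Link) (k : Link → ℕ) {p : Link} (hp : p ∈ P)
    (hk : κ ≤ k p) {m : ℕ} (hm : 1 ≤ Link.vec p m) : κ ≤ lin b P k m := by
  rw [lin_apply26]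
  have h1 : k p * Link.vec p m ≤ ∑ q ∈ P, k q * Link.vec q m :=
    Finset.single_le_sum (f := fun q => k q * Link.vec q m) (fun q _ => Nat.zero_le _) hp
  have h2 : κ * 1 ≤ k p * Link.vec p m := Nat.mul_le_mul hk hm
  omega

end Pool.Helper49.WR
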