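import Pool.Agent.Helper49.WR.EvalWord

/-!
# WR-N3: the colour of a local change, and the number of high blocks

* `row_colour`: `Δ` is supported on two adjacent blocks `s + q`, `s + q + 1` of row `j`
  (`s = j (N+2)`, `q + 1 < N`).  The letters of the two blocks belong to different axes (consecutive
  residues mod 4), so one of `xs`, `ys` is `± Δ (s+q)` and the other `± Δ (s+q+1)`.  The other rows
  and the `c`-blocks are not touched.  (Rewrite the sums with `Finset.sum_eq_single` for the at most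
  one nonzero term; cases on `q % 4`.)
* `card_high`: the set of blocks `i` in rows `r > j`, `r < R`, at places `< 4 * 2^(R-1-r)`; it has
  `∑_{j < r < R} 4 * 2^(R-1-r) = 4 (2^(R-1-j) - 1)` elements.  (It injects by
  `i ↦ (i / (N+2), i % (N+2))` into the disjoint union over `r` of `range (4 * 2^(R-1-r))`,
  `Finset.sigma`; geometric sum by induction.)
-/

set_option autoImplicit false

namespace Pool.Helper49.WR

private theorem geo6 (n : ℕ) : ∑ k ∈ Finset.range n, 2 ^ (n - 1 - k) + 1 = 2 ^ n := by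
  induction n with
  | zero => simp
  | succ n ih =>
    rw [Finset.sum_range_succ']
    have h1 : ∑ k ∈ Finset.range n, 2 ^ (n + 1 - 1 - (k + 1)) =
        ∑ k ∈ Finset.range n, 2 ^ (n - 1 - k) := by
      refine Finset.sum_congr rfl fun k _ => ?_
      congr 1
      omega
    rw [h1, Nat.add_sub_cancel, Nat.sub_zero, pow_succ]
    omega

private theorem row6 {N j j' k l : ℕ} (hk : k < N + 2) (hl : l < N + 2)
    (h : j' * (N + 2) + k = j * (N + 2) + l) : j' = j := by
  have h1 : (j' * (N + 2) + k) / (N + 2) = j' := by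
    rw [mul_comm, Nat.mul_add_div (by omega), Nat.div_eq_of_lt hk, add_zero]
  have h2 : (j * (N + 2) + l) / (N + 2) = j := by
    rw [mul_comm, Nat.mul_add_div (by omega), Nat.div_eq_of_lt hl, add_zero]
  rw [← h1, h, h2]

theorem row_colour (N j q : ℕ) (hq : q + 1 < N) (Δ : ℕ → ℤ) (C₂ : ℤ)
    (h0 : ∀ m, m ≠ j * (N + 2) + q → m ≠ j * (N + 2) + q + 1 → Δ m = 0)
    (hne : ¬ (Δ (j * (N + 2) + q) = 0 ∧ Δ (j * (N + 2) + q + 1) = 0))
    (h₁ : |Δ (j * (N + 2) + q)| ≤ C₂) (h₂ : |Δ (j * (N + 2) + q + 1)| ≤ C₂) :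
    ((xs N Δ j, ys N Δ j) : D) ≠ 0 ∧ |xs N Δ j| ≤ C₂ ∧ |ys N Δ j| ≤ C₂ ∧ ms N Δ j = 0 ∧
      ∀ j', j' ≠ j → xs N Δ j' = 0 ∧ ys N Δ j' = 0 ∧ ms N Δ j' = 0 := by
  classical
  have hx : xs N Δ j = (if q % 4 = 0 then Δ (j * (N + 2) + q)
      else if q % 4 = 2 then - Δ (j * (N + 2) + q) else 0) +
      (if (q + 1) % 4 = 0 then Δ (j * (N + 2) + (q + 1))
      else if (q + 1) % 4 = 2 then - Δ (j * (N + 2) + (q + 1)) else 0) := by
    unfold xs
    refine Finset.sum_eq_add (a := q) (b := q + 1) (by omega) ?_ ?_ ?_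
    · rintro c - ⟨h1, h2⟩
      rw [h0 (j * (N + 2) + c) (by omega) (by omega)]
      simp
    · intro h
      exact absurd (Finset.mem_range.2 (by omega)) h
    · intro h
      exact absurd (Finset.mem_range.2 (by omega)) h
  have hy : ys N Δ j = (if q % 4 = 1 then Δ (j * (N + 2) + q)
      else if q % 4 = 3 then - Δ (j * (N + 2) + q) else 0) +
      (if (q + 1) % 4 = 1 then Δ (j * (N + 2) + (q + 1))
      else if (q + 1) % 4 = 3 then - Δ (j * (N + 2) + (q + 1)) else 0) := by
    unfold ys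
    refine Finset.sum_eq_add (a := q) (b := q + 1) (by omega) ?_ ?_ ?_
    · rintro c - ⟨h1, h2⟩
      rw [h0 (j * (N + 2) + c) (by omega) (by omega)]
      simp
    · intro h
      exact absurd (Finset.mem_range.2 (by omega)) h
    · intro h
      exact absurd (Finset.mem_range.2 (by omega)) h
  have hA : j * (N + 2) + (q + 1) = j * (N + 2) + q + 1 := rfl
  rw [hA] at hx hy
  have hrest : ms N Δ j = 0 ∧
      ∀ j', j' ≠ j → xs N Δ j' = 0 ∧ ys N Δ j' = 0 ∧ ms N Δ j' = 0 := by
    refine ⟨?_, ?_⟩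
    · unfold ms
      rw [h0 (j * (N + 2) + N) (by omega) (by omega),
        h0 (j * (N + 2) + N + 1) (by omega) (by omega), sub_zero]
    · intro j' hj'
      have hz : ∀ k, k < N + 2 → Δ (j' * (N + 2) + k) = 0 := by
        intro k hk
        refine h0 _ (fun h => hj' (row6 hk (by omega) h)) (fun h => hj' (row6 hk (l := q + 1)
          (by omega) h))
      refine ⟨?_, ?_, ?_⟩
      · unfold xs
        refine Finset.sum_eq_zero fun k hk => ?_
        rw [Finset.mem_range] at hk
        rw [hz k (by omega)]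
        simp
      · unfold ys
        refine Finset.sum_eq_zero fun k hk => ?_
        rw [Finset.mem_range] at hk
        rw [hz k (by omega)]
        simp
      · unfold ms
        rw [hz N (by omega), add_assoc, hz (N + 1) (by omega), sub_zero]
  generalize Δ (j * (N + 2) + q) = u at *
  generalize Δ (j * (N + 2) + q + 1) = v at *
  have hpair : ∀ p r : ℤ, ¬ (p = 0 ∧ r = 0) → ((p, r) : D) ≠ 0 := by
    intro p r h h1
    exact h ⟨congrArg Prod.fst h1, congrArg Prod.snd h1⟩
  have h4 : q % 4 < 4 := Nat.mod_lt _ (by norm_num)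
  have h5 : (q % 4 = 0 ∧ (q + 1) % 4 = 1) ∨ (q % 4 = 1 ∧ (q + 1) % 4 = 2) ∨
      (q % 4 = 2 ∧ (q + 1) % 4 = 3) ∨ (q % 4 = 3 ∧ (q + 1) % 4 = 0) := by omega
  refine ⟨?_, ?_, ?_, hrest⟩
  · refine hpair _ _ ?_
    rintro ⟨e1, e2⟩
    rcases h5 with h5 | h5 | h5 | h5 <;> rw [hx, h5.1, h5.2] at e1 <;>
      rw [hy, h5.1, h5.2] at e2 <;> norm_num at e1 e2
    · exact hne ⟨e1, e2⟩
    · exact hne ⟨e2, e1⟩
    · exact hne ⟨e1, e2⟩
    · exact hne ⟨e2, e1⟩
  · rcases h5 with h5 | h5 | h5 | h5 <;> rw [hx, h5.1, h5.2] <;> norm_num <;> assumption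
  · rcases h5 with h5 | h5 | h5 | h5 <;> rw [hy, h5.1, h5.2] <;> norm_num <;> assumption

theorem card_high (R j : ℕ) (hj : j < R) :
    ((Finset.range (R * (4 * 2 ^ R + 2))).filter fun i =>
      j < i / (4 * 2 ^ R + 2) ∧
        i % (4 * 2 ^ R + 2) < 4 * 2 ^ (R - 1 - i / (4 * 2 ^ R + 2))).card <
      4 * 2 ^ (R - 1 - j) := by
  classical
  set M : ℕ := 4 * 2 ^ R + 2 with hM
  have hsub : ((Finset.range (R * M)).filter fun i => j < i / M ∧ i % M < 4 * 2 ^ (R - 1 - i / M)) ⊆
      (Finset.range (R - 1 - j)).biUnion fun k =>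
        (Finset.range (4 * 2 ^ (R - 1 - j - 1 - k))).image fun l => (j + 1 + k) * M + l := by
    intro i hi
    rw [Finset.mem_filter, Finset.mem_range] at hi
    obtain ⟨h1, h2, h3⟩ := hi
    have h4 : i / M < R := Nat.div_lt_of_lt_mul (by rw [mul_comm]; exact h1)
    rw [Finset.mem_biUnion]
    refine ⟨i / M - (j + 1), Finset.mem_range.2 (by omega), Finset.mem_image.2 ⟨i % M, ?_, ?_⟩⟩
    · rw [Finset.mem_range]
      have h5 : R - 1 - j - 1 - (i / M - (j + 1)) = R - 1 - i / M := by omega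
      rw [h5]
      exact h3
    · have h5 : j + 1 + (i / M - (j + 1)) = i / M := by omega
      rw [h5, mul_comm]
      exact Nat.div_add_mod i M
  have h1 : ((Finset.range (R * M)).filter fun i =>
      j < i / M ∧ i % M < 4 * 2 ^ (R - 1 - i / M)).card ≤
      ∑ k ∈ Finset.range (R - 1 - j), 4 * 2 ^ (R - 1 - j - 1 - k) := by
    refine le_trans (Finset.card_le_card hsub) (le_trans Finset.card_biUnion_le ?_)
    refine Finset.sum_le_sum fun k _ => ?_
    exact le_trans Finset.card_image_le (le_of_eq (Finset.card_range _))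
  rw [← Finset.mul_sum] at h1
  have h2 := geo6 (R - 1 - j)
  omega

end Pool.Helper49.WR
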