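import Pool.Agent.Helper49.WR.Defs

/-!
# WR-A: contexts and derivations

Straightforward inductions.

* `Ctx.plug`: put a derivation of type `π` into the hole (induction on the context; the set
  identities are `insert τ (U ∪ W) ∪ U' = insert τ ((U ∪ U') ∪ W)`, use `Finset.ext`/`simp; tauto`
  or `ac_rfl`-style rewriting; the sizes and weights add up, `omega` / `abel`).
  Since `Der`/`Ctx` have sets, weights and sizes as indices, prove the equality of indices first and
  `subst`/`▸`/`convert` the constructor: e.g. `have := Der.bin h ih h₂` and then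
  `convert this using 1 <;> ...`.
* `Ctx.comp`: the same with a context in the hole.
* `Der.extract`: a type that is used occurs at some node: cut the tree there.  Induction on the
  derivation: if `τ` is the root, take the empty context, otherwise `τ ∈ U` or `τ ∈ W` for the
  left or right subtree.
* `Ctx.extract`: the same for a type on the path to the hole; the lower context starts at a node
  that is not the hole, hence has at least one node.
* `Der.insertCtx`: insert a loop at a node of type `τ`: `extract`, then `plug` twice.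
* `Ctx.subset`: the path is part of the context.
-/

set_option autoImplicit false

namespace Pool.Helper49.WR

variable {J V : Type} [DecidableEq J] [AddCommMonoid V] {G : WG J V}

theorem Der.root_mem {τ : J} {U : Finset J} {e : V} {n : ℕ} (h : Der G τ U e n) : τ ∈ U := by
  cases h with
  | leaf h => exact Finset.mem_singleton_self _
  | bin h h₁ h₂ => exact Finset.mem_insert_self _ _

theorem Der.pos {τ : J} {U : Finset J} {e : V} {n : ℕ} (h : Der G τ U e n) : 1 ≤ n := by
  cases h with
  | leaf h => exact le_rfl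
  | bin h h₁ h₂ => omega

theorem Ctx.subset {τ π : J} {Y W : Finset J} {p : V} {m : ℕ} (h : Ctx G τ π Y W p m) :
    Y ⊆ W := by
  induction h with
  | nil => exact Finset.Subset.refl _
  | left h h₁ h₂ ih =>
    exact Finset.insert_subset_insert _ (ih.trans Finset.subset_union_left)
  | right h h₁ h₂ ih =>
    exact Finset.insert_subset_insert _ (ih.trans Finset.subset_union_right)

theorem Ctx.plug {τ π : J} {Y W U : Finset J} {p e : V} {m n : ℕ} (h : Ctx G τ π Y W p m)
    (h' : Der G π U e n) : Der G τ (W ∪ U) (p + e) (m + n) := by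
  induction h with
  | nil =>
    rw [Finset.empty_union, zero_add, Nat.zero_add]
    exact h'
  | left h h₁ h₂ ih =>
    have := Der.bin h (ih h') h₂
    convert this using 1
    · ext x; simp only [Finset.mem_union, Finset.mem_insert]; tauto
    · abel
    · omega
  | right h h₁ h₂ ih =>
    have := Der.bin h h₁ (ih h')
    convert this using 1
    · ext x; simp only [Finset.mem_union, Finset.mem_insert]; tauto
    · abel
    · omega

theorem Ctx.comp {τ σ π : J} {Y W Y' W' : Finset J} {p p' : V} {m m' : ℕ}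
    (h : Ctx G τ σ Y W p m) (h' : Ctx G σ π Y' W' p' m') :
    Ctx G τ π (Y ∪ Y') (W ∪ W') (p + p') (m + m') := by
  induction h with
  | nil =>
    rw [Finset.empty_union, Finset.empty_union, zero_add, Nat.zero_add]
    exact h'
  | left h h₁ h₂ ih =>
    have := Ctx.left h (ih h') h₂
    convert this using 1
    · ext x; simp only [Finset.mem_union, Finset.mem_insert]; tauto
    · ext x; simp only [Finset.mem_union, Finset.mem_insert]; tauto
    · abel
    · omega
  | right h h₁ h₂ ih =>
    have := Ctx.right h h₁ (ih h')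
    convert this using 1
    · ext x; simp only [Finset.mem_union, Finset.mem_insert]; tauto
    · ext x; simp only [Finset.mem_union, Finset.mem_insert]; tauto
    · abel
    · omega

theorem Der.extract {ρ τ : J} {U : Finset J} {e : V} {n : ℕ} (h : Der G ρ U e n) (hτ : τ ∈ U) :
    ∃ Y W p m U' e' n', Ctx G ρ τ Y W p m ∧ Der G τ U' e' n' ∧ W ∪ U' = U ∧ e = p + e' ∧
      n = m + n' := by
  induction h with
  | @leaf ρ v h =>
    rw [Finset.mem_singleton] at hτ
    subst hτ
    exact ⟨∅, ∅, 0, 0, _, _, _, Ctx.nil, Der.leaf h, Finset.empty_union _, (zero_add _).symm,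
      (Nat.zero_add _).symm⟩
  | @bin ρ σ₁ σ₂ U W v w m n h h₁ h₂ ih₁ ih₂ =>
    by_cases hroot : τ = ρ
    · subst hroot
      exact ⟨∅, ∅, 0, 0, _, _, _, Ctx.nil, Der.bin h h₁ h₂, Finset.empty_union _, (zero_add _).symm,
        (Nat.zero_add _).symm⟩
    · rw [Finset.mem_insert, Finset.mem_union] at hτ
      rcases hτ with hτ | hτ | hτ
      · exact absurd hτ hroot
      · obtain ⟨Y, W', p, k, U', e', n', hc, hd, h3, h4, h5⟩ := ih₁ hτ
        refine ⟨_, _, _, _, U', e', n', Ctx.left h hc h₂, hd, ?_, ?_, ?_⟩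
        · rw [← h3]; ext x; simp only [Finset.mem_union, Finset.mem_insert]; tauto
        · rw [h4]; abel
        · omega
      · obtain ⟨Y, W', p, k, U', e', n', hc, hd, h3, h4, h5⟩ := ih₂ hτ
        refine ⟨_, _, _, _, U', e', n', Ctx.right h h₁ hc, hd, ?_, ?_, ?_⟩
        · rw [← h3]; ext x; simp only [Finset.mem_union, Finset.mem_insert]; tauto
        · rw [h4]; abel
        · omega

theorem Ctx.extract {τ π σ : J} {Y W : Finset J} {p : V} {m : ℕ} (h : Ctx G τ π Y W p m)
    (hσ : σ ∈ Y) :
    ∃ Y₁ W₁ p₁ m₁ Y₂ W₂ p₂ m₂, Ctx G τ σ Y₁ W₁ p₁ m₁ ∧ Ctx G σ π Y₂ W₂ p₂ m₂ ∧ Y₁ ∪ Y₂ = Y ∧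
      W₁ ∪ W₂ = W ∧ p = p₁ + p₂ ∧ m = m₁ + m₂ ∧ 1 ≤ m₂ := by
  induction h with
  | nil => exact absurd hσ (Finset.notMem_empty _)
  | @left ρ σ₁ σ₂ π Y U W v w m n h h₁ h₂ ih =>
    by_cases hroot : σ = ρ
    · subst hroot
      exact ⟨∅, ∅, 0, 0, _, _, _, _, Ctx.nil, Ctx.left h h₁ h₂, Finset.empty_union _,
        Finset.empty_union _, (zero_add _).symm, (Nat.zero_add _).symm, by omega⟩
    · rw [Finset.mem_insert] at hσ
      rcases hσ with hσ | hσ
      · exact absurd hσ hroot
      · obtain ⟨Y₁, W₁, p₁, m₁, Y₂, W₂, p₂, m₂, c1, c2, e1, e2, e3, e4, e5⟩ := ih hσ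
        refine ⟨_, _, _, _, Y₂, W₂, p₂, m₂, Ctx.left h c1 h₂, c2, ?_, ?_, ?_, ?_, e5⟩
        · rw [← e1]; ext x; simp only [Finset.mem_union, Finset.mem_insert]; tauto
        · rw [← e2]; ext x; simp only [Finset.mem_union, Finset.mem_insert]; tauto
        · rw [e3]; abel
        · omega
  | @right ρ σ₁ σ₂ π Y U W v w m n h h₁ h₂ ih =>
    by_cases hroot : σ = ρ
    · subst hroot
      exact ⟨∅, ∅, 0, 0, _, _, _, _, Ctx.nil, Ctx.right h h₁ h₂, Finset.empty_union _,
        Finset.empty_union _, (zero_add _).symm, (Nat.zero_add _).symm, by omega⟩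
    · rw [Finset.mem_insert] at hσ
      rcases hσ with hσ | hσ
      · exact absurd hσ hroot
      · obtain ⟨Y₁, W₁, p₁, m₁, Y₂, W₂, p₂, m₂, c1, c2, e1, e2, e3, e4, e5⟩ := ih hσ
        refine ⟨_, _, _, _, Y₂, W₂, p₂, m₂, Ctx.right h h₁ c1, c2, ?_, ?_, ?_, ?_, e5⟩
        · rw [← e1]; ext x; simp only [Finset.mem_union, Finset.mem_insert]; tauto
        · rw [← e2]; ext x; simp only [Finset.mem_union, Finset.mem_insert]; tauto
        · rw [e3]; abel
        · omega

theorem Der.insertCtx {ρ τ : J} {U Y W : Finset J} {e p : V} {n m : ℕ} (h : Der G ρ U e n)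
    (hτ : τ ∈ U) (hc : Ctx G τ τ Y W p m) : Der G ρ (U ∪ W) (e + p) (n + m) := by
  obtain ⟨Y', W', p', m', U', e', n', h1, h2, h3, h4, h5⟩ := h.extract hτ
  have h6 := h1.plug (hc.plug h2)
  convert h6 using 1
  · rw [← h3]; ext x; simp only [Finset.mem_union]; tauto
  · rw [h4]; abel
  · omega

end Pool.Helper49.WR
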