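import Pool.Agent.Helper49.WR.Defs

/-!
# WR-N2: the value of a block word

The letters are `0, …, 5` = `a, b, a⁻¹, b⁻¹, c, c⁻¹`.  The blocks are arranged in rows of length
`N + 2`: in each row the first `N` blocks have the letters `a, b, a⁻¹, b⁻¹, a, b, …`, the last two
blocks the letters `c, c⁻¹`.

* `eval_bword`: `((bword X (lett N) M e).map f).prod` is the product over the blocks of
  `val (lett i) ^ e i` (`List.flatMap`, `List.prod_flatten`, `List.prod_replicate`).  For
  `M = R (N+2)`, by induction on `R`, the product of the blocks of row `j` is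
  `a^{xs j} b^{ys j} c^{ms j}` since `a` and `b` commute (`hab : a * b = b * a`; use
  `Commute.zpow_zpow`; induction on `q ≤ N` for the first `q` blocks of a row).
* `expo`: the exponents for the word `w` (list of `((x, y), μ)`, row `j` belongs to the `j`-th
  entry): row `j` has its first `4 * 2^(len w - 1 - j)` blocks `≥ U j`.
  `N = 4 * 2^(len w)`.
  `unword_expo`: the row `j` has `xs = ∑ (U j - U j) + x⁺ - x⁻ = x`: among the first
  `n = 4 * 2^..` blocks (a multiple of 4) each letter occurs `n / 4` times.
-/

set_option autoImplicit false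

namespace Pool.Helper49.WR

/-- The letter of block `i`, for rows of length `N + 2`. -/
def lett (N i : ℕ) : Fin 6 :=
  if i % (N + 2) < N then
    (if i % (N + 2) % 4 = 0 then 0 else if i % (N + 2) % 4 = 1 then 1
      else if i % (N + 2) % 4 = 2 then 2 else 3)
  else if i % (N + 2) = N then 4 else 5

/-- `x`-displacement of row `j`. -/
def xs (N : ℕ) (e : ℕ → ℤ) (j : ℕ) : ℤ :=
  ∑ q ∈ Finset.range N, (if q % 4 = 0 then e (j * (N + 2) + q)
    else if q % 4 = 2 then - e (j * (N + 2) + q) else 0)

/-- `y`-displacement of row `j`. -/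
def ys (N : ℕ) (e : ℕ → ℤ) (j : ℕ) : ℤ :=
  ∑ q ∈ Finset.range N, (if q % 4 = 1 then e (j * (N + 2) + q)
    else if q % 4 = 3 then - e (j * (N + 2) + q) else 0)

/-- exponent of `c` in row `j`. -/
def ms (N : ℕ) (e : ℕ → ℤ) (j : ℕ) : ℤ :=
  e (j * (N + 2) + N) - e (j * (N + 2) + N + 1)

/-- The word of moves and exponents given by the first `n` rows. -/
def unword (N n : ℕ) (e : ℕ → ℤ) : List (D × ℤ) :=
  (List.range n).map fun j => ((xs N e j, ys N e j), ms N e j)

/-- The values of the letters. -/
def val {G : Type} [Group G] (a b c : G) (l : Fin 6) : G :=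
  if l = 0 then a else if l = 1 then b else if l = 2 then a⁻¹ else if l = 3 then b⁻¹
  else if l = 4 then c else c⁻¹

private theorem rep75 {T G : Type} [Group G] (f : T → G) (x : List T) (k : ℕ) :
    ((List.replicate k x).flatten.map f).prod = ((x.map f).prod) ^ k := by
  induction k with
  | zero => simp
  | succ k ih =>
    rw [List.replicate_succ, List.flatten_cons, List.map_append, List.prod_append, ih, pow_succ']

/-- the product of the first `m` blocks -/
private def pp75 {G : Type} [Group G] (a b c : G) (N : ℕ) (e : ℕ → ℕ) (m : ℕ) : G :=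
  ((List.range m).map fun i => val a b c (lett N i) ^ e i).prod

private theorem bword_prod75 {T G : Type} [Group G] {a b c : G} (f : T → G)
    (X : Fin 6 → List T) (hX : ∀ l, ((X l).map f).prod = val a b c l) (N m : ℕ) (e : ℕ → ℕ) :
    ((bword X (lett N) m e).map f).prod = pp75 a b c N e m := by
  unfold bword pp75
  induction m with
  | zero => simp
  | succ m ih =>
    rw [List.range_succ, List.flatMap_append, List.map_append, List.prod_append, ih, List.map_append,
      List.prod_append]
    congr 1
    rw [List.flatMap_cons, List.flatMap_nil, List.append_nil, rep75, hX]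
    simp

private theorem pp_succ75 {G : Type} [Group G] (a b c : G) (N : ℕ) (e : ℕ → ℕ) (m : ℕ) :
    pp75 a b c N e (m + 1) = pp75 a b c N e m * val a b c (lett N m) ^ e m := by
  unfold pp75
  rw [List.range_succ, List.map_append, List.prod_append]
  simp

private theorem mod75 (N j q : ℕ) (hq : q < N + 2) : (j * (N + 2) + q) % (N + 2) = q := by
  rw [Nat.add_comm, Nat.add_mul_mod_self_right, Nat.mod_eq_of_lt hq]

private theorem row75 {G : Type} [Group G] {a b c : G} (hab : a * b = b * a) (N j : ℕ) (e : ℕ → ℕ) (q : ℕ)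
    (hq : q ≤ N) :
    pp75 a b c N e (j * (N + 2) + q) = pp75 a b c N e (j * (N + 2)) *
      (a ^ (∑ q ∈ Finset.range q, (if q % 4 = 0 then (e (j * (N + 2) + q) : ℤ)
        else if q % 4 = 2 then - (e (j * (N + 2) + q) : ℤ) else 0)) *
      b ^ (∑ q ∈ Finset.range q, (if q % 4 = 1 then (e (j * (N + 2) + q) : ℤ)
        else if q % 4 = 3 then - (e (j * (N + 2) + q) : ℤ) else 0))) := by
  have hc : Commute a b := hab
  induction q with
  | zero => simp
  | succ q ih =>
    have hq' : q < N := hq
    rw [← add_assoc, pp_succ75, ih hq'.le, Finset.sum_range_succ, Finset.sum_range_succ, mul_assoc]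
    congr 1
    set s := ∑ q ∈ Finset.range q, (if q % 4 = 0 then (e (j * (N + 2) + q) : ℤ)
        else if q % 4 = 2 then - (e (j * (N + 2) + q) : ℤ) else 0)
    set t := ∑ q ∈ Finset.range q, (if q % 4 = 1 then (e (j * (N + 2) + q) : ℤ)
        else if q % 4 = 3 then - (e (j * (N + 2) + q) : ℤ) else 0)
    set k := e (j * (N + 2) + q)
    have hl : lett N (j * (N + 2) + q) = (if q % 4 = 0 then 0 else if q % 4 = 1 then 1
        else if q % 4 = 2 then 2 else 3) := by
      unfold lett
      rw [mod75 N j q (by omega), if_pos hq']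
    have h4 : q % 4 = 0 ∨ q % 4 = 1 ∨ q % 4 = 2 ∨ q % 4 = 3 := by omega
    rcases h4 with h | h | h | h
    · have hv : val a b c (lett N (j * (N + 2) + q)) = a := by rw [hl, h]; rfl
      rw [hv, if_pos h, if_neg (by omega), if_neg (by omega), add_zero, ← zpow_natCast, zpow_add, mul_assoc, mul_assoc,
        (hc.zpow_zpow (k : ℤ) t).eq]
    · have hv : val a b c (lett N (j * (N + 2) + q)) = b := by rw [hl, h]; rfl
      rw [hv, if_neg (by omega), if_neg (by omega), if_pos h, add_zero, ← zpow_natCast, zpow_add, mul_assoc]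
    · have hv : val a b c (lett N (j * (N + 2) + q)) = a⁻¹ := by rw [hl, h]; rfl
      rw [hv, if_neg (by omega), if_pos h, if_neg (by omega), if_neg (by omega), add_zero, ← zpow_natCast,
        inv_zpow', zpow_add, mul_assoc, mul_assoc, (hc.zpow_zpow (-(k : ℤ)) t).eq]
    · have hv : val a b c (lett N (j * (N + 2) + q)) = b⁻¹ := by rw [hl, h]; rfl
      rw [hv, if_neg (by omega), if_neg (by omega), if_neg (by omega), if_pos h, add_zero, ← zpow_natCast,
        inv_zpow', zpow_add, mul_assoc]

theorem eval_bword {T G : Type} [Group G] {a b c : G} (hab : a * b = b * a) (f : T → G)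
    (X : Fin 6 → List T) (hX : ∀ l, ((X l).map f).prod = val a b c l) (N n : ℕ) (e : ℕ → ℕ) :
    ((bword X (lett N) (n * (N + 2)) e).map f).prod =
      ev a b c (unword N n fun i => (e i : ℤ)) := by
  rw [bword_prod75 f X hX]
  induction n with
  | zero => simp [pp75, unword, ev]
  | succ n ih =>
    have h1 : (n + 1) * (N + 2) = n * (N + 2) + N + 1 + 1 := by ring
    have h2 : val a b c (lett N (n * (N + 2) + N)) = c := by
      have : lett N (n * (N + 2) + N) = 4 := by
        unfold lett
        rw [mod75 N n N (by omega), if_neg (by omega), if_pos rfl]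
      rw [this]
      rfl
    have h3 : val a b c (lett N (n * (N + 2) + N + 1)) = c⁻¹ := by
      have : lett N (n * (N + 2) + N + 1) = 5 := by
        unfold lett
        rw [add_assoc, mod75 N n (N + 1) (by omega), if_neg (by omega), if_neg (by omega)]
      rw [this]
      rfl
    rw [h1, pp_succ75, pp_succ75, row75 hab N n e N le_rfl, ih, h2, h3]
    unfold ev unword
    rw [List.range_succ, List.map_append, List.map_append, List.prod_append]
    have h4 : c ^ (e (n * (N + 2) + N)) * c⁻¹ ^ (e (n * (N + 2) + N + 1)) =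
        c ^ (ms N (fun i => (e i : ℤ)) n) := by
      unfold ms
      rw [← zpow_natCast, ← zpow_natCast, inv_zpow', ← zpow_add, sub_eq_add_neg]
    simp only [List.map_cons, List.map_nil, List.prod_cons, List.prod_nil, mul_one]
    rw [← h4]
    simp only [mul_assoc]
    rfl

/-- The exponents for the word `w` with levels `U`. -/
def expo (U : ℕ → ℕ) (w : List (D × ℤ)) (i : ℕ) : ℕ :=
  let N := 4 * 2 ^ w.length
  let j := i / (N + 2)
  let q := i % (N + 2)
  let x := (w.getD j ((0, 0), 0)).1.1
  let y := (w.getD j ((0, 0), 0)).1.2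
  let μ := (w.getD j ((0, 0), 0)).2
  if w.length ≤ j then 0
  else if q < 4 * 2 ^ (w.length - 1 - j) then
    U j + (if q = 0 then x.toNat else if q = 1 then y.toNat else if q = 2 then (-x).toNat
      else if q = 3 then (-y).toNat else 0)
  else if q < N then 0
  else if q = N then μ.toNat
  else (-μ).toNat

private theorem div75 (N j q : ℕ) (hq : q < N + 2) : (j * (N + 2) + q) / (N + 2) = j := by
  rw [Nat.add_comm, Nat.add_mul_div_right _ _ (by omega), Nat.div_eq_of_lt hq, zero_add]

/-- alternating sums over blocks of four -/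
private theorem alt75 (F : ℕ → ℤ) (r s : ℕ) (hr : r < 4) (hs : s < 4) (hrs : r ≠ s) (m : ℕ) :
    ∑ q ∈ Finset.range (4 * m), (if q % 4 = r then F q else if q % 4 = s then - F q else 0) =
      ∑ i ∈ Finset.range m, (F (4 * i + r) - F (4 * i + s)) := by
  induction m with
  | zero => simp
  | succ m ih =>
    have h : 4 * (m + 1) = 4 * m + 1 + 1 + 1 + 1 := by ring
    rw [h, Finset.sum_range_succ, Finset.sum_range_succ, Finset.sum_range_succ, Finset.sum_range_succ, ih,
      Finset.sum_range_succ]
    have e0 : (4 * m) % 4 = 0 := by omega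
    have e1 : (4 * m + 1) % 4 = 1 := by omega
    have e2 : (4 * m + 1 + 1) % 4 = 2 := by omega
    have e3 : (4 * m + 1 + 1 + 1) % 4 = 3 := by omega
    rw [e0, e1, e2, e3]
    interval_cases r <;> interval_cases s <;> simp at hrs ⊢ <;> ring_nf

private theorem first75 (F : ℕ → ℤ) (m : ℕ) (hm : 0 < m) (h : ∀ i, 0 < i → F i = 0) :
    ∑ i ∈ Finset.range m, F i = F 0 := by
  rw [Finset.sum_eq_single 0]
  · intro b _ hb
    exact h b (Nat.pos_of_ne_zero hb)
  · intro h0
    exact absurd (Finset.mem_range.2 hm) h0

theorem unword_expo (U : ℕ → ℕ) (w : List (D × ℤ)) :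
    unword (4 * 2 ^ w.length) w.length (fun i => (expo U w i : ℤ)) = w := by
  have hval : ∀ j (hj : j < w.length) q, q < 4 * 2 ^ w.length + 2 →
      (expo U w (j * (4 * 2 ^ w.length + 2) + q) : ℤ) =
        if q < 4 * 2 ^ (w.length - 1 - j) then
          (U j : ℤ) + (if q = 0 then (w[j].1.1.toNat : ℤ) else if q = 1 then (w[j].1.2.toNat : ℤ)
            else if q = 2 then ((-w[j].1.1).toNat : ℤ) else if q = 3 then ((-w[j].1.2).toNat : ℤ) else 0)
        else if q < 4 * 2 ^ w.length then 0
        else if q = 4 * 2 ^ w.length then (w[j].2.toNat : ℤ)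
        else ((-w[j].2).toNat : ℤ) := by
    intro j hj q hq
    unfold expo
    simp only [div75 (4 * 2 ^ w.length) j q hq, mod75 (4 * 2 ^ w.length) j q hq]
    have hg : w.getD j ((0, 0), 0) = w[j] := by
      rw [List.getD_eq_getElem?_getD, List.getElem?_eq_getElem hj, Option.getD_some]
    rw [hg, if_neg (by omega)]
    push_cast
    rfl
  have hK : ∀ j, 4 * 2 ^ (w.length - 1 - j) ≤ 4 * 2 ^ w.length := fun j =>
    Nat.mul_le_mul_left 4 (Nat.pow_le_pow_right (by norm_num) (by omega))
  apply List.ext_getElem
  · simp [unword]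
  · intro j hj hj'
    have hsum : ∀ r s : ℕ, r < 4 → s < 4 → r ≠ s →
        ∑ q ∈ Finset.range (4 * 2 ^ w.length), (if q % 4 = r then
            (expo U w (j * (4 * 2 ^ w.length + 2) + q) : ℤ)
          else if q % 4 = s then - (expo U w (j * (4 * 2 ^ w.length + 2) + q) : ℤ) else 0) =
        (if r = 0 then (w[j].1.1.toNat : ℤ) else if r = 1 then (w[j].1.2.toNat : ℤ)
            else if r = 2 then ((-w[j].1.1).toNat : ℤ) else if r = 3 then ((-w[j].1.2).toNat : ℤ) else 0) -
        (if s = 0 then (w[j].1.1.toNat : ℤ) else if s = 1 then (w[j].1.2.toNat : ℤ)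
            else if s = 2 then ((-w[j].1.1).toNat : ℤ) else if s = 3 then ((-w[j].1.2).toNat : ℤ) else 0) := by
      intro r s hr hs hrs
      set g : ℕ → ℤ := fun q => (U j : ℤ) + (if q = 0 then (w[j].1.1.toNat : ℤ)
        else if q = 1 then (w[j].1.2.toNat : ℤ)
            else if q = 2 then ((-w[j].1.1).toNat : ℤ) else if q = 3 then ((-w[j].1.2).toNat : ℤ) else 0) with hg
      have h1 : ∑ q ∈ Finset.range (4 * 2 ^ w.length), (if q % 4 = r then
            (expo U w (j * (4 * 2 ^ w.length + 2) + q) : ℤ)
          else if q % 4 = s then - (expo U w (j * (4 * 2 ^ w.length + 2) + q) : ℤ) else 0) =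
          ∑ q ∈ Finset.range (4 * 2 ^ (w.length - 1 - j)), (if q % 4 = r then g q
          else if q % 4 = s then - g q else 0) := by
        symm
        rw [← Finset.sum_subset (Finset.range_mono (hK j))]
        · apply Finset.sum_congr rfl
          intro q hq
          have hq' := Finset.mem_range.1 hq
          have := hK j
          rw [hval j hj' q (by omega), if_pos hq']
        · intro q hq hq'
          have h2 := Finset.mem_range.1 hq
          have h3 : ¬ q < 4 * 2 ^ (w.length - 1 - j) := fun h => hq' (Finset.mem_range.2 h)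
          rw [hval j hj' q (by omega), if_neg h3, if_pos h2]
          simp
      rw [h1, alt75 g r s hr hs hrs, first75 _ _ (pow_pos (by norm_num) _)]
      · simp only [hg, mul_zero, zero_add]
        ring
      · intro i hi
        have h5 : ∀ t, t < 4 → g (4 * i + t) = U j := by
          intro t ht
          simp only [hg]
          rw [if_neg (by omega), if_neg (by omega), if_neg (by omega), if_neg (by omega), add_zero]
        rw [h5 r hr, h5 s hs, sub_self]
    have hx : xs (4 * 2 ^ w.length) (fun i => (expo U w i : ℤ)) j = w[j].1.1 := by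
      unfold xs
      rw [hsum 0 2 (by norm_num) (by norm_num) (by norm_num)]
      simp only [if_true]
      norm_num
    have hy : ys (4 * 2 ^ w.length) (fun i => (expo U w i : ℤ)) j = w[j].1.2 := by
      unfold ys
      rw [hsum 1 3 (by norm_num) (by norm_num) (by norm_num)]
      norm_num
    have hm : ms (4 * 2 ^ w.length) (fun i => (expo U w i : ℤ)) j = w[j].2 := by
      have h1 := hval j hj' (4 * 2 ^ w.length) (by omega)
      have h2 := hval j hj' (4 * 2 ^ w.length + 1) (by omega)
      have := hK j
      rw [if_neg (by omega), if_neg (by omega), if_pos rfl] at h1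
      rw [if_neg (by omega), if_neg (by omega), if_neg (by omega)] at h2
      unfold ms
      simp only
      rw [add_assoc, h1, h2]
      omega
    unfold unword
    rw [List.getElem_map, List.getElem_range, hx, hy, hm]

end Pool.Helper49.WR
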