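import Pool.Agent.Helper49.WR.IrrDecomp

/-!
# WR-C: a bounded derivation with the same used set

In the extended grammar `ext G` a type `(τ, U)` remembers the set of types used below it.

* `Der.toExt`, `ext_project`, `ext_ctx`: easy inductions.  (For `ext_ctx`: at a `left` node
  `x.2 = insert x.1 (y.2 ∪ z.2)` where `y` is the type of the next node on the path, `z` the type
  of the side tree; the side tree projects to `Der G z.1 z.2 w n` by `ext_project`; the new used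
  set is `insert x.1 (W ∪ z.2)`.)
* `base`: take the derivation in `ext G` (`Der.toExt`), apply `irr_decomp` to it: `e = b + s`,
  `Irr (ext G) (τ, U) 𝒰' b`, so `len b ≤ 2^|𝒰'| ≤ 2^|J × Finset J|` (`Irr.bound`; the leaves of
  `ext G` are leaves of `G`), and `Irr.der` + `ext_project` give `Der G τ U b n'`.  The loops of
  `ext G` in `𝒰` are loops of `G` in `U`: for `Ctx (ext G) σ σ 𝒴 𝒲 p m` with `σ ∈ 𝒰`,
  `ext_ctx` gives `Ctx G σ.1 σ.1 Y W p m` with `W ∪ σ.2 = σ.2`, so `W ⊆ σ.2 ⊆ U`, and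
  `σ.1 ∈ U` (`ext_project`).
-/

set_option autoImplicit false

namespace Pool.Helper49.WR

variable {J V : Type} [DecidableEq J] [AddCommMonoid V] {G : WG J V}

theorem Der.toExt {τ : J} {U : Finset J} {e : V} {n : ℕ} (h : Der G τ U e n) :
    ∃ 𝒰, Der (ext G) (τ, U) 𝒰 e n := by
  induction h with
  | leaf h => exact ⟨_, Der.leaf ⟨rfl, h⟩⟩
  | bin h _ _ ih₁ ih₂ =>
    obtain ⟨𝒰₁, h₁⟩ := ih₁
    obtain ⟨𝒰₂, h₂⟩ := ih₂
    exact ⟨_, Der.bin ⟨rfl, h⟩ h₁ h₂⟩

theorem ext_project {x : J × Finset J} {𝒰 : Finset (J × Finset J)} {e : V} {n : ℕ}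
    (h : Der (ext G) x 𝒰 e n) : Der G x.1 x.2 e n ∧ ∀ y ∈ 𝒰, y.2 ⊆ x.2 ∧ y.1 ∈ x.2 := by
  induction h with
  | leaf h =>
    obtain ⟨h1, h2⟩ := h
    refine ⟨?_, ?_⟩
    · rw [h1]
      exact Der.leaf h2
    · intro y hy
      rw [Finset.mem_singleton] at hy
      subst hy
      refine ⟨Finset.Subset.refl _, ?_⟩
      rw [h1]
      exact Finset.mem_singleton_self _
  | bin h _ _ ih₁ ih₂ =>
    obtain ⟨h1, h2⟩ := h
    obtain ⟨d₁, s₁⟩ := ih₁
    obtain ⟨d₂, s₂⟩ := ih₂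
    refine ⟨?_, ?_⟩
    · rw [h1]
      exact Der.bin h2 d₁ d₂
    · intro y hy
      rw [Finset.mem_insert, Finset.mem_union] at hy
      rcases hy with hy | hy | hy
      · subst hy
        refine ⟨Finset.Subset.refl _, ?_⟩
        rw [h1]
        exact Finset.mem_insert_self _ _
      · obtain ⟨h3, h4⟩ := s₁ y hy
        rw [h1]
        exact ⟨h3.trans ((Finset.subset_union_left).trans (Finset.subset_insert _ _)),
          Finset.mem_insert_of_mem (Finset.mem_union_left _ h4)⟩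
      · obtain ⟨h3, h4⟩ := s₂ y hy
        rw [h1]
        exact ⟨h3.trans ((Finset.subset_union_right).trans (Finset.subset_insert _ _)),
          Finset.mem_insert_of_mem (Finset.mem_union_right _ h4)⟩

theorem ext_ctx {x y : J × Finset J} {𝒴 𝒲 : Finset (J × Finset J)} {p : V} {m : ℕ}
    (h : Ctx (ext G) x y 𝒴 𝒲 p m) : ∃ Y W, Ctx G x.1 y.1 Y W p m ∧ W ∪ y.2 = x.2 := by
  induction h with
  | nil => exact ⟨∅, ∅, Ctx.nil, Finset.empty_union _⟩
  | left h _ h₂ ih =>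
    obtain ⟨h1, h2⟩ := h
    obtain ⟨Y, W, hc, hW⟩ := ih
    have hd := (ext_project h₂).1
    refine ⟨_, _, Ctx.left h2 hc hd, ?_⟩
    rw [h1, ← hW]
    ext j
    simp only [Finset.mem_union, Finset.mem_insert]
    tauto
  | right h h₁ _ ih =>
    obtain ⟨h1, h2⟩ := h
    obtain ⟨Y, W, hc, hW⟩ := ih
    have hd := (ext_project h₁).1
    refine ⟨_, _, Ctx.right h2 hd hc, ?_⟩
    rw [h1, ← hW]
    ext j
    simp only [Finset.mem_union, Finset.mem_insert]
    tauto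

theorem base [Fintype J] (len : V →+ ℕ) (hl : ∀ τ v, G.leaf τ v → len v ≤ 1) {τ : J}
    {U : Finset J} {e : V} {n : ℕ} (h : Der G τ U e n) :
    ∃ b s n', Der G τ U b n' ∧ e = b + s ∧ len b ≤ 2 ^ Fintype.card (J × Finset J) ∧
      s ∈ AddSubmonoid.closure (allLoops G U) := by
  obtain ⟨𝒰, hd⟩ := h.toExt
  obtain ⟨𝒰', b, s, hsub, hirr, he, hs⟩ := irr_decomp hd
  have hb := Irr.bound (G := ext G) len (fun x v hx => hl x.1 v hx.2) hirr
  obtain ⟨n', hd'⟩ := hirr.der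
  refine ⟨b, s, n', (ext_project hd').1, he, hb.trans (Nat.pow_le_pow_right (by norm_num)
    (Finset.card_le_univ _)), ?_⟩
  refine AddSubmonoid.closure_mono ?_ hs
  rintro p ⟨σ, hσ, 𝒴, 𝒲, m, hc, _, _⟩
  obtain ⟨Y, W, hc', hW⟩ := ext_ctx hc
  obtain ⟨h1, h2⟩ := (ext_project hd).2 σ hσ
  refine ⟨σ.1, h2, Y, W, m, hc', ?_⟩
  exact (Finset.union_eq_right.1 hW).trans h1

end Pool.Helper49.WR
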