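import Pool.Agent.Helper49.WR.HardBasic

/-!
# WR-N1: wreath products contain `WTriple`s

* `ev_map`: homomorphisms commute with `ev`.
* `WTriple.map`, `WTriple.of_map`: injective homomorphisms preserve and reflect `WTriple`
  (only `kill`, `alive`, `comm`, `ne` have to be transported: `ev_map`, `map_pow`/`map_zpow`,
  injectivity).
* `wreath_wtriple`: in the unrestricted regular wreath product `A ≀ᵣ B` (Mathlib) with
  `i : Multiplicative (ℤ × ℤ) →* B` injective and `a₀ ∈ A`, `a₀ ≠ 1` put `a = inl (i (1,0))`,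
  `b = inl (i (0,1))`, `c = ⟨Pi.mulSingle 1 a₀, 1⟩`.  By induction on `w`:
  `(ev a b c w).right = i (ofAdd (dsp w))`,
  `(ev a b c w).left (i (ofAdd v)) = a₀ ^ ((cfg w).coeff v)` for all `v`, and
  `(ev a b c w).left q = 1` for `q` not in the range of `i`.
  Here `(a ^ x * b ^ y * c ^ μ).left = mulSingle (i (x, y)) (a₀ ^ μ)`, `.right = i (x, y)` and
  `cfg ((d, μ) :: w) = pt d 1 * (pt 0 μ + cfg w)`, whose coefficient at `v` is
  `(if v = d then μ else 0) + (cfg w).coeff (v - d)`.
  The multiplication in `A ≀ᵣ B`: `(g * h).left x = g.left x * h.left (g.right⁻¹ * x)`.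
  `kill`: configuration and displacement zero give left = 1, right = 1.
  `alive`: `ev = 1` gives `a₀ ^ coeff = 1`, so `c ^ coeff = ⟨mulSingle 1 (a₀ ^ coeff), 1⟩ = 1`.
* `restricted`: the restricted wreath product, elements of `A ≀ᵣ B` with finite support
  (`Function.mulSupport`).  Multiplication: the support of `g * h` is in the union of the support of
  `g.left` and a translate of the support of `h.left`.
* `exists_wtriple_restricted`: the three elements above lie in it (`WTriple.of_map` for the
  inclusion).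
-/

set_option autoImplicit false

namespace Pool.Helper49.WR

theorem ev_map {G H : Type} [Group G] [Group H] (φ : G →* H) (a b c : G) (w : List (D × ℤ)) :
    φ (ev a b c w) = ev (φ a) (φ b) (φ c) w := by
  unfold ev
  rw [map_list_prod, List.map_map]
  congr 1
  refine List.map_congr_left fun x _ => ?_
  simp only [Function.comp_apply, map_mul, map_zpow]

theorem WTriple.map {G H : Type} [Group G] [Group H] (φ : G →* H) (hφ : Function.Injective φ)
    {a b c : G} (h : WTriple a b c) : WTriple (φ a) (φ b) (φ c) := by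
  refine ⟨?_, ?_, ?_, ?_⟩
  · rw [← map_mul, h.comm, map_mul]
  · intro hc
    exact h.ne (hφ (by rw [hc, map_one]))
  · intro w h1 h2
    rw [← ev_map, h.kill w h1 h2, map_one]
  · intro w h1 x
    rw [← ev_map] at h1
    have h2 : ev a b c w = 1 := hφ (by rw [h1, map_one])
    rw [← map_zpow, h.alive w h2 x, map_one]

theorem WTriple.of_map {G H : Type} [Group G] [Group H] (φ : G →* H)
    (hφ : Function.Injective φ) {a b c : G} (h : WTriple (φ a) (φ b) (φ c)) : WTriple a b c := by
  refine ⟨?_, ?_, ?_, ?_⟩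
  · exact hφ (by rw [map_mul, map_mul, h.comm])
  · intro hc
    exact h.ne (by rw [hc, map_one])
  · intro w h1 h2
    exact hφ (by rw [ev_map, h.kill w h1 h2, map_one])
  · intro w h1 x
    refine hφ ?_
    rw [map_zpow, map_one]
    exact h.alive w (by rw [← ev_map, h1, map_one]) x

/-- the embedding of `A` at the place `1` -/
private def cHom88 (A B : Type) [Group A] [Group B] [DecidableEq B] : A →* A ≀ᵣ B where
  toFun a := ⟨Pi.mulSingle 1 a, 1⟩
  map_one' := by
    ext x
    · simp
    · rfl
  map_mul' a a' := by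
    ext x
    · simp [Pi.mulSingle_mul]
    · simp

private theorem head88 {A B : Type} [Group A] [Group B] [DecidableEq B] (a₀ : A)
    (i : Multiplicative (ℤ × ℤ) →* B) (d : D) (μ : ℤ) :
    (RegularWreathProduct.inl (i (Multiplicative.ofAdd (1, 0))) : A ≀ᵣ B) ^ d.1 *
      (RegularWreathProduct.inl (i (Multiplicative.ofAdd (0, 1))) : A ≀ᵣ B) ^ d.2 *
      (⟨Pi.mulSingle 1 a₀, 1⟩ : A ≀ᵣ B) ^ μ =
      ⟨fun x => (Pi.mulSingle 1 (a₀ ^ μ) : B → A) ((i (Multiplicative.ofAdd d))⁻¹ * x),
        i (Multiplicative.ofAdd d)⟩ := by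
  have h1 : (⟨Pi.mulSingle 1 a₀, 1⟩ : A ≀ᵣ B) ^ μ = ⟨Pi.mulSingle 1 (a₀ ^ μ), 1⟩ := by
    have := map_zpow (cHom88 A B) a₀ μ
    exact this.symm
  have h2 : (RegularWreathProduct.inl (i (Multiplicative.ofAdd (1, 0))) : A ≀ᵣ B) ^ d.1 *
      (RegularWreathProduct.inl (i (Multiplicative.ofAdd (0, 1))) : A ≀ᵣ B) ^ d.2 =
      RegularWreathProduct.inl (i (Multiplicative.ofAdd d)) := by
    have e1 : (Multiplicative.ofAdd ((1, 0) : ℤ × ℤ)) ^ d.1 *
        (Multiplicative.ofAdd ((0, 1) : ℤ × ℤ)) ^ d.2 = Multiplicative.ofAdd d := by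
      rw [← ofAdd_zsmul, ← ofAdd_zsmul, ← ofAdd_add]
      congr 1
      ext <;> simp
    rw [← e1, map_mul, map_mul, map_zpow, map_zpow, map_zpow, map_zpow]
  rw [h1, h2]
  ext x
  · simp
  · simp

private theorem ev_cons88 {G : Type} [Group G] (a b c : G) (d : D) (μ : ℤ) (w : List (D × ℤ)) :
    ev a b c ((d, μ) :: w) = a ^ d.1 * b ^ d.2 * c ^ μ * ev a b c w := by
  unfold ev
  rw [List.map_cons, List.prod_cons]

private theorem coeff_cons88 (d : D) (μ : ℤ) (w : List (D × ℤ)) (v : D) :
    (cfg ((d, μ) :: w)).coeff v = (if -d + v = 0 then μ else 0) + (cfg w).coeff (-d + v) := by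
  classical
  show (pt d 1 * (pt 0 μ + cfg w)).coeff v = _
  unfold pt
  rw [AddMonoidAlgebra.coeff_single_mul_apply, one_mul, AddMonoidAlgebra.coeff_add,
    Finsupp.add_apply, AddMonoidAlgebra.coeff_single, Finsupp.single_apply]
  congr 1
  by_cases h : -d + v = 0
  · rw [if_pos h, if_pos h.symm]
  · rw [if_neg h, if_neg fun hh => h hh.symm]

private theorem wr_main88 {A B : Type} [Group A] [Group B] [DecidableEq B] (a₀ : A)
    (i : Multiplicative (ℤ × ℤ) →* B) (hi : Function.Injective i) (w : List (D × ℤ)) :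
    (ev (G := A ≀ᵣ B) (RegularWreathProduct.inl (i (Multiplicative.ofAdd (1, 0))))
      (RegularWreathProduct.inl (i (Multiplicative.ofAdd (0, 1))))
      ⟨Pi.mulSingle 1 a₀, 1⟩ w).right = i (Multiplicative.ofAdd (dsp w)) ∧
    (∀ v : D, (ev (G := A ≀ᵣ B) (RegularWreathProduct.inl (i (Multiplicative.ofAdd (1, 0))))
      (RegularWreathProduct.inl (i (Multiplicative.ofAdd (0, 1))))
      ⟨Pi.mulSingle 1 a₀, 1⟩ w).left (i (Multiplicative.ofAdd v)) = a₀ ^ ((cfg w).coeff v)) ∧
    (∀ q : B, q ∉ Set.range i →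
      (ev (G := A ≀ᵣ B) (RegularWreathProduct.inl (i (Multiplicative.ofAdd (1, 0))))
      (RegularWreathProduct.inl (i (Multiplicative.ofAdd (0, 1))))
      ⟨Pi.mulSingle 1 a₀, 1⟩ w).left q = 1) := by
  induction w with
  | nil =>
    refine ⟨?_, ?_, ?_⟩
    · simp [ev, dsp]
    · intro v
      simp [ev, cfg]
    · intro q _
      simp [ev]
  | cons x w ih =>
    obtain ⟨d, μ⟩ := x
    obtain ⟨ih1, ih2, ih3⟩ := ih
    rw [ev_cons88, head88]
    set E := ev (G := A ≀ᵣ B) (RegularWreathProduct.inl (i (Multiplicative.ofAdd (1, 0))))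
      (RegularWreathProduct.inl (i (Multiplicative.ofAdd (0, 1))))
      ⟨Pi.mulSingle 1 a₀, 1⟩ w with hE
    refine ⟨?_, ?_, ?_⟩
    · rw [RegularWreathProduct.mul_right, ih1, dsp, ofAdd_add, map_mul]
    · intro v
      rw [RegularWreathProduct.mul_left, Pi.mul_apply]
      have h1 : (i (Multiplicative.ofAdd d))⁻¹ * i (Multiplicative.ofAdd v) =
          i (Multiplicative.ofAdd (-d + v)) := by
        rw [← map_inv, ← map_mul, ofAdd_add, ofAdd_neg]
      dsimp only
      rw [h1, ih2, coeff_cons88, zpow_add]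
      congr 1
      by_cases h2 : -d + v = 0
      · rw [if_pos h2, h2, ofAdd_zero, map_one, Pi.mulSingle_eq_same]
      · rw [if_neg h2, zpow_zero]
        have h3 : i (Multiplicative.ofAdd (-d + v)) ≠ 1 := by
          intro h4
          apply h2
          have h5 : Multiplicative.ofAdd (-d + v) = 1 := hi (by rw [h4, map_one])
          exact h5
        rw [Pi.mulSingle_eq_of_ne h3]
    · intro q hq
      rw [RegularWreathProduct.mul_left, Pi.mul_apply]
      dsimp only
      have h1 : (i (Multiplicative.ofAdd d))⁻¹ * q ∉ Set.range i := by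
        rintro ⟨y, hy⟩
        apply hq
        refine ⟨Multiplicative.ofAdd d * y, ?_⟩
        rw [map_mul, hy, mul_inv_cancel_left]
      have h2 : (i (Multiplicative.ofAdd d))⁻¹ * q ≠ 1 := by
        intro h3
        exact h1 ⟨1, by rw [map_one, h3]⟩
      rw [ih3 _ h1, Pi.mulSingle_eq_of_ne h2, one_mul]

theorem wreath_wtriple {A B : Type} [Group A] [Group B] [DecidableEq B] (a₀ : A) (ha : a₀ ≠ 1)
    (i : Multiplicative (ℤ × ℤ) →* B) (hi : Function.Injective i) :
    WTriple (G := A ≀ᵣ B) (RegularWreathProduct.inl (i (Multiplicative.ofAdd (1, 0))))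
      (RegularWreathProduct.inl (i (Multiplicative.ofAdd (0, 1))))
      ⟨Pi.mulSingle 1 a₀, 1⟩ := by
  refine ⟨?_, ?_, ?_, ?_⟩
  · have h0 : ∀ u v : Multiplicative (ℤ × ℤ), (RegularWreathProduct.inl (i u) : A ≀ᵣ B) *
        RegularWreathProduct.inl (i v) = RegularWreathProduct.inl (i (u * v)) := by
      intro u v
      rw [map_mul, map_mul]
    rw [h0, h0, mul_comm]
  · intro h
    apply ha
    have h1 := congrArg (fun g : A ≀ᵣ B => g.left 1) h
    simpa using h1
  · intro w h1 h2
    obtain ⟨k1, k2, k3⟩ := wr_main88 a₀ i hi w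
    ext x
    · rw [RegularWreathProduct.one_left, Pi.one_apply]
      by_cases hx : x ∈ Set.range i
      · obtain ⟨y, rfl⟩ := hx
        have := k2 (Multiplicative.toAdd y)
        rw [ofAdd_toAdd] at this
        rw [this, h1]
        simp
      · exact k3 x hx
    · rw [k1, h2, ofAdd_zero, map_one]
      rfl
  · intro w h1 x
    obtain ⟨k1, k2, k3⟩ := wr_main88 a₀ i hi w
    have h2 := k2 x
    rw [h1] at h2
    have h3 : a₀ ^ ((cfg w).coeff x) = 1 := by
      rw [← h2]
      rfl
    have h4 := map_zpow (cHom88 A B) a₀ ((cfg w).coeff x)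
    rw [h3, map_one] at h4
    exact h4.symm

/-- The restricted (regular) wreath product: the elements of finite support. -/
def restricted (A B : Type) [Group A] [Group B] : Subgroup (A ≀ᵣ B) where
  carrier := {x | (Function.mulSupport x.left).Finite}
  mul_mem' := by
    intro x y hx hy
    change (Function.mulSupport x.left).Finite at hx
    change (Function.mulSupport y.left).Finite at hy
    change (Function.mulSupport (x * y).left).Finite
    rw [RegularWreathProduct.mul_left]
    refine (hx.union ?_).subset (Function.mulSupport_mul _ _)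
    have h1 : Function.mulSupport (fun k => y.left (x.right⁻¹ * k)) =
        (fun k => x.right⁻¹ * k) ⁻¹' Function.mulSupport y.left := rfl
    rw [h1]
    exact hy.preimage (mul_right_injective _).injOn
  one_mem' := by
    change (Function.mulSupport (1 : A ≀ᵣ B).left).Finite
    rw [RegularWreathProduct.one_left, Function.mulSupport_one]
    exact Set.finite_empty
  inv_mem' := by
    intro x hx
    change (Function.mulSupport x.left).Finite at hx
    change (Function.mulSupport (x⁻¹).left).Finite
    rw [RegularWreathProduct.inv_left]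
    have h1 : Function.mulSupport (fun k => x.left⁻¹ (x.right * k)) =
        (fun k => x.right * k) ⁻¹' Function.mulSupport (x.left⁻¹) := rfl
    rw [h1, Function.mulSupport_inv]
    exact hx.preimage (mul_right_injective _).injOn

theorem exists_wtriple_restricted (A B : Type) [Group A] [Group B] (hA : Nontrivial A)
    (i : Multiplicative (ℤ × ℤ) →* B) (hi : Function.Injective i) :
    ∃ a b c : restricted A B, WTriple a b c := by
  classical
  obtain ⟨a₀, ha⟩ := exists_ne (1 : A)
  have hinl : ∀ q : B, (RegularWreathProduct.inl q : A ≀ᵣ B) ∈ restricted A B := by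
    intro q
    show (Function.mulSupport (RegularWreathProduct.inl q : A ≀ᵣ B).left).Finite
    rw [RegularWreathProduct.left_inl, Function.mulSupport_one]
    exact Set.finite_empty
  have hc : (⟨Pi.mulSingle 1 a₀, 1⟩ : A ≀ᵣ B) ∈ restricted A B := by
    show (Function.mulSupport (Pi.mulSingle 1 a₀ : B → A)).Finite
    refine (Set.finite_singleton (1 : B)).subset ?_
    intro x hx
    by_contra h
    have h1 : x ≠ 1 := fun h2 => h (by rw [h2]; exact Set.mem_singleton 1)
    have h3 : (Pi.mulSingle 1 a₀ : B → A) x = 1 := by rw [Pi.mulSingle_eq_of_ne h1]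
    exact hx h3
  refine ⟨⟨_, hinl (i (Multiplicative.ofAdd (1, 0)))⟩, ⟨_, hinl (i (Multiplicative.ofAdd (0, 1)))⟩,
    ⟨_, hc⟩, ?_⟩
  exact WTriple.of_map (restricted A B).subtype (restricted A B).subtype_injective
    (wreath_wtriple a₀ ha i hi)

end Pool.Helper49.WR
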