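import Pool.Agent.Helper49.WR.HardBasic

/-!
# WR-M4: the product of the `1 - z_v^T` is not zero modulo any prime

Map `ℤ[ℤ²]` to `𝔽_p[ℤ²]` (`AddMonoidAlgebra.mapRingHom` / `AddMonoidAlgebra.mapRangeRingHom` with
`Int.castRingHom (ZMod p)`), which is a domain (`AddMonoidAlgebra` over a domain with exponents in
`ℤ × ℤ`: instance from `TwoUniqueSums`/`UniqueSums`, `NoZeroDivisors`).  Every factor
`1 - pt (T v) 1` with `T ≥ 1`, `v ≠ 0` has nonzero image (its coefficient at `0` is `1`, since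
`T v ≠ 0`), so the product has nonzero image (`Finset.prod_ne_zero_iff`), so one of its
coefficients is not divisible by `p` (`ZMod.intCast_zmod_eq_zero_iff_dvd` /
`ZMod.intCast_eq_zero_iff_dvd`...).
-/

set_option autoImplicit false

namespace Pool.Helper49.WR

theorem nonvanish (𝒱 : Finset D) (h0 : (0 : D) ∉ 𝒱) (T : ℕ) (hT : 1 ≤ T) (p : ℕ)
    (hp : p.Prime) :
    ∃ x, ¬ (p : ℤ) ∣ (∏ v ∈ 𝒱, (1 - pt ((T : ℤ) • v) 1 : R)).coeff x := by
  classical
  have : Fact p.Prime := ⟨hp⟩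
  by_contra hcon
  push Not at hcon
  let φ : R →+* AddMonoidAlgebra (ZMod p) D :=
    AddMonoidAlgebra.mapRingHom D (Int.castRingHom (ZMod p))
  have h1 : φ (∏ v ∈ 𝒱, (1 - pt ((T : ℤ) • v) 1 : R)) = 0 := by
    ext x
    have h2 := AddMonoidAlgebra.coeff_mapRingHom (Int.castRingHom (ZMod p))
      (∏ v ∈ 𝒱, (1 - pt ((T : ℤ) • v) 1 : R)) x
    refine h2.trans ?_
    have h3 := (ZMod.intCast_zmod_eq_zero_iff_dvd
      ((∏ v ∈ 𝒱, (1 - pt ((T : ℤ) • v) 1 : R)).coeff x) p).2 (hcon x)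
    simpa using h3
  rw [map_prod, Finset.prod_eq_zero_iff] at h1
  obtain ⟨v, hv, h2⟩ := h1
  have hv0 : ((T : ℤ) • v) ≠ 0 := by
    intro h
    rcases smul_eq_zero.1 h with h | h
    · have : T = 0 := by exact_mod_cast h
      omega
    · rw [h] at hv
      exact h0 hv
  have h3 := AddMonoidAlgebra.coeff_mapRingHom (Int.castRingHom (ZMod p))
    (1 - pt ((T : ℤ) • v) 1 : R) 0
  have h4 : (AddMonoidAlgebra.mapRingHom D (Int.castRingHom (ZMod p))
    (1 - pt ((T : ℤ) • v) 1 : R)).coeff 0 = 0 := by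
    change (φ (1 - pt ((T : ℤ) • v) 1)).coeff 0 = 0
    rw [h2]
    simp
  rw [h4] at h3
  have h5 : (1 - pt ((T : ℤ) • v) 1 : R).coeff 0 = 1 := by
    unfold pt
    rw [AddMonoidAlgebra.coeff_sub, AddMonoidAlgebra.one_def]
    generalize (T : ℤ) • v = x at hv0
    simp [hv0]
  rw [h5] at h3
  simp at h3

end Pool.Helper49.WR
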