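import Mathlib

/-!
# WR-M3: the popular colour

Colour the points of the grid `(Fin (k+1) × Fin (k+1))^ι` by `ι`, `|ι| ≤ k`.  Then there is a colour
`v` such that two points of colour `v` differ only in the first entry of the coordinate `v`, and two
points of colour `v` differ only in the second entry of the coordinate `v`.

Proof.  Let `X` be the grid, `n = k + 1`.  Suppose that for every `v` one of the two pairs does not
exist.  Then the colour class `X_v` has at most `|X| / n` elements: if there is no pair of the first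
kind then the map that replaces `(x v).1` by `0` is injective on `X_v`, with values in
`{x | (x v).1 = 0}`, and `n * |{x | (x v).1 = 0}| = |X|` (the map
`(x, c) ↦ x with (x v).1 replaced by c` is a bijection from `{x | (x v).1 = 0} × Fin n` to `X`);
similarly for the second kind.  So `n |X| = n ∑_v |X_v| ≤ |ι| |X| ≤ k |X| < n |X|`.
(Order of the two points of a pair: `<` by trichotomy; swap them if necessary.)
-/

set_option autoImplicit false

namespace Pool.Helper49.WR

private theorem fib1 {ι : Type} [Fintype ι] [DecidableEq ι] (k : ℕ)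
    (χ : (ι → Fin (k + 1) × Fin (k + 1)) → ι) (v : ι)
    (h : ∀ x x', χ x = v → χ x' = v → (∀ u, u ≠ v → x u = x' u) → (x v).2 = (x' v).2 →
      ¬ (x v).1 < (x' v).1) :
    (Finset.univ.filter fun x => χ x = v).card * (k + 1) ≤
      Fintype.card (ι → Fin (k + 1) × Fin (k + 1)) := by
  have h1 : ((Finset.univ.filter fun x => χ x = v) ×ˢ (Finset.univ : Finset (Fin (k + 1)))).card ≤
      (Finset.univ : Finset (ι → Fin (k + 1) × Fin (k + 1))).card := by
    apply Finset.card_le_card_of_injOn
      (fun p : (ι → Fin (k + 1) × Fin (k + 1)) × Fin (k + 1) =>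
        Function.update p.1 v (p.2, (p.1 v).2)) (fun _ _ => Finset.mem_univ _)
    rintro ⟨x, c⟩ hx ⟨y, c'⟩ hy e
    simp only [Finset.coe_product, Finset.coe_filter, Finset.mem_univ, true_and, Finset.coe_univ,
      Set.mem_prod, Set.mem_setOf_eq, Set.mem_univ, and_true] at hx hy
    have e1 : (c, (x v).2) = (c', (y v).2) := by
      have := congrFun e v
      simpa using this
    have e2 : ∀ u, u ≠ v → x u = y u := by
      intro u hu
      have := congrFun e u
      simpa [hu] using this
    have e3 : c = c' := (Prod.ext_iff.1 e1).1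
    have e4 : (x v).2 = (y v).2 := (Prod.ext_iff.1 e1).2
    have e5 : (x v).1 = (y v).1 := by
      rcases lt_trichotomy (x v).1 (y v).1 with h2 | h2 | h2
      · exact absurd h2 (h x y hx hy e2 e4)
      · exact h2
      · exact absurd h2 (h y x hy hx (fun u hu => (e2 u hu).symm) e4.symm)
    have e6 : x = y := by
      funext u
      by_cases hu : u = v
      · subst hu
        exact Prod.ext e5 e4
      · exact e2 u hu
    rw [e6, e3]
  rw [Finset.card_product, Finset.card_univ, Fintype.card_fin, Finset.card_univ] at h1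
  exact h1

private theorem fib2 {ι : Type} [Fintype ι] [DecidableEq ι] (k : ℕ)
    (χ : (ι → Fin (k + 1) × Fin (k + 1)) → ι) (v : ι)
    (h : ∀ x x', χ x = v → χ x' = v → (∀ u, u ≠ v → x u = x' u) → (x v).1 = (x' v).1 →
      ¬ (x v).2 < (x' v).2) :
    (Finset.univ.filter fun x => χ x = v).card * (k + 1) ≤
      Fintype.card (ι → Fin (k + 1) × Fin (k + 1)) := by
  have h1 : ((Finset.univ.filter fun x => χ x = v) ×ˢ (Finset.univ : Finset (Fin (k + 1)))).card ≤
      (Finset.univ : Finset (ι → Fin (k + 1) × Fin (k + 1))).card := by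
    apply Finset.card_le_card_of_injOn
      (fun p : (ι → Fin (k + 1) × Fin (k + 1)) × Fin (k + 1) =>
        Function.update p.1 v ((p.1 v).1, p.2)) (fun _ _ => Finset.mem_univ _)
    rintro ⟨x, c⟩ hx ⟨y, c'⟩ hy e
    simp only [Finset.coe_product, Finset.coe_filter, Finset.mem_univ, true_and, Finset.coe_univ,
      Set.mem_prod, Set.mem_setOf_eq, Set.mem_univ, and_true] at hx hy
    have e1 : ((x v).1, c) = ((y v).1, c') := by
      have := congrFun e v
      simpa using this
    have e2 : ∀ u, u ≠ v → x u = y u := by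
      intro u hu
      have := congrFun e u
      simpa [hu] using this
    have e3 : c = c' := (Prod.ext_iff.1 e1).2
    have e4 : (x v).1 = (y v).1 := (Prod.ext_iff.1 e1).1
    have e5 : (x v).2 = (y v).2 := by
      rcases lt_trichotomy (x v).2 (y v).2 with h2 | h2 | h2
      · exact absurd h2 (h x y hx hy e2 e4)
      · exact h2
      · exact absurd h2 (h y x hy hx (fun u hu => (e2 u hu).symm) e4.symm)
    have e6 : x = y := by
      funext u
      by_cases hu : u = v
      · subst hu
        exact Prod.ext e4 e5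
      · exact e2 u hu
    rw [e6, e3]
  rw [Finset.card_product, Finset.card_univ, Fintype.card_fin, Finset.card_univ] at h1
  exact h1

theorem popular {ι : Type} [Fintype ι] [DecidableEq ι] (k : ℕ) (hk : Fintype.card ι ≤ k)
    (χ : (ι → Fin (k + 1) × Fin (k + 1)) → ι) :
    ∃ v x₁ x₁' x₂ x₂', χ x₁ = v ∧ χ x₁' = v ∧ χ x₂ = v ∧ χ x₂' = v ∧
      (∀ u, u ≠ v → x₁ u = x₁' u) ∧ (x₁ v).2 = (x₁' v).2 ∧ (x₁ v).1 < (x₁' v).1 ∧
      (∀ u, u ≠ v → x₂ u = x₂' u) ∧ (x₂ v).1 = (x₂' v).1 ∧ (x₂ v).2 < (x₂' v).2 := by
  by_contra hcon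
  have key : ∀ v : ι, (Finset.univ.filter fun x => χ x = v).card * (k + 1) ≤
      Fintype.card (ι → Fin (k + 1) × Fin (k + 1)) := by
    intro v
    by_cases h1 : ∀ x x', χ x = v → χ x' = v → (∀ u, u ≠ v → x u = x' u) → (x v).2 = (x' v).2 →
      ¬ (x v).1 < (x' v).1
    · exact fib1 k χ v h1
    · apply fib2 k χ v
      intro y y' k1 k2 k3 k4 k5
      push Not at h1
      obtain ⟨x, x', l1, l2, l3, l4, l5⟩ := h1
      exact hcon ⟨v, x, x', y, y', l1, l2, k1, k2, l3, l4, l5, k3, k4, k5⟩
  have hsum : Fintype.card (ι → Fin (k + 1) × Fin (k + 1)) =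
      ∑ v : ι, (Finset.univ.filter fun x => χ x = v).card := by
    rw [← Finset.card_univ]
    exact Finset.card_eq_sum_card_fiberwise fun _ _ => Finset.mem_univ _
  have hpos : 0 < Fintype.card (ι → Fin (k + 1) × Fin (k + 1)) := Fintype.card_pos
  have h2 : Fintype.card (ι → Fin (k + 1) × Fin (k + 1)) * (k + 1) ≤
      k * Fintype.card (ι → Fin (k + 1) × Fin (k + 1)) := by
    nth_rewrite 1 [hsum]
    rw [Finset.sum_mul]
    calc _ ≤ ∑ _v : ι, Fintype.card (ι → Fin (k + 1) × Fin (k + 1)) :=
          Finset.sum_le_sum fun v _ => key v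
      _ = Fintype.card ι * Fintype.card (ι → Fin (k + 1) × Fin (k + 1)) := by
          rw [Finset.sum_const, Finset.card_univ, smul_eq_mul]
      _ ≤ _ := Nat.mul_le_mul_right _ hk
  nlinarith

end Pool.Helper49.WR
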