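import Pool.Agent.Helper49.WR.HardBasic

/-!
# WR-M2: the identity

With `z = pt v 1`, `z^t = pt (t v) 1` (`t ∈ ℤ`), `T = q m' d`:
`z^T - 1 = (z^d - 1) ∑_{l < q m'} z^{l d} = q m' (z^d - 1) + ∑_{l < q m'} (z^{l d} - 1)(z^d - 1)` and
`(z^{l d} - 1)(z^d - 1) = (z^{l d - i} - 1)(z^{i+d} - z^i) + (z^{-i} - 1)(z^i - z^{i+d})`.
(Geometric sum by induction on the number of terms, `pt_mul`, `ring`.)
-/

set_option autoImplicit false

namespace Pool.Helper49.WR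

theorem telescope (v : D) (m' d i q : ℕ) :
    pt (((q * m' * d : ℕ) : ℤ) • v) 1 - 1 =
      (q : R) * ((pt ((d : ℤ) • v) 1 - 1) * (m' : R)) +
      ∑ l ∈ Finset.range (q * m'),
        ((pt (((l * d : ℕ) : ℤ) • v - (i : ℤ) • v) 1 - 1) *
            (pt (((i + d : ℕ) : ℤ) • v) 1 - pt ((i : ℤ) • v) 1) +
          (pt (-(i : ℤ) • v) 1 - 1) *
            (pt ((i : ℤ) • v) 1 - pt (((i + d : ℕ) : ℤ) • v) 1)) := by
  have hmul : ∀ s t : ℤ, pt (s • v) 1 * pt (t • v) 1 = pt ((s + t) • v) 1 := by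
    intro s t
    rw [pt_mul, mul_one, add_smul]
  have hzero : pt ((0 : ℤ) • v) 1 = 1 := by
    rw [zero_smul]
    exact pt_zero_one
  have hterm : ∀ l : ℕ,
      (pt (((l * d : ℕ) : ℤ) • v - (i : ℤ) • v) 1 - 1) *
            (pt (((i + d : ℕ) : ℤ) • v) 1 - pt ((i : ℤ) • v) 1) +
          (pt (-(i : ℤ) • v) 1 - 1) *
            (pt ((i : ℤ) • v) 1 - pt (((i + d : ℕ) : ℤ) • v) 1) =
        (pt ((((l + 1) * d : ℕ) : ℤ) • v) 1 - pt (((l * d : ℕ) : ℤ) • v) 1) +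
          (1 - pt ((d : ℤ) • v) 1) := by
    intro l
    rw [← sub_smul]
    have h1 := hmul (((l * d : ℕ) : ℤ) - (i : ℤ)) ((i + d : ℕ) : ℤ)
    have h2 := hmul (((l * d : ℕ) : ℤ) - (i : ℤ)) (i : ℤ)
    have h3 := hmul (-(i : ℤ)) (i : ℤ)
    have h4 := hmul (-(i : ℤ)) ((i + d : ℕ) : ℤ)
    rw [show ((l * d : ℕ) : ℤ) - (i : ℤ) + ((i + d : ℕ) : ℤ) = (((l + 1) * d : ℕ) : ℤ) by
      push_cast; ring] at h1
    rw [sub_add_cancel] at h2
    rw [neg_add_cancel, hzero] at h3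
    rw [show -(i : ℤ) + ((i + d : ℕ) : ℤ) = (d : ℤ) by push_cast; ring] at h4
    linear_combination h1 - h2 + h3 - h4
  rw [Finset.sum_congr rfl fun l _ => hterm l, Finset.sum_add_distrib,
    Finset.sum_range_sub fun l : ℕ => pt (((l * d : ℕ) : ℤ) • v) 1, Finset.sum_const,
    Finset.card_range, nsmul_eq_mul, zero_mul, Nat.cast_zero, hzero]
  push_cast
  ring

end Pool.Helper49.WR
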