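import Pool.Agent.Helper49.WR.UnitWord
import Pool.Agent.Helper49.WR.Telescope
import Pool.Agent.Helper49.WR.Popular
import Pool.Agent.Helper49.WR.Nonvanish

/-!
# WR-M5: hard words

`hard₀`.  If `𝒱 = ∅` take `w = [(0, 1)]`: a colouring of it has an entry with a colour in `∅`; its
configuration is `1`, whose coefficient at `0` is `1`.

Let `𝒱 ≠ ∅`, `k = |𝒱|`, `T = (k!)^2`, `z_v^t = pt (t v) 1`, `F = ∏_{u ∈ 𝒱} (1 - z_u^T)`,
`F_v = ∏_{u ∈ 𝒱, u ≠ v} (1 - z_u^T)`, so `F = (1 - z_v^T) F_v`.  Let `ι = {v // v ∈ 𝒱}`,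
`X = ι → Fin (k+1) × Fin (k+1)`, `A x = ∑_{v ∈ ι} ((x v).1 + z_v^{(x v).2}) F_v`.
Let `u` be the unit word of `𝒱`, `A` (`unit_word`), `L = 3 T`, `N = |𝒱|^|X| * L`, and let
`w = u^N ++ U_F` where `cfg U_F = F`, `dsp U_F = 0` (`exists_word`).  So `cfg w = F`, which has
a coefficient not divisible by `p`, for every prime `p` (`nonvanish`).

Let `cw` be a colouring of `w`: it is a concatenation of colourings `cu_1, …, cu_N` of `u` and a
colouring of `U_F`.  For `cu_j` we get `χ_j : X → 𝒱` from `unit_word`.  Some `χ₀` occurs for at least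
`L` indices `j` (pigeonhole, `Fintype.exists_le_card_fiber_of_mul_le_card` or similar).  Apply
`popular` to `χ₀` (as a map to `ι`, `Fintype.card ι = k`): there are `v` and `x₁, x₁', x₂, x₂'` of
colour `v`, with
`A x₁' - A x₁ = m' F_v`, `1 ≤ m' ≤ k` and `A x₂' - A x₂ = (z_v^{i+d} - z_v^i) F_v`, `1 ≤ d ≤ k`.
As `m' d` divides `T = (k!)^2`, write `T = q m' d`.  By `telescope`, times `F_v`,
`(z_v^T - 1) F_v` is a sum of `q + 2 q m' ≤ 3 T` terms of the form `(z_v^t - 1) (A y' - A y)` with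
`(y, y')` one of `(x₁, x₁')`, `(x₂, x₂')`, `(x₂', x₂)`.  Modify one of the good `cu_j` for each term
(by `unit_word`, shift `0`), and nothing else (`Mod.zero`, `cfg u = 0`); take for `B` the maximum of
the bounds (`Mod.mono`); by `Mod.append` (all displacements are `0`, `pt_zero_one`) the result is the
sum `(z_v^T - 1) F_v + F = 0`.
(Suggestion: prove by induction on `N` a lemma: if `cu_1, …, cu_N` are coloured words with
`cfg (uncol cu_j) = 0`, `dsp (uncol cu_j) = 0`, and `Mod B cu_j (f_j) 0` for `j` in a set `S`, then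
`Mod B (cu_1 ++ ⋯ ++ cu_N) (∑_{j ∈ S} f_j) 0`.  List the terms as a function on `Fin L'`, `L' ≤ L`,
and inject `Fin L'` into the fibre of `χ₀`.)

`hard`.  Let `w` be as in `hard₀` and close it: `w' = w ++ [(- dsp w, 0)]`.  Then `dsp w' = 0`,
`cfg w' = cfg w`; a colouring of `w'` is a colouring `cw` of `w` and one more entry
`(- dsp w, 0, χ)`, which is modified with `t = 0`.  The bound is made uniform by `Mod.finite`.
-/

set_option autoImplicit false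

namespace Pool.Helper49.WR

private theorem multi (good : List (D × ℤ × D) → Prop) [DecidablePred good] (cs : List (List (D × ℤ × D))) :
    ∀ ts : List R, (∀ c ∈ cs, dsp (uncol c) = 0 ∧ cfg (uncol c) = 0) →
      (∀ f ∈ ts, ∀ c ∈ cs, good c → ∃ B : ℤ, 0 ≤ B ∧ Mod B c f 0) →
      ts.length ≤ cs.countP (fun c => decide (good c)) →
      ∃ B : ℤ, 0 ≤ B ∧ Mod B cs.flatten ts.sum 0 := by
  induction cs with
  | nil =>
    intro ts _ _ h
    have : ts = [] := by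
      rw [List.countP_nil] at h
      exact List.length_eq_zero_iff.1 (Nat.le_zero.1 h)
    subst this
    exact ⟨0, le_rfl, by simpa using Mod.nil⟩
  | cons c cs ih =>
    intro ts hc hts hlen
    have hc0 := hc c (by simp)
    have hcs : ∀ c ∈ cs, dsp (uncol c) = 0 ∧ cfg (uncol c) = 0 := fun c h => hc c (by simp [h])
    have key : ∀ (B₁ B₂ : ℤ) (f₁ f₂ : R), 0 ≤ B₁ → 0 ≤ B₂ → Mod B₁ c f₁ 0 → Mod B₂ cs.flatten f₂ 0 →
        ∃ B : ℤ, 0 ≤ B ∧ Mod B (c :: cs).flatten (f₁ + f₂) 0 := by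
      intro B₁ B₂ f₁ f₂ h1 h2 m1 m2
      refine ⟨max B₁ B₂, le_trans h1 (le_max_left _ _), ?_⟩
      have m := Mod.append (m1.mono (le_max_left B₁ B₂)) (m2.mono (le_max_right B₁ B₂))
      rw [hc0.1, add_zero, pt_zero_one, one_mul] at m
      rw [List.flatten_cons]
      exact m
    by_cases hg : good c
    · rw [List.countP_cons_of_pos (by simpa using hg)] at hlen
      cases ts with
      | nil =>
        obtain ⟨B, hB, m⟩ := ih [] hcs (by simp) (by simp)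
        obtain ⟨B', hB', m'⟩ := key 0 B 0 _ le_rfl hB
          (by have := Mod.zero (le_refl (0 : ℤ)) c; rwa [hc0.2] at this) m
        exact ⟨B', hB', by simpa using m'⟩
      | cons f ts =>
        obtain ⟨B₁, h1, m1⟩ := hts f (by simp) c (by simp) hg
        obtain ⟨B₂, h2, m2⟩ := ih ts hcs (fun f hf c hc => hts f (by simp [hf]) c (by simp [hc]))
          (by simpa using hlen)
        obtain ⟨B', hB', m'⟩ := key B₁ B₂ _ _ h1 h2 m1 m2
        exact ⟨B', hB', by rw [List.sum_cons]; exact m'⟩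
    · rw [List.countP_cons_of_neg (by simpa using hg)] at hlen
      obtain ⟨B, hB, m⟩ := ih ts hcs (fun f hf c hc => hts f hf c (by simp [hc])) hlen
      obtain ⟨B', hB', m'⟩ := key 0 B 0 _ le_rfl hB
        (by have := Mod.zero (le_refl (0 : ℤ)) c; rwa [hc0.2] at this) m
      exact ⟨B', hB', by rw [zero_add] at m'; exact m'⟩

private theorem split_rep (u : List (D × ℤ)) : ∀ (N : ℕ) (cw : List (D × ℤ × D)),
    uncol cw = (List.replicate N u).flatten →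
    ∃ cs : List (List (D × ℤ × D)), cs.length = N ∧ cs.flatten = cw ∧ ∀ c ∈ cs, uncol c = u := by
  intro N
  induction N with
  | zero =>
    intro cw h
    refine ⟨[], rfl, ?_, by simp⟩
    simp only [List.replicate_zero, List.flatten_nil, uncol, List.map_eq_nil_iff] at h
    simp [h]
  | succ N ih =>
    intro cw h
    rw [List.replicate_succ, List.flatten_cons] at h
    obtain ⟨c₁, c₂, rfl, h1, h2⟩ := List.map_eq_append_iff.1 h
    obtain ⟨cs, e1, e2, e3⟩ := ih c₂ h2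
    refine ⟨c₁ :: cs, by simp [e1], by simp [e2], ?_⟩
    intro c hc
    rcases List.mem_cons.1 hc with rfl | hc
    · exact h1
    · exact e3 c hc

private theorem cfg_rep (u : List (D × ℤ)) (h1 : dsp u = 0) (h2 : cfg u = 0) : ∀ N : ℕ,
    dsp (List.replicate N u).flatten = 0 ∧ cfg (List.replicate N u).flatten = 0 := by
  intro N
  induction N with
  | zero => exact ⟨rfl, rfl⟩
  | succ N ih =>
    rw [List.replicate_succ, List.flatten_cons, dsp_append, cfg_append, h1, h2, ih.1, ih.2]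
    simp

private theorem sum_map_range (g : ℕ → R) (n : ℕ) :
    ((List.range n).map g).sum = ∑ l ∈ Finset.range n, g l := by
  induction n with
  | zero => simp
  | succ n ih => rw [List.range_succ, List.map_append, List.sum_append, ih, Finset.sum_range_succ]; simp

private theorem length_eq {α β : Type} [DecidableEq β] (g : α → β) (S : Finset β) (l : List α)
    (h : ∀ a ∈ l, g a ∈ S) : l.length = ∑ y ∈ S, l.countP (fun a => decide (g a = y)) := by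
  induction l with
  | nil => simp
  | cons a l ih =>
    simp only [List.countP_cons, Finset.sum_add_distrib, List.length_cons]
    rw [← ih (fun b hb => h b (by simp [hb]))]
    congr 1
    have := h a (by simp)
    simp [this]

/-- the factor of `v` -/
private noncomputable def Fv (𝒱 : Finset D) (T : ℕ) (v : D) : R :=
  ∏ u ∈ 𝒱.erase v, (1 - pt ((T : ℤ) • u) 1)

private theorem Fv_mul (𝒱 : Finset D) (T : ℕ) {v : D} (hv : v ∈ 𝒱) :
    (∏ u ∈ 𝒱, (1 - pt ((T : ℤ) • u) 1) : R) = (1 - pt ((T : ℤ) • v) 1) * Fv 𝒱 T v := by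
  rw [Fv, Finset.mul_prod_erase 𝒱 (fun u => (1 - pt ((T : ℤ) • u) 1 : R)) hv]

/-- the configurations of the unit word -/
private noncomputable def Ax (𝒱 : Finset D) (T k : ℕ)
    (x : {v // v ∈ 𝒱} → Fin (k + 1) × Fin (k + 1)) : R :=
  ∑ v : {v // v ∈ 𝒱}, (((x v).1 : ℕ) + pt ((((x v).2 : ℕ) : ℤ) • v.1) 1) * Fv 𝒱 T v.1

private theorem Ax_sub (𝒱 : Finset D) (T k : ℕ) (x x' : {v // v ∈ 𝒱} → Fin (k + 1) × Fin (k + 1))
    (v : {v // v ∈ 𝒱}) (h : ∀ u, u ≠ v → x u = x' u) :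
    Ax 𝒱 T k x' - Ax 𝒱 T k x =
      ((((x' v).1 : ℕ) : R) - (((x v).1 : ℕ) : R) +
        (pt ((((x' v).2 : ℕ) : ℤ) • v.1) 1 - pt ((((x v).2 : ℕ) : ℤ) • v.1) 1)) * Fv 𝒱 T v.1 := by
  unfold Ax
  rw [← Finset.sum_sub_distrib, Finset.sum_eq_single v]
  · ring
  · intro u _ hu
    rw [h u hu, sub_self]
  · intro hv
    exact absurd (Finset.mem_univ v) hv

/-- `hard₀` with the configuration of the word. -/
theorem hard₀' (𝒱 : Finset D) :
    ∃ T : ℕ, 1 ≤ T ∧ ∃ w : List (D × ℤ), cfg w = ∏ v ∈ 𝒱, (1 - pt ((T : ℤ) • v) 1) ∧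
      ∀ cw, uncol cw = w → (∀ c ∈ cw, c.2.2 ∈ 𝒱) → ∃ B : ℤ, 0 ≤ B ∧ Mod B cw 0 0 := by
  classical
  rcases 𝒱.eq_empty_or_nonempty with rfl | hne
  · refine ⟨1, le_rfl, [(0, 1)], ?_, ?_⟩
    · rw [Finset.prod_empty]
      simp [cfg, pt_zero_one]
    · intro cw h hc
      exfalso
      cases cw with
      | nil => simp [uncol] at h
      | cons c cw => exact absurd (hc c (by simp)) (by simp)
  -- the parameters
  set k := 𝒱.card with hk
  have hk1 : 1 ≤ k := Finset.card_pos.2 hne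
  set T := k.factorial ^ 2 with hT
  have hT1 : 1 ≤ T := Nat.one_le_iff_ne_zero.2 (pow_ne_zero _ (Nat.factorial_ne_zero k))
  obtain ⟨u, hu1, hu2, hu3⟩ := unit_word 𝒱 (Ax 𝒱 T k)
  set L := 3 * T with hL
  set S : Finset (({v // v ∈ 𝒱} → Fin (k + 1) × Fin (k + 1)) → D) :=
    Fintype.piFinset (fun _ => 𝒱) with hS
  have hSne : S.Nonempty := Fintype.piFinset_nonempty.2 fun _ => hne
  obtain ⟨UF, hF1, hF2⟩ := exists_word (∏ v ∈ 𝒱, (1 - pt ((T : ℤ) • v) 1) : R)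
  obtain ⟨hr1, hr2⟩ := cfg_rep u hu1 hu2 (S.card * L)
  refine ⟨T, hT1, (List.replicate (S.card * L) u).flatten ++ UF, ?_, ?_⟩
  · rw [cfg_append, hr1, hr2, hF1, pt_zero_one, one_mul, zero_add]
  intro cw hcw hcol
  obtain ⟨c₁, cF, rfl, e1, e2⟩ := List.map_eq_append_iff.1 hcw
  obtain ⟨cs, l1, l2, l3⟩ := split_rep u _ c₁ e1
  subst l2
  have hcs : ∀ c ∈ cs, ∃ χ₀ : ({v // v ∈ 𝒱} → Fin (k + 1) × Fin (k + 1)) → D, (∀ x, χ₀ x ∈ 𝒱) ∧
      ∀ x x', χ₀ x = χ₀ x' → ∀ t : ℤ, ∃ B : ℤ, 0 ≤ B ∧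
        Mod B c ((pt (t • χ₀ x) 1 - 1) * (Ax 𝒱 T k x' - Ax 𝒱 T k x)) 0 := by
    intro c hc
    refine hu3 c (l3 c hc) fun y hy => hcol y ?_
    rw [List.mem_append]
    left
    exact List.mem_flatten.2 ⟨c, hc, hy⟩
  choose! χ hχ1 hχ2 using hcs
  -- the popular colouring
  have hlen := length_eq χ S cs (fun c hc => by
    rw [hS, Fintype.mem_piFinset]
    exact hχ1 c hc)
  obtain ⟨χ₀, hχ0, hpop⟩ : ∃ χ₀ ∈ S, L ≤ cs.countP (fun c => decide (χ c = χ₀)) := by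
    refine Finset.exists_le_of_sum_le hSne ?_
    rw [← hlen, l1, Finset.sum_const, smul_eq_mul]
  have hmem : ∀ x, χ₀ x ∈ 𝒱 := Fintype.mem_piFinset.1 hχ0
  obtain ⟨v, x₁, x₁', x₂, x₂', p1, p2, p3, p4, q1, q2, q3, r1, r2, r3⟩ :=
    popular k (by rw [Fintype.card_coe]) (fun x => (⟨χ₀ x, hmem x⟩ : {v // v ∈ 𝒱}))
  have p1' : χ₀ x₁ = v.1 := congrArg Subtype.val p1
  have p2' : χ₀ x₁' = v.1 := congrArg Subtype.val p2
  have p3' : χ₀ x₂ = v.1 := congrArg Subtype.val p3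
  have p4' : χ₀ x₂' = v.1 := congrArg Subtype.val p4
  obtain ⟨m, hm⟩ : ∃ m : ℕ, ((x₁' v).1 : ℕ) = (x₁ v).1 + m := Nat.exists_eq_add_of_le (by
    exact_mod_cast (Fin.lt_def.1 q3).le)
  obtain ⟨d, hd⟩ : ∃ d : ℕ, ((x₂' v).2 : ℕ) = (x₂ v).2 + d := Nat.exists_eq_add_of_le (by
    exact_mod_cast (Fin.lt_def.1 r3).le)
  have hm1 : 1 ≤ m := by have := Fin.lt_def.1 q3; omega
  have hd1 : 1 ≤ d := by have := Fin.lt_def.1 r3; omega
  have hmk : m ≤ k := by have := (x₁' v).1.2; omega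
  have hdk : d ≤ k := by have := (x₂' v).2.2; omega
  set i : ℕ := ((x₂ v).2 : ℕ) with hi
  have A1 : Ax 𝒱 T k x₁' - Ax 𝒱 T k x₁ = (m : R) * Fv 𝒱 T v.1 := by
    rw [Ax_sub 𝒱 T k x₁ x₁' v q1, hm, ← q2, Nat.cast_add]
    ring
  have A2 : Ax 𝒱 T k x₂' - Ax 𝒱 T k x₂ =
      (pt (((i + d : ℕ) : ℤ) • v.1) 1 - pt ((i : ℤ) • v.1) 1) * Fv 𝒱 T v.1 := by
    rw [Ax_sub 𝒱 T k x₂ x₂' v r1, hd, ← r2]
    ring
  have A3 : Ax 𝒱 T k x₂ - Ax 𝒱 T k x₂' =
      (pt ((i : ℤ) • v.1) 1 - pt (((i + d : ℕ) : ℤ) • v.1) 1) * Fv 𝒱 T v.1 := by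
    rw [← neg_sub, A2]
    ring
  obtain ⟨q, hq⟩ : ∃ q, T = q * m * d := by
    have h1 : m ∣ k.factorial := Nat.dvd_factorial hm1 hmk
    have h2 : d ∣ k.factorial := Nat.dvd_factorial hd1 hdk
    obtain ⟨q, hq⟩ := mul_dvd_mul h1 h2
    exact ⟨q, by rw [hT, sq, hq]; ring⟩
  -- the terms
  set f₀ : R := (pt ((d : ℤ) • v.1) 1 - 1) * (Ax 𝒱 T k x₁' - Ax 𝒱 T k x₁) with hf₀
  set g : ℕ → R := fun l => (pt ((((l * d : ℕ) : ℤ) - (i : ℤ)) • v.1) 1 - 1) *
    (Ax 𝒱 T k x₂' - Ax 𝒱 T k x₂) with hg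
  set h : R := (pt (-(i : ℤ) • v.1) 1 - 1) * (Ax 𝒱 T k x₂ - Ax 𝒱 T k x₂') with hh
  set ts : List R := List.replicate q f₀ ++ ((List.range (q * m)).map g ++
    List.replicate (q * m) h) with hts
  have hsum : ts.sum = (pt ((T : ℤ) • v.1) 1 - 1) * Fv 𝒱 T v.1 := by
    have e := telescope v.1 m d i q
    rw [← hq] at e
    rw [hts, List.sum_append, List.sum_append, List.sum_replicate, List.sum_replicate, e,
      sum_map_range, Finset.sum_add_distrib, Finset.sum_const, Finset.card_range, hf₀, hh, A1, A3,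
      nsmul_eq_mul, nsmul_eq_mul, nsmul_eq_mul]
    have : ∑ l ∈ Finset.range (q * m), g l = (∑ l ∈ Finset.range (q * m),
        (pt (((l * d : ℕ) : ℤ) • v.1 - (i : ℤ) • v.1) 1 - 1) *
            (pt (((i + d : ℕ) : ℤ) • v.1) 1 - pt ((i : ℤ) • v.1) 1)) * Fv 𝒱 T v.1 := by
      rw [Finset.sum_mul]
      refine Finset.sum_congr rfl fun l _ => ?_
      rw [hg]
      simp only
      rw [A2, sub_smul]
      ring
    rw [this]
    ring
  have hlen2 : ts.length ≤ cs.countP (fun c => decide (χ c = χ₀)) := by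
    refine le_trans ?_ hpop
    rw [hts, List.length_append, List.length_append, List.length_replicate, List.length_replicate,
      List.length_map, List.length_range, hL, hq]
    have e1 : q * m ≤ q * m * d := Nat.le_mul_of_pos_right _ hd1
    have e2 : q ≤ q * m := Nat.le_mul_of_pos_right _ hm1
    omega
  obtain ⟨B₁, hB₁, M₁⟩ := multi (fun c => χ c = χ₀) cs ts
    (fun c hc => by rw [l3 c hc]; exact ⟨hu1, hu2⟩) (by
      intro f hf c hc hgood
      have hgood : χ c = χ₀ := hgood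
      rw [hts, List.mem_append, List.mem_append] at hf
      rcases hf with hf | hf | hf
      · rw [List.eq_of_mem_replicate hf]
        obtain ⟨B, hB, M⟩ := hχ2 c hc x₁ x₁' (by rw [hgood, p1', p2']) (d : ℤ)
        rw [hgood, p1'] at M
        exact ⟨B, hB, M⟩
      · obtain ⟨l, _, rfl⟩ := List.mem_map.1 hf
        obtain ⟨B, hB, M⟩ := hχ2 c hc x₂ x₂' (by rw [hgood, p3', p4']) (((l * d : ℕ) : ℤ) - (i : ℤ))
        rw [hgood, p3'] at M
        exact ⟨B, hB, M⟩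
      · rw [List.eq_of_mem_replicate hf]
        obtain ⟨B, hB, M⟩ := hχ2 c hc x₂' x₂ (by rw [hgood, p3', p4']) (-(i : ℤ))
        rw [hgood, p4'] at M
        exact ⟨B, hB, M⟩) hlen2
  have M₂ := Mod.zero hB₁ cF
  have e3 : uncol cF = UF := e2
  have e4 : uncol cs.flatten = (List.replicate (S.card * L) u).flatten := e1
  rw [e3, hF1, Fv_mul 𝒱 T v.2] at M₂
  have M := Mod.append M₁ M₂
  rw [e4, hr1, zero_add, pt_zero_one, one_mul, hsum] at M
  refine ⟨B₁, hB₁, ?_⟩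
  have e5 : (pt ((T : ℤ) • v.1) 1 - 1) * Fv 𝒱 T v.1 + (1 - pt ((T : ℤ) • v.1) 1) * Fv 𝒱 T v.1 = 0 := by
    ring
  rw [e5] at M
  exact M

theorem hard₀ (𝒱 : Finset D) (h0 : (0 : D) ∉ 𝒱) :
    ∃ w : List (D × ℤ), (∀ p : ℕ, p.Prime → ∃ x, ¬ (p : ℤ) ∣ (cfg w).coeff x) ∧
      ∀ cw, uncol cw = w → (∀ c ∈ cw, c.2.2 ∈ 𝒱) → ∃ B : ℤ, 0 ≤ B ∧ Mod B cw 0 0 := by
  obtain ⟨T, hT, w, h1, h2⟩ := hard₀' 𝒱
  refine ⟨w, fun p hp => ?_, h2⟩
  rw [h1]
  exact nonvanish 𝒱 h0 T hT p hp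

/-- `hard` with the configuration of the word. -/
theorem hard' (𝒱 : Finset D) (_h0 : (0 : D) ∉ 𝒱) :
    ∃ T : ℕ, 1 ≤ T ∧ ∃ w : List (D × ℤ), dsp w = 0 ∧
      cfg w = ∏ v ∈ 𝒱, (1 - pt ((T : ℤ) • v) 1) ∧
      ∃ B : ℤ, 0 ≤ B ∧ ∀ cw, uncol cw = w → (∀ c ∈ cw, c.2.2 ∈ 𝒱) → Mod B cw 0 0 := by
  obtain ⟨T, hT, w, h1, h2⟩ := hard₀' 𝒱
  have hpt : pt 0 0 = (0 : R) := by rw [pt_zero]; simp
  refine ⟨T, hT, w ++ [(-dsp w, 0)], ?_, ?_, ?_⟩
  · rw [dsp_append]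
    simp [dsp]
  · have e : cfg (w ++ [(-dsp w, 0)]) = cfg w := by
      rw [cfg_append]
      simp [cfg, hpt]
    rw [e]
    exact h1
  · refine Mod.finite 𝒱 _ ?_
    intro cw' hcw' hcol
    obtain ⟨cw, c₁, rfl, e1, e2⟩ := List.map_eq_append_iff.1 hcw'
    obtain ⟨B, hB, M⟩ := h2 cw e1 fun c hc => hcol c (by simp [hc])
    refine ⟨B, hB, ?_⟩
    have M' := Mod.append M (Mod.zero hB c₁)
    have e3 : cfg (uncol c₁) = 0 := by
      have : uncol c₁ = [(-dsp w, 0)] := e2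
      rw [this]
      simp [cfg, hpt]
    rw [e3, mul_zero, add_zero, add_zero] at M'
    exact M'

theorem hard (𝒱 : Finset D) (h0 : (0 : D) ∉ 𝒱) :
    ∃ w : List (D × ℤ), dsp w = 0 ∧
      (∀ p : ℕ, p.Prime → ∃ x, ¬ (p : ℤ) ∣ (cfg w).coeff x) ∧
      ∃ B : ℤ, 0 ≤ B ∧ ∀ cw, uncol cw = w → (∀ c ∈ cw, c.2.2 ∈ 𝒱) → Mod B cw 0 0 := by
  obtain ⟨T, hT, w, h1, h2, h3⟩ := hard' 𝒱 h0
  refine ⟨w, h1, fun p hp => ?_, h3⟩
  rw [h2]
  exact nonvanish 𝒱 h0 T hT p hp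

end Pool.Helper49.WR
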