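import Pool.Agent.Helper49.WR.Defs

/-!
# WR-L: configurations and modifications

`R = ℤ[ℤ²]` is a commutative ring; `pt v μ` is `AddMonoidAlgebra.single v μ`
(`AddMonoidAlgebra.single_mul_single`, `AddMonoidAlgebra.one_def`).

* `cfg_append`, `dsp_append`: induction on the first word.
* `exists_word`: every configuration is the configuration of a word of displacement `0`: for
  `f = ∑ single p μ` concatenate the words `[(p, μ), (-p, 0)]` (induction on `f`,
  e.g. `AddMonoidAlgebra.induction_linear`/`Finsupp.induction_linear`, with `cfg_append`).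
* `Mod.zero` (all `t = 0`), `Mod.mono`, `Mod.append`: inductions.
* `Mod.explicit`: collect the numbers `t` in a function; `List.mapIdx_cons`.
* `Mod.finite`: there are finitely many coloured words with given underlying word and colours
  in the finite set `𝒱` (they have fixed length and entries in a finite set), so a bound `B` that
  depends on the coloured word can be made uniform.
-/

set_option autoImplicit false

namespace Pool.Helper49.WR

theorem pt_mul (u v : D) (μ ν : ℤ) : pt u μ * pt v ν = pt (u + v) (μ * ν) := by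
  unfold pt
  exact AddMonoidAlgebra.single_mul_single u v μ ν

theorem pt_zero_one : pt 0 1 = 1 := by
  unfold pt
  exact AddMonoidAlgebra.one_def.symm

private theorem pt_zero80 (v : D) : pt v 0 = 0 := by
  unfold pt
  exact AddMonoidAlgebra.single_zero v

private theorem pt_add80 (v : D) (μ ν : ℤ) : pt v (μ + ν) = pt v μ + pt v ν := by
  unfold pt
  exact AddMonoidAlgebra.single_add v μ ν

theorem pt_zero (μ : ℤ) : pt 0 μ = (μ : R) := by
  let F : ℤ →+ R :=
    { toFun := fun μ => pt 0 μ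
      map_zero' := pt_zero80 0
      map_add' := fun μ ν => pt_add80 0 μ ν }
  have h : F μ = (Int.castAddHom R) μ := by
    have : F = Int.castAddHom R := by
      apply AddMonoidHom.ext_int
      show pt 0 1 = ((1 : ℤ) : R)
      rw [pt_zero_one, Int.cast_one]
    rw [this]
  exact h

theorem cfg_append (w₁ w₂ : List (D × ℤ)) :
    cfg (w₁ ++ w₂) = cfg w₁ + pt (dsp w₁) 1 * cfg w₂ := by
  induction w₁ with
  | nil =>
    show cfg w₂ = 0 + pt 0 1 * cfg w₂
    rw [pt_zero_one, zero_add, one_mul]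
  | cons a w ih =>
    obtain ⟨d, μ⟩ := a
    show pt d 1 * (pt 0 μ + cfg (w ++ w₂)) =
      pt d 1 * (pt 0 μ + cfg w) + pt (d + dsp w) 1 * cfg w₂
    have h1 : pt (d + dsp w) 1 = pt d 1 * pt (dsp w) 1 := by
      rw [pt_mul, one_mul]
    rw [ih, h1]
    ring

theorem dsp_append (w₁ w₂ : List (D × ℤ)) : dsp (w₁ ++ w₂) = dsp w₁ + dsp w₂ := by
  induction w₁ with
  | nil =>
    show dsp w₂ = 0 + dsp w₂
    rw [zero_add]
  | cons a w ih =>
    obtain ⟨d, μ⟩ := a
    show d + dsp (w ++ w₂) = d + dsp w + dsp w₂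
    rw [ih, add_assoc]

theorem uncol_append (l₁ l₂ : List (D × ℤ × D)) : uncol (l₁ ++ l₂) = uncol l₁ ++ uncol l₂ := by
  unfold uncol
  rw [List.map_append]

theorem exists_word (f : R) : ∃ w, cfg w = f ∧ dsp w = 0 := by
  induction f using AddMonoidAlgebra.induction_linear with
  | zero => exact ⟨[], rfl, rfl⟩
  | add f g hf hg =>
    obtain ⟨w₁, h1, h2⟩ := hf
    obtain ⟨w₂, h3, h4⟩ := hg
    refine ⟨w₁ ++ w₂, ?_, ?_⟩
    · rw [cfg_append, h2, pt_zero_one, one_mul, h1, h3]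
    · rw [dsp_append, h2, h4, add_zero]
  | single p μ =>
    refine ⟨[(p, μ), (-p, 0)], ?_, ?_⟩
    · show pt p 1 * (pt 0 μ + pt (-p) 1 * (pt 0 0 + 0)) = pt p μ
      rw [pt_zero80, add_zero, mul_zero, add_zero, pt_mul, add_zero, one_mul]
    · show p + (-p + 0) = 0
      rw [add_zero, add_neg_cancel]

theorem Mod.mono {B B' : ℤ} (hB : B ≤ B') {l : List (D × ℤ × D)} {f : R} {σ : D}
    (h : Mod B l f σ) : Mod B' l f σ := by
  induction h with
  | nil => exact Mod.nil
  | cons t ht _ ih => exact Mod.cons t (ht.trans hB) ih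

theorem Mod.zero {B : ℤ} (hB : 0 ≤ B) (l : List (D × ℤ × D)) : Mod B l (cfg (uncol l)) 0 := by
  induction l with
  | nil => exact Mod.nil
  | cons a l ih =>
    obtain ⟨d, μ, χ⟩ := a
    have h := Mod.cons (d := d) (μ := μ) (χ := χ) 0 (by rw [abs_zero]; exact hB) ih
    rw [zero_smul, add_zero, add_zero] at h
    exact h

theorem Mod.append {B : ℤ} {l₁ l₂ : List (D × ℤ × D)} {f₁ f₂ : R} {σ₁ σ₂ : D}
    (h₁ : Mod B l₁ f₁ σ₁) (h₂ : Mod B l₂ f₂ σ₂) :
    Mod B (l₁ ++ l₂) (f₁ + pt (dsp (uncol l₁) + σ₁) 1 * f₂) (σ₁ + σ₂) := by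
  induction h₁ with
  | nil =>
    show Mod B l₂ (0 + pt (0 + 0) 1 * f₂) (0 + σ₂)
    rw [add_zero, pt_zero_one, one_mul, zero_add, zero_add]
    exact h₂
  | @cons d μ χ l f σ t ht _ ih =>
    have h := Mod.cons (d := d) (μ := μ) (χ := χ) t ht ih
    have e1 : pt (d + t • χ) 1 * (pt 0 μ + (f + pt (dsp (uncol l) + σ) 1 * f₂)) =
        pt (d + t • χ) 1 * (pt 0 μ + f) +
          pt (dsp (uncol ((d, μ, χ) :: l)) + (t • χ + σ)) 1 * f₂ := by
      have e2 : dsp (uncol ((d, μ, χ) :: l)) + (t • χ + σ) =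
          (d + t • χ) + (dsp (uncol l) + σ) := by
        show d + dsp (uncol l) + (t • χ + σ) = _
        abel
      have e3 : pt ((d + t • χ) + (dsp (uncol l) + σ)) 1 =
          pt (d + t • χ) 1 * pt (dsp (uncol l) + σ) 1 := by
        rw [pt_mul, one_mul]
      rw [e2, e3]
      ring
    rw [e1, ← add_assoc (t • χ) σ σ₂] at h
    exact h

theorem Mod.explicit {B : ℤ} {l : List (D × ℤ × D)} {f : R} {σ : D} (h : Mod B l f σ)
    (hB : 0 ≤ B) :
    ∃ t : ℕ → ℤ, (∀ j, |t j| ≤ B) ∧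
      cfg (l.mapIdx fun j c => (c.1 + t j • c.2.2, c.2.1)) = f ∧
      dsp (l.mapIdx fun j c => (c.1 + t j • c.2.2, c.2.1)) = dsp (uncol l) + σ := by
  induction h with
  | nil =>
    refine ⟨fun _ => 0, fun _ => by rw [abs_zero]; exact hB, rfl, ?_⟩
    show (0 : D) = 0 + 0
    rw [add_zero]
  | @cons d μ χ l f σ t ht _ ih =>
    obtain ⟨s, h1, h2, h3⟩ := ih
    refine ⟨fun j => Nat.casesOn j t s, ?_, ?_, ?_⟩
    · intro j
      cases j with
      | zero => exact ht
      | succ j => exact h1 j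
    · rw [List.mapIdx_cons]
      show pt (d + t • χ) 1 * (pt 0 μ + cfg (l.mapIdx fun j c => (c.1 + s j • c.2.2, c.2.1))) = _
      rw [h2]
    · rw [List.mapIdx_cons]
      show d + t • χ + dsp (l.mapIdx fun j c => (c.1 + s j • c.2.2, c.2.1)) =
        d + dsp (uncol l) + (t • χ + σ)
      rw [h3]
      abel

private theorem fin80 (𝒱 : Finset D) (w : List (D × ℤ)) :
    {cw : List (D × ℤ × D) | uncol cw = w ∧ ∀ c ∈ cw, c.2.2 ∈ 𝒱}.Finite := by
  induction w with
  | nil =>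
    refine (Set.finite_singleton []).subset ?_
    rintro cw ⟨h, -⟩
    cases cw with
    | nil => rfl
    | cons a l => exact absurd h (by unfold uncol; simp)
  | cons a w ih =>
    have h1 := Set.Finite.image2 (fun (χ : D) (cw : List (D × ℤ × D)) => (a.1, a.2, χ) :: cw)
      𝒱.finite_toSet ih
    refine h1.subset ?_
    rintro cw ⟨h, hc⟩
    cases cw with
    | nil => exact absurd h (by unfold uncol; simp)
    | cons b l =>
      obtain ⟨d, μ, χ⟩ := b
      have h2 : (d, μ) :: uncol l = a :: w := h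
      rw [List.cons.injEq] at h2
      refine ⟨χ, hc (d, μ, χ) List.mem_cons_self, l,
        ⟨h2.2, fun c hc' => hc c (List.mem_cons_of_mem _ hc')⟩, ?_⟩
      show (a.1, a.2, χ) :: l = (d, μ, χ) :: l
      rw [← h2.1]

theorem Mod.finite (𝒱 : Finset D) (w : List (D × ℤ))
    (h : ∀ cw, uncol cw = w → (∀ c ∈ cw, c.2.2 ∈ 𝒱) → ∃ B : ℤ, 0 ≤ B ∧ Mod B cw 0 0) :
    ∃ B : ℤ, 0 ≤ B ∧ ∀ cw, uncol cw = w → (∀ c ∈ cw, c.2.2 ∈ 𝒱) → Mod B cw 0 0 := by
  classical
  have hfin := fin80 𝒱 w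
  have h' : ∀ cw : List (D × ℤ × D), ∃ B : ℤ, 0 ≤ B ∧
      (uncol cw = w ∧ (∀ c ∈ cw, c.2.2 ∈ 𝒱) → Mod B cw 0 0) := by
    intro cw
    by_cases hcw : uncol cw = w ∧ ∀ c ∈ cw, c.2.2 ∈ 𝒱
    · obtain ⟨B, hB, hm⟩ := h cw hcw.1 hcw.2
      exact ⟨B, hB, fun _ => hm⟩
    · exact ⟨0, le_rfl, fun hc => absurd hc hcw⟩
  choose F hF0 hF using h'
  refine ⟨∑ cw ∈ hfin.toFinset, F cw, Finset.sum_nonneg fun cw _ => hF0 cw, ?_⟩
  intro cw h1 h2
  refine (hF cw ⟨h1, h2⟩).mono ?_
  exact Finset.single_le_sum (f := F) (fun c _ => hF0 c) (hfin.mem_toFinset.2 ⟨h1, h2⟩)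

end Pool.Helper49.WR
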