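import Pool.Agent.Helper49.WR.Defs

/-!
# WR-J: noncrossing links have a local combination

`P` is a noncrossing set of links, `[s, s + n)` an interval, `O` a set of fewer than `n` numbers
outside the interval.  Every `i` in the interval is an end (with a coefficient `≥ 1`) of some link
`p_i ∈ P` with `k p_i ≥ κ₀`, all of whose ends (with coefficient `≥ 1`) are in the interval or in
`O`.  Then for some `i` with `i, i + 1` in the interval there is an integral combination of links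
of `P` with coefficients at most `C` in absolute value, nonzero, and supported on `{i, i+1}`.

Proof. Choose `p_i` for every `i` in the interval.
(1) If for some `i` the vector of `p_i` is supported on `{i}`, take `z = 1` at `p_i` and `0`
elsewhere, and the pair `{i, i+1}` or `{i-1, i}` (one of them is in the interval as `n ≥ 2`).
(`C ≥ 1` as `1 ≤ vec p_i i ≤ C`.)
Otherwise for every `i` the vector of `p_i` has a second support point `π(i) ≠ i`: then
`{p_i.1, p_i.2.1} = {i, π(i)}` and both coefficients are `≥ 1`.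
(2) If `π(i)` is in the interval for some `i` in it: choose such an `i` with `|i - π(i)|` minimal.
If this is `1` then `z = 1` at `p_i` works.  Otherwise let `i < j` be `i, π(i)` in increasing order
and `m = i + 1`, so `i < m < j`.  As `p_i` (with ends `i < j`) and `p_m` do not cross, `π(m) ∈
[i, j]` (if `π(m) > j` then `i < m < j < π(m)`; if `π(m) < i` then `π(m) < i < m < j`), so `π(m)`
is in the interval and `|m - π(m)| < j - i`, a contradiction.
(3) Otherwise `π` maps the interval to `O`; as `|O| < n` there are `i₁ < i₂` with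
`π(i₁) = π(i₂) = o`; choose such a pair with `i₂ - i₁` minimal.  If `i₂ = i₁ + 1` then take
`z = (coefficient of p_{i₂} at o)` at `p_{i₁}` and `z = -(coefficient of p_{i₁} at o)` at `p_{i₂}`
(`p_{i₁} ≠ p_{i₂}` as their supports are different): the combination vanishes at `o` and is
`d₂ c₁ ≠ 0` at `i₁`, `- d₁ c₂` at `i₂`, with all numbers `≤ C`.
If `i₂ > i₁ + 1` let `m = i₁ + 1`; by noncrossing `π(m) = o`: say `o > ` interval (`o ≥ s + n`).
`π(m) ∈ O` is outside the interval.  If `π(m) < s` then `π(m) < i₁ < m < o` cross.  So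
`π(m) ≥ s + n`; `i₁ < m < o < π(m)` is excluded so `π(m) ≤ o`; and `m < i₂ < π(m) < o` is excluded
so `π(m) ≥ o`.  The case `o < s` is the mirror image: `π(m) ≥ s + n` would give
`o < i₂ ... `: `o < m < i₂ < π(m)`, crossing of `(o, i₂)` and `(m, π(m))`; so `π(m) < s`;
`π(m) < o < m < i₂` is excluded and `o < π(m) < i₁ < m` is excluded.  So the pair `(i₁, m)` is
closer, a contradiction.
-/

set_option autoImplicit false

namespace Pool.Helper49.WR

private theorem vec_apply (p : Link) (m : ℕ) : Link.vec p m =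
    (if p.1 = m then p.2.2.1 else 0) + (if p.2.1 = m then p.2.2.2 else 0) := by
  simp [Link.vec, Finsupp.single_apply]

private theorem vec_le (p : Link) (m : ℕ) : Link.vec p m ≤ p.2.2.1 + p.2.2.2 := by
  rw [vec_apply]
  split_ifs <;> omega

/-- the conclusion of `local_change` -/
private def Concl (C κ₀ : ℕ) (P : Finset Link) (k : Link → ℕ) (s n : ℕ) : Prop :=
  ∃ i, s ≤ i ∧ i + 1 < s + n ∧ ∃ z : Link → ℤ,
      (∀ p, z p ≠ 0 → p ∈ P ∧ κ₀ ≤ k p) ∧ (∀ p, |z p| ≤ C) ∧
      (∀ m, m ≠ i → m ≠ i + 1 → ∑ p ∈ P, z p * (Link.vec p m : ℤ) = 0) ∧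
      ¬ (∑ p ∈ P, z p * (Link.vec p i : ℤ) = 0 ∧ ∑ p ∈ P, z p * (Link.vec p (i + 1) : ℤ) = 0) ∧
      |∑ p ∈ P, z p * (Link.vec p i : ℤ)| ≤ (C : ℤ) ^ 2 ∧
      |∑ p ∈ P, z p * (Link.vec p (i + 1) : ℤ)| ≤ (C : ℤ) ^ 2

private theorem sum_one (P : Finset Link) {p : Link} (hp : p ∈ P) (a : ℤ) (m : ℕ) :
    ∑ q ∈ P, (if q = p then a else 0) * (Link.vec q m : ℤ) = a * (Link.vec p m : ℤ) := by
  rw [Finset.sum_eq_single_of_mem p hp]
  · simp
  · intro q _ hq
    simp [hq]

private theorem fin_one {C κ₀ : ℕ} {P : Finset Link} {k : Link → ℕ} {s n : ℕ} {p : Link}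
    (hp : p ∈ P) (hk : κ₀ ≤ k p) (hC : p.2.2.1 + p.2.2.2 ≤ C) {i : ℕ} (hi : s ≤ i)
    (hi' : i + 1 < s + n) (h0 : ∀ m, m ≠ i → m ≠ i + 1 → Link.vec p m = 0)
    (h1 : ¬ (Link.vec p i = 0 ∧ Link.vec p (i + 1) = 0)) : Concl C κ₀ P k s n := by
  have hle : ∀ m, Link.vec p m ≤ C := fun m => (vec_le p m).trans hC
  have hC1 : 1 ≤ C := by
    by_contra hcon
    apply h1
    have h2 := hle i
    have h3 := hle (i + 1)
    omega
  have hCC : ∀ m, (Link.vec p m : ℤ) ≤ (C : ℤ) ^ 2 := by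
    intro m
    have h2 : (Link.vec p m : ℤ) ≤ C := by exact_mod_cast hle m
    have h3 : (1 : ℤ) ≤ C := by exact_mod_cast hC1
    nlinarith
  refine ⟨i, hi, hi', fun q => if q = p then 1 else 0, ?_, ?_, ?_, ?_, ?_, ?_⟩
  · intro q hq
    by_cases h : q = p
    · subst h
      exact ⟨hp, hk⟩
    · simp [h] at hq
  · intro q
    by_cases h : q = p
    · simp only [h, if_true, abs_one]
      exact_mod_cast hC1
    · simp [h]
  · intro m h2 h3
    rw [sum_one P hp, h0 m h2 h3]
    simp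
  · rw [sum_one P hp, sum_one P hp, one_mul, one_mul]
    intro h
    apply h1
    exact ⟨by exact_mod_cast h.1, by exact_mod_cast h.2⟩
  · rw [sum_one P hp, one_mul, abs_of_nonneg (by positivity)]
    exact hCC i
  · rw [sum_one P hp, one_mul, abs_of_nonneg (by positivity)]
    exact hCC (i + 1)

private theorem sum_two (P : Finset Link) {p q : Link} (hp : p ∈ P) (hq : q ∈ P) (hpq : p ≠ q)
    (a b : ℤ) (m : ℕ) :
    ∑ r ∈ P, (if r = p then a else if r = q then b else 0) * (Link.vec r m : ℤ) =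
      a * (Link.vec p m : ℤ) + b * (Link.vec q m : ℤ) := by
  have h : ∀ r ∈ P, (if r = p then a else if r = q then b else 0) * (Link.vec r m : ℤ) =
      (if r = p then a else 0) * (Link.vec r m : ℤ) +
        (if r = q then b else 0) * (Link.vec r m : ℤ) := by
    intro r _
    by_cases h1 : r = p
    · subst h1
      simp [hpq]
    · simp [h1]
  rw [Finset.sum_congr rfl h, Finset.sum_add_distrib, sum_one P hp, sum_one P hq]

private theorem fin_two {C κ₀ : ℕ} {P : Finset Link} {k : Link → ℕ} {s n : ℕ} {p q : Link}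
    (hp : p ∈ P) (hk : κ₀ ≤ k p) (hC : p.2.2.1 + p.2.2.2 ≤ C)
    (hq : q ∈ P) (hk' : κ₀ ≤ k q) (hC' : q.2.2.1 + q.2.2.2 ≤ C)
    {i o : ℕ} (hi : s ≤ i) (hi' : i + 1 < s + n) (ho : o ≠ i) (ho' : o ≠ i + 1)
    (h0 : ∀ m, m ≠ i → m ≠ o → Link.vec p m = 0)
    (h0' : ∀ m, m ≠ i + 1 → m ≠ o → Link.vec q m = 0)
    (h1 : 1 ≤ Link.vec p i) (h3 : 1 ≤ Link.vec q (i + 1)) (h4 : 1 ≤ Link.vec q o) :
    Concl C κ₀ P k s n := by
  have hle : ∀ m, (Link.vec p m : ℤ) ≤ C := fun m => by
    exact_mod_cast (vec_le p m).trans hC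
  have hle' : ∀ m, (Link.vec q m : ℤ) ≤ C := fun m => by
    exact_mod_cast (vec_le q m).trans hC'
  have hpq : p ≠ q := by
    rintro rfl
    have h5 := h0 (i + 1) (by omega) (by omega)
    omega
  have h6 : Link.vec q i = 0 := h0' i (by omega) (by omega)
  have h7 : Link.vec p (i + 1) = 0 := h0 (i + 1) (by omega) (by omega)
  have hC0 : (0 : ℤ) ≤ C := by positivity
  refine ⟨i, hi, hi', fun r => if r = p then (Link.vec q o : ℤ) else
    if r = q then -(Link.vec p o : ℤ) else 0, ?_, ?_, ?_, ?_, ?_, ?_⟩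
  · intro r hr
    by_cases h : r = p
    · subst h
      exact ⟨hp, hk⟩
    · by_cases h' : r = q
      · subst h'
        exact ⟨hq, hk'⟩
      · simp [h, h'] at hr
  · intro r
    by_cases h : r = p
    · simp only [h, if_true]
      rw [abs_of_nonneg (by positivity)]
      exact hle' o
    · by_cases h' : r = q
      · have h'' : q ≠ p := fun h5 => hpq h5.symm
        simp only [h', if_neg h'', if_true]
        rw [abs_neg, abs_of_nonneg (by positivity)]
        exact hle o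
      · simp [h, h']
  · intro m h8 h9
    rw [sum_two P hp hq hpq]
    by_cases h10 : m = o
    · subst h10
      ring
    · rw [h0 m h8 h10, h0' m h9 h10]
      simp
  · rw [sum_two P hp hq hpq, h6]
    intro h
    have h11 := h.1
    have h12 : (1 : ℤ) ≤ (Link.vec q o : ℤ) := by exact_mod_cast h4
    have h13 : (1 : ℤ) ≤ (Link.vec p i : ℤ) := by exact_mod_cast h1
    simp only [Nat.cast_zero, mul_zero, add_zero] at h11
    nlinarith
  · rw [sum_two P hp hq hpq, h6]
    simp only [Nat.cast_zero, mul_zero, add_zero]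
    rw [abs_of_nonneg (by positivity), pow_two]
    exact mul_le_mul (hle' o) (hle i) (by positivity) hC0
  · rw [sum_two P hp hq hpq, h7]
    simp only [Nat.cast_zero, mul_zero, zero_add]
    rw [neg_mul, abs_neg, abs_of_nonneg (by positivity), pow_two]
    exact mul_le_mul (hle o) (hle' (i + 1)) (by positivity) hC0

/-- a link of `P` with ends `a`, `b`, both coefficients positive -/
private def Rl (κ₀ : ℕ) (P : Finset Link) (k : Link → ℕ) (a b : ℕ) (p : Link) : Prop :=
  p ∈ P ∧ κ₀ ≤ k p ∧ p.1 = a ∧ p.2.1 = b ∧ 1 ≤ p.2.2.1 ∧ 1 ≤ p.2.2.2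

private theorem no_cross {κ₀ : ℕ} {P : Finset Link} {k : Link → ℕ} (hNC : NC P) {a b c d : ℕ}
    {p q : Link} (hp : Rl κ₀ P k a b p) (hq : Rl κ₀ P k c d q) : ¬ (a < c ∧ c < b ∧ b < d) := by
  obtain ⟨hp1, -, hp3, hp4, -, -⟩ := hp
  obtain ⟨hq1, -, hq3, hq4, -, -⟩ := hq
  have h := hNC p hp1 q hq1
  rwa [hp3, hp4, hq3, hq4] at h

theorem local_change (C κ₀ : ℕ) (P : Finset Link) (k : Link → ℕ) (hNC : NC P)
    (hC : ∀ p ∈ P, p.1 ≤ p.2.1 ∧ p.2.2.1 + p.2.2.2 ≤ C) (s n : ℕ) (hn : 2 ≤ n)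
    (O : Finset ℕ) (hO : O.card < n) (hOs : ∀ o ∈ O, ¬ (s ≤ o ∧ o < s + n))
    (hl : ∀ i, s ≤ i → i < s + n → ∃ p ∈ P, κ₀ ≤ k p ∧ 1 ≤ Link.vec p i ∧
      ∀ m, 1 ≤ Link.vec p m → (s ≤ m ∧ m < s + n) ∨ m ∈ O) :
    ∃ i, s ≤ i ∧ i + 1 < s + n ∧ ∃ z : Link → ℤ,
      (∀ p, z p ≠ 0 → p ∈ P ∧ κ₀ ≤ k p) ∧ (∀ p, |z p| ≤ C) ∧
      (∀ m, m ≠ i → m ≠ i + 1 → ∑ p ∈ P, z p * (Link.vec p m : ℤ) = 0) ∧
      ¬ (∑ p ∈ P, z p * (Link.vec p i : ℤ) = 0 ∧ ∑ p ∈ P, z p * (Link.vec p (i + 1) : ℤ) = 0) ∧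
      |∑ p ∈ P, z p * (Link.vec p i : ℤ)| ≤ (C : ℤ) ^ 2 ∧
      |∑ p ∈ P, z p * (Link.vec p (i + 1) : ℤ)| ≤ (C : ℤ) ^ 2 := by
  change Concl C κ₀ P k s n
  by_contra hcon
  -- every element of the interval has a partner
  have hpart : ∀ i, s ≤ i → i < s + n → ∃ j, ((s ≤ j ∧ j < s + n) ∨ j ∈ O) ∧
      ((i < j ∧ ∃ p, Rl κ₀ P k i j p) ∨ (j < i ∧ ∃ p, Rl κ₀ P k j i p)) := by
    intro i hi hi'
    obtain ⟨p, hp, hk, h1, h2⟩ := hl i hi hi'
    obtain ⟨hle, hcC⟩ := hC p hp
    by_cases hs : ∀ m, m ≠ i → Link.vec p m = 0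
    · exfalso
      apply hcon
      by_cases h3 : i + 1 < s + n
      · refine fin_one hp hk hcC hi h3 (fun m h4 _ => hs m h4) ?_
        rintro ⟨h4, -⟩
        omega
      · have h5 : i - 1 + 1 = i := by omega
        refine fin_one hp hk hcC (i := i - 1) (by omega) (by omega) (fun m _ h4 => hs m ?_) ?_
        · omega
        · rintro ⟨-, h4⟩
          rw [h5] at h4
          omega
    · push Not at hs
      obtain ⟨j, hji, hj⟩ := hs
      have hj1 : 1 ≤ Link.vec p j := Nat.one_le_iff_ne_zero.2 hj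
      refine ⟨j, h2 j hj1, ?_⟩
      rw [vec_apply] at h1 hj1
      rcases Nat.lt_or_gt_of_ne hji with h | h
      · right
        refine ⟨h, p, hp, hk, ?_⟩
        split_ifs at h1 hj1 <;> omega
      · left
        refine ⟨h, p, hp, hk, ?_⟩
        split_ifs at h1 hj1 <;> omega
  have hCp : ∀ {a b : ℕ} {p : Link}, Rl κ₀ P k a b p → p.2.2.1 + p.2.2.2 ≤ C :=
    fun h => (hC _ h.1).2
  have hsupp : ∀ {a b : ℕ} {p : Link}, Rl κ₀ P k a b p → ∀ m, m ≠ a → m ≠ b →
      Link.vec p m = 0 := by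
    intro a b p h m h1 h2
    obtain ⟨-, -, h3, h4, -, -⟩ := h
    rw [vec_apply, if_neg (by omega), if_neg (by omega)]
  have hva : ∀ {a b : ℕ} {p : Link}, Rl κ₀ P k a b p → 1 ≤ Link.vec p a := by
    intro a b p h
    obtain ⟨-, -, h3, h4, h5, h6⟩ := h
    rw [vec_apply, if_pos h3]
    omega
  have hvb : ∀ {a b : ℕ} {p : Link}, Rl κ₀ P k a b p → 1 ≤ Link.vec p b := by
    intro a b p h
    obtain ⟨-, -, h3, h4, h5, h6⟩ := h
    rw [vec_apply, if_pos h4]
    omega
  -- no link inside the interval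
  have hin : ∀ t i j, s ≤ i → j < s + n → i < j → j - i ≤ t → ∀ p, ¬ Rl κ₀ P k i j p := by
    intro t
    induction t with
    | zero => intro i j _ _ h1 h2; omega
    | succ t ih =>
      intro i j hi hj hij ht p hp
      by_cases h1 : j = i + 1
      · subst h1
        apply hcon
        refine fin_one hp.1 hp.2.1 (hCp hp) hi hj (fun m h2 h3 => hsupp hp m h2 h3) ?_
        rintro ⟨h2, -⟩
        have := hva hp
        omega
      · obtain ⟨j', -, hj'⟩ := hpart (i + 1) (by omega) (by omega)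
        rcases hj' with ⟨h2, q, hq⟩ | ⟨h2, q, hq⟩
        · have h3 := no_cross hNC hp hq
          exact ih (i + 1) j' (by omega) (by omega) h2 (by omega) q hq
        · have h3 := no_cross hNC hq hp
          have h4 : j' = i := by omega
          subst h4
          exact ih j' (j' + 1) hi (by omega) (by omega) (by omega) q hq
  have hpart' : ∀ i, s ≤ i → i < s + n → ∃ j, j ∈ O ∧
      ((i < j ∧ ∃ p, Rl κ₀ P k i j p) ∨ (j < i ∧ ∃ p, Rl κ₀ P k j i p)) := by
    intro i hi hi'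
    obtain ⟨j, hj, hj'⟩ := hpart i hi hi'
    rcases hj with ⟨h1, h2⟩ | h1
    · exfalso
      rcases hj' with ⟨h3, p, hp⟩ | ⟨h3, p, hp⟩
      · exact hin (j - i) i j hi h2 h3 le_rfl p hp
      · exact hin (i - j) j i h1 hi' h3 le_rfl p hp
    · exact ⟨j, h1, hj'⟩
  -- common partner above
  have habove : ∀ t i j o, s ≤ i → j < s + n → i < j → j - i ≤ t → s + n ≤ o →
      (∃ p, Rl κ₀ P k i o p) → (∃ p, Rl κ₀ P k j o p) → False := by
    intro t
    induction t with
    | zero => intro i j o _ _ h1 h2; omega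
    | succ t ih =>
      intro i j o hi hj hij ht ho ⟨p, hp⟩ ⟨q, hq⟩
      by_cases h1 : j = i + 1
      · subst h1
        apply hcon
        exact fin_two hp.1 hp.2.1 (hCp hp) hq.1 hq.2.1 (hCp hq) hi hj (by omega) (by omega)
          (fun m h2 h3 => hsupp hp m h2 h3) (fun m h2 h3 => hsupp hq m h2 h3) (hva hp) (hva hq)
          (hvb hq)
      · obtain ⟨j', hjO, hj'⟩ := hpart' (i + 1) (by omega) (by omega)
        have h5 := hOs j' hjO
        rcases hj' with ⟨h2, r, hr⟩ | ⟨h2, r, hr⟩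
        · have h3 := no_cross hNC hp hr
          have h4 := no_cross hNC hr hq
          have h6 : j' = o := by omega
          subst h6
          exact ih i (i + 1) j' hi (by omega) (by omega) (by omega) ho ⟨p, hp⟩ ⟨r, hr⟩
        · have h3 := no_cross hNC hr hp
          omega
  -- common partner below
  have hbelow : ∀ t i j o, s ≤ i → j < s + n → i < j → j - i ≤ t → o < s →
      (∃ p, Rl κ₀ P k o i p) → (∃ p, Rl κ₀ P k o j p) → False := by
    intro t
    induction t with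
    | zero => intro i j o _ _ h1 h2; omega
    | succ t ih =>
      intro i j o hi hj hij ht ho ⟨p, hp⟩ ⟨q, hq⟩
      by_cases h1 : j = i + 1
      · subst h1
        apply hcon
        exact fin_two hp.1 hp.2.1 (hCp hp) hq.1 hq.2.1 (hCp hq) hi hj (by omega) (by omega)
          (fun m h2 h3 => hsupp hp m h3 h2) (fun m h2 h3 => hsupp hq m h3 h2) (hvb hp) (hvb hq)
          (hva hq)
      · obtain ⟨j', hjO, hj'⟩ := hpart' (i + 1) (by omega) (by omega)
        have h5 := hOs j' hjO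
        rcases hj' with ⟨h2, r, hr⟩ | ⟨h2, r, hr⟩
        · have h3 := no_cross hNC hq hr
          omega
        · have h3 := no_cross hNC hr hq
          have h4 := no_cross hNC hp hr
          have h6 : j' = o := by omega
          subst h6
          exact ih i (i + 1) j' hi (by omega) (by omega) (by omega) ho ⟨p, hp⟩ ⟨r, hr⟩
  -- pigeonhole
  choose! π hπO hπ using hpart'
  have hmaps : ∀ i ∈ Finset.Ico s (s + n), π i ∈ O := by
    intro i hi
    rw [Finset.mem_Ico] at hi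
    exact hπO i hi.1 hi.2
  obtain ⟨i, hi, j, hj, hij, heq⟩ := Finset.exists_ne_map_eq_of_card_lt_of_maps_to
    (s := Finset.Ico s (s + n)) (t := O) (by simpa using hO) hmaps
  rw [Finset.mem_Ico] at hi hj
  wlog hlt : i < j generalizing i j
  · exact this j hj i hi (fun h => hij h.symm) heq.symm (by omega)
  have hi2 := hπ i hi.1 hi.2
  have hj2 := hπ j hj.1 hj.2
  have ho := hOs _ (hπO i hi.1 hi.2)
  rw [← heq] at hj2
  rcases hi2 with ⟨h1, p, hp⟩ | ⟨h1, p, hp⟩
  · rcases hj2 with ⟨h2, q, hq⟩ | ⟨h2, q, hq⟩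
    · exact habove (j - i) i j (π i) hi.1 hj.2 hlt le_rfl (by omega) ⟨p, hp⟩ ⟨q, hq⟩
    · omega
  · rcases hj2 with ⟨h2, q, hq⟩ | ⟨h2, q, hq⟩
    · omega
    · exact hbelow (j - i) i j (π i) hi.1 hj.2 hlt le_rfl (by omega) ⟨p, hp⟩ ⟨q, hq⟩

end Pool.Helper49.WR
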