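import Pool.Agent.Helper49.WR.Parikh
import Pool.Agent.Helper49.WR.LocalChange
import Pool.Agent.Helper49.WR.BigLink
import Pool.Agent.Helper49.WR.Hard
import Pool.Agent.Helper49.WR.GroupPart
import Pool.Agent.Helper49.WR.Colour

/-!
# Project WR: assembly
-/

set_option autoImplicit false

namespace Pool.Helper49.WR

theorem pt_coeff (v : D) (μ : ℤ) (x : D) : (pt v μ).coeff x = if v = x then μ else 0 := by
  simp [pt, Finsupp.single_apply]

theorem WTriple.a_ne {G : Type} [Group G] {a b c : G} (h : WTriple a b c) : a ≠ 1 := by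
  rintro rfl
  have h1 := h.alive [((0, 0), 1), ((1, 0), -1), ((-1, 0), 0)] (by simp [ev]) 0
  apply h.ne
  have : (cfg [((0, 0), 1), ((1, 0), -1), ((-1, 0), 0)]).coeff 0 = 1 := by
    simp only [cfg, mul_add, pt_mul, mul_zero, add_zero, AddMonoidAlgebra.coeff_add,
      Finsupp.add_apply, pt_coeff]
    simp
  rw [this, zpow_one] at h1
  exact h1

theorem WTriple.b_ne {G : Type} [Group G] {a b c : G} (h : WTriple a b c) : b ≠ 1 := by
  rintro rfl
  have h1 := h.alive [((0, 0), 1), ((0, 1), -1), ((0, -1), 0)] (by simp [ev]) 0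
  apply h.ne
  have : (cfg [((0, 0), 1), ((0, 1), -1), ((0, -1), 0)]).coeff 0 = 1 := by
    simp only [cfg, mul_add, pt_mul, mul_zero, add_zero, AddMonoidAlgebra.coeff_add,
      Finsupp.add_apply, pt_coeff]
    simp
  rw [this, zpow_one] at h1
  exact h1

theorem WTriple.val_ne {G : Type} [Group G] {a b c : G} (h : WTriple a b c) (l : Fin 6) :
    val a b c l ≠ 1 := by
  have h1 := h.a_ne
  have h2 := h.b_ne
  have h3 := h.ne
  fin_cases l <;> simp [val, h1, h2, h3]

/-- The levels. -/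
def lev (Bd Nn C κ : ℕ) : ℕ → ℕ
  | 0 => Bd + Nn * (C * κ) + 1
  | (j + 1) => Bd + Nn * (C * (κ + lev Bd Nn C κ j)) + 1 + lev Bd Nn C κ j

/-- The thresholds. -/
def thr (Bd Nn C κ : ℕ) : ℕ → ℕ
  | 0 => κ
  | (j + 1) => κ + lev Bd Nn C κ j

theorem lev_ge (Bd Nn C κ j : ℕ) :
    Bd + Nn * (C * thr Bd Nn C κ j) < lev Bd Nn C κ j := by
  cases j <;> simp [lev, thr] <;> omega

theorem lev_mono (Bd Nn C κ : ℕ) : Monotone (lev Bd Nn C κ) := by
  apply monotone_nat_of_le_succ
  intro j
  simp only [lev]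
  omega

theorem thr_ge (Bd Nn C κ j : ℕ) : κ ≤ thr Bd Nn C κ j := by
  cases j <;> simp [thr]

theorem lev_lt_thr (Bd Nn C κ : ℕ) {r j : ℕ} (h : r < j) :
    κ + lev Bd Nn C κ r ≤ thr Bd Nn C κ j := by
  cases j with
  | zero => omega
  | succ j =>
    simp only [thr]
    have := lev_mono Bd Nn C κ (show r ≤ j by omega)
    omega

theorem vec_ends {p : Link} {m : ℕ} (h : 1 ≤ Link.vec p m) : m = p.1 ∨ m = p.2.1 := by
  by_contra hc
  push Not at hc
  simp only [Link.vec, Finsupp.add_apply] at h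
  rw [Finsupp.single_eq_of_ne hc.1, Finsupp.single_eq_of_ne hc.2] at h
  omega

theorem xs_add (N : ℕ) (e f : ℕ → ℤ) (j : ℕ) : xs N (fun i => e i + f i) j = xs N e j + xs N f j := by
  unfold xs
  rw [← Finset.sum_add_distrib]
  apply Finset.sum_congr rfl
  intro q _
  split_ifs <;> ring

theorem ys_add (N : ℕ) (e f : ℕ → ℤ) (j : ℕ) : ys N (fun i => e i + f i) j = ys N e j + ys N f j := by
  unfold ys
  rw [← Finset.sum_add_distrib]
  apply Finset.sum_congr rfl
  intro q _
  split_ifs <;> ring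

theorem ms_add (N : ℕ) (e f : ℕ → ℤ) (j : ℕ) : ms N (fun i => e i + f i) j = ms N e j + ms N f j := by
  unfold ms
  ring

theorem xs_mul (N : ℕ) (t : ℤ) (e : ℕ → ℤ) (j : ℕ) : xs N (fun i => t * e i) j = t * xs N e j := by
  unfold xs
  rw [Finset.mul_sum]
  apply Finset.sum_congr rfl
  intro q _
  split_ifs <;> ring

theorem ys_mul (N : ℕ) (t : ℤ) (e : ℕ → ℤ) (j : ℕ) : ys N (fun i => t * e i) j = t * ys N e j := by
  unfold ys
  rw [Finset.mul_sum]
  apply Finset.sum_congr rfl
  intro q _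
  split_ifs <;> ring

theorem ms_mul (N : ℕ) (t : ℤ) (e : ℕ → ℤ) (j : ℕ) : ms N (fun i => t * e i) j = t * ms N e j := by
  unfold ms
  ring

theorem xs_sum (N : ℕ) (S : Finset ℕ) (t : ℕ → ℤ) (Δ : ℕ → ℕ → ℤ) (j : ℕ) :
    xs N (fun i => ∑ r ∈ S, t r * Δ r i) j = ∑ r ∈ S, t r * xs N (Δ r) j := by
  induction S using Finset.cons_induction with
  | empty => simp [xs]
  | cons r S hr ih =>
    simp only [Finset.sum_cons]
    rw [xs_add, xs_mul, ih]

theorem ys_sum (N : ℕ) (S : Finset ℕ) (t : ℕ → ℤ) (Δ : ℕ → ℕ → ℤ) (j : ℕ) :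
    ys N (fun i => ∑ r ∈ S, t r * Δ r i) j = ∑ r ∈ S, t r * ys N (Δ r) j := by
  induction S using Finset.cons_induction with
  | empty => simp [ys]
  | cons r S hr ih =>
    simp only [Finset.sum_cons]
    rw [ys_add, ys_mul, ih]

theorem ms_sum (N : ℕ) (S : Finset ℕ) (t : ℕ → ℤ) (Δ : ℕ → ℕ → ℤ) (j : ℕ) :
    ms N (fun i => ∑ r ∈ S, t r * Δ r i) j = ∑ r ∈ S, t r * ms N (Δ r) j := by
  induction S using Finset.cons_induction with
  | empty => simp [ms]
  | cons r S hr ih =>
    simp only [Finset.sum_cons]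
    rw [ms_add, ms_mul, ih]

theorem getD_bound (w : List (D × ℤ)) (D0 : ℕ)
    (hD : ∀ x ∈ w, x.1.1.natAbs ≤ D0 ∧ x.1.2.natAbs ≤ D0 ∧ x.2.natAbs ≤ D0) (j : ℕ) :
    (w.getD j ((0, 0), 0)).1.1.natAbs ≤ D0 ∧ (w.getD j ((0, 0), 0)).1.2.natAbs ≤ D0 ∧
      (w.getD j ((0, 0), 0)).2.natAbs ≤ D0 := by
  by_cases hj : j < w.length
  · rw [List.getD_eq_getElem _ _ hj]
    exact hD _ (List.getElem_mem hj)
  · rw [List.getD_eq_default _ _ (by omega)]
    simp

theorem expo_zero (U : ℕ → ℕ) (w : List (D × ℤ)) {i : ℕ}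
    (h : w.length * (4 * 2 ^ w.length + 2) ≤ i) : expo U w i = 0 := by
  unfold expo
  have : w.length ≤ i / (4 * 2 ^ w.length + 2) := by
    rw [Nat.le_div_iff_mul_le (by positivity)]
    exact h
  simp only [this, if_true]

theorem expo_high (U : ℕ → ℕ) (w : List (D × ℤ)) (D0 : ℕ)
    (hD : ∀ x ∈ w, x.1.1.natAbs ≤ D0 ∧ x.1.2.natAbs ≤ D0 ∧ x.2.natAbs ≤ D0) {i : ℕ}
    (h : i / (4 * 2 ^ w.length + 2) < w.length)
    (hq : i % (4 * 2 ^ w.length + 2) < 4 * 2 ^ (w.length - 1 - i / (4 * 2 ^ w.length + 2))) :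
    U (i / (4 * 2 ^ w.length + 2)) ≤ expo U w i ∧
      expo U w i ≤ U (i / (4 * 2 ^ w.length + 2)) + D0 := by
  obtain ⟨h1, h2, h3⟩ := getD_bound w D0 hD (i / (4 * 2 ^ w.length + 2))
  unfold expo
  simp only [not_le.mpr h, if_false, hq, if_true]
  constructor
  · omega
  · split_ifs <;> omega

theorem expo_low (U : ℕ → ℕ) (w : List (D × ℤ)) (D0 : ℕ)
    (hD : ∀ x ∈ w, x.1.1.natAbs ≤ D0 ∧ x.1.2.natAbs ≤ D0 ∧ x.2.natAbs ≤ D0) {i : ℕ}
    (hq : ¬ (i / (4 * 2 ^ w.length + 2) < w.length ∧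
      i % (4 * 2 ^ w.length + 2) < 4 * 2 ^ (w.length - 1 - i / (4 * 2 ^ w.length + 2)))) :
    expo U w i ≤ D0 := by
  obtain ⟨h1, h2, h3⟩ := getD_bound w D0 hD (i / (4 * 2 ^ w.length + 2))
  unfold expo
  by_cases h : w.length ≤ i / (4 * 2 ^ w.length + 2)
  · simp [h]
  · have hq' : ¬ i % (4 * 2 ^ w.length + 2) <
        4 * 2 ^ (w.length - 1 - i / (4 * 2 ^ w.length + 2)) := fun hh => hq ⟨by omega, hh⟩
    simp only [h, if_false, hq']
    split_ifs <;> omega

theorem main {G : Type} [Group G] (hG : CoCF G) {a b c : G} (h : WTriple a b c) : False := by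
  classical
  obtain ⟨n, f, hf, g, hg⟩ := hG
  choose X0 hX0 using hf
  have hX0' : ∀ x : G, ((X0 x).map f).prod = x := hX0
  set X : Fin 6 → List (Fin n) := fun l => X0 (val a b c l) with hXdef
  have hX : ∀ l, ((X l).map f).prod = val a b c l := fun l => hX0' _
  have hXne : ∀ l, X l ≠ [] := by
    intro l hl
    have := hX l
    rw [hl] at this
    exact h.val_ne l (by simpa using this.symm)
  have hmem : ∀ u : List (Fin n), u ∈ g.language ↔ (u.map f).prod ≠ 1 := by
    intro u
    rw [hg]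
    rfl
  obtain ⟨C, hPL⟩ := parikh g X hXne
  -- the colours
  let 𝒱 : Finset D := ((Finset.Icc (-(C : ℤ) ^ 2) ((C : ℤ) ^ 2)) ×ˢ
    (Finset.Icc (-(C : ℤ) ^ 2) ((C : ℤ) ^ 2))).erase 0
  have h𝒱 : ∀ x : D, x ≠ 0 → |x.1| ≤ (C : ℤ) ^ 2 → |x.2| ≤ (C : ℤ) ^ 2 → x ∈ 𝒱 := by
    intro x hx h1 h2
    rw [abs_le] at h1 h2
    simp only [𝒱, Finset.mem_erase, Finset.mem_product, Finset.mem_Icc]
    exact ⟨hx, h1, h2⟩
  obtain ⟨w, hdsp, hnv, B, hB0, hB⟩ := hard 𝒱 (by simp [𝒱])
  set R' := w.length with hR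
  set N := 4 * 2 ^ R' with hN
  set M := R' * (N + 2) with hM
  obtain ⟨Bd, hBd⟩ := hPL M (lett N)
  obtain ⟨D0, hD0⟩ : ∃ D0 : ℕ, ∀ x ∈ w, x.1.1.natAbs ≤ D0 ∧ x.1.2.natAbs ≤ D0 ∧
      x.2.natAbs ≤ D0 := by
    refine ⟨(w.map fun x => x.1.1.natAbs + x.1.2.natAbs + x.2.natAbs).sum, ?_⟩
    intro x hx
    have : x.1.1.natAbs + x.1.2.natAbs + x.2.natAbs ≤
        (w.map fun x => x.1.1.natAbs + x.1.2.natAbs + x.2.natAbs).sum :=
      List.single_le_sum (by simp) _ (List.mem_map_of_mem hx)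
    omega
  set Nn := M * M * ((C + 1) * (C + 1)) with hNn
  set κ := R' * B.toNat * C + D0 + 1 with hκ
  set U := lev Bd Nn C κ with hU
  let e : Vec := Finsupp.onFinset (Finset.range M) (expo U w) (by
    intro i hi
    rw [Finset.mem_range]
    by_contra hc
    exact hi (expo_zero U w (not_lt.mp hc)))
  have he : ∀ i, e i = expo U w i := fun i => rfl
  have heM : ∀ i, M ≤ i → e i = 0 := fun i hi => expo_zero U w hi
  -- the word is nontrivial
  have hword : ∀ e' : ℕ → ℕ, ((bword X (lett N) M e').map f).prod =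
      ev a b c (unword N R' fun i => (e' i : ℤ)) := fun e' =>
    eval_bword h.comm f X hX N R' e'
  have hin : bword X (lett N) M e ∈ g.language := by
    rw [hmem, hword]
    intro h1
    have h2 : (unword N R' fun i => ((e i : ℕ) : ℤ)) = w := unword_expo U w
    rw [h2] at h1
    have h3 := h.alive w h1
    -- choose a prime
    have hq : orderOf c ≠ 1 := by
      rw [Ne, orderOf_eq_one_iff]
      exact h.ne
    obtain ⟨p, hp, hpq⟩ := Nat.exists_prime_and_dvd hq
    obtain ⟨x, hx⟩ := hnv p hp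
    apply hx
    have h4 : (orderOf c : ℤ) ∣ (cfg w).coeff x := orderOf_dvd_iff_zpow_eq_one.mpr (h3 x)
    exact (Int.natCast_dvd_natCast.mpr hpq).trans h4
  obtain ⟨b', P, k, hb', hP, hNC, hek, hk'⟩ := hBd e heM hin
  have hPcard : P.card ≤ Nn := card_links M C P hP
  -- local changes
  have hlocal : ∀ j, j < R' → ∃ (q : ℕ) (z : Link → ℤ), q + 1 < N ∧
      (∀ p, z p ≠ 0 → p ∈ P ∧ R' * B.toNat * C ≤ k p) ∧ (∀ p, |z p| ≤ C) ∧
      (∀ m, m ≠ j * (N + 2) + q → m ≠ j * (N + 2) + q + 1 →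
        ∑ p ∈ P, z p * (Link.vec p m : ℤ) = 0) ∧
      ¬ (∑ p ∈ P, z p * (Link.vec p (j * (N + 2) + q) : ℤ) = 0 ∧
        ∑ p ∈ P, z p * (Link.vec p (j * (N + 2) + q + 1) : ℤ) = 0) ∧
      |∑ p ∈ P, z p * (Link.vec p (j * (N + 2) + q) : ℤ)| ≤ (C : ℤ) ^ 2 ∧
      |∑ p ∈ P, z p * (Link.vec p (j * (N + 2) + q + 1) : ℤ)| ≤ (C : ℤ) ^ 2 := by
    intro j hj
    have hnN : 4 * 2 ^ (R' - 1 - j) ≤ N := by
      rw [hN]
      exact Nat.mul_le_mul_left _ (Nat.pow_le_pow_right (by norm_num) (by omega))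
    have hn2 : 2 ≤ 4 * 2 ^ (R' - 1 - j) := by
      have : 1 ≤ 2 ^ (R' - 1 - j) := Nat.one_le_two_pow
      omega
    obtain ⟨i, hi1, hi2, z, hz1, hz2, hz3, hz4, hz5, hz6⟩ := local_change C
      (R' * B.toNat * C) P k hNC (fun p hp => ⟨(hP p hp).1, (hP p hp).2.2⟩)
      (j * (N + 2)) (4 * 2 ^ (R' - 1 - j)) hn2
      ((Finset.range (R' * (N + 2))).filter fun i => j < i / (N + 2) ∧
        i % (N + 2) < 4 * 2 ^ (R' - 1 - i / (N + 2)))
      (card_high R' j hj)
      (by
        intro o ho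
        rw [Finset.mem_filter] at ho
        intro hc
        have h1 : o / (N + 2) < j + 1 := by
          rw [Nat.div_lt_iff_lt_mul (by omega)]
          calc o < j * (N + 2) + 4 * 2 ^ (R' - 1 - j) := hc.2
            _ ≤ j * (N + 2) + (N + 2) := by omega
            _ = (j + 1) * (N + 2) := by ring
        omega)
      (by
        intro i hi1 hi2
        have hdiv : i / (N + 2) = j := by
          apply Nat.div_eq_of_lt_le
          · exact hi1
          · calc i < j * (N + 2) + 4 * 2 ^ (R' - 1 - j) := hi2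
              _ ≤ j * (N + 2) + (N + 2) := by omega
              _ = (j + 1) * (N + 2) := by ring
        have hmod : i % (N + 2) < 4 * 2 ^ (R' - 1 - i / (N + 2)) := by
          have := Nat.div_add_mod i (N + 2)
          rw [hdiv] at this ⊢
          have h3 : (N + 2) * j = j * (N + 2) := by ring
          omega
        have hei : U j ≤ e i := by
          have := (expo_high U w D0 hD0 (i := i) (by rw [← hR, ← hN, hdiv]; exact hj) hmod).1
          rw [← hR, ← hN, hdiv] at this
          exact this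
        have hbig := exists_big C Bd (thr Bd Nn C κ j) b' P k hb' (fun p hp => (hP p hp).2.2) i
          (by
            rw [← hek]
            have h1 := lev_ge Bd Nn C κ j
            have h2 : P.card * (C * thr Bd Nn C κ j) ≤ Nn * (C * thr Bd Nn C κ j) :=
              Nat.mul_le_mul_right _ hPcard
            rw [← hU] at h1
            omega)
        obtain ⟨p, hp, hkp, hvp⟩ := hbig
        refine ⟨p, hp, ?_, hvp, ?_⟩
        · have := thr_ge Bd Nn C κ j
          omega
        · intro m hm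
          have hem : thr Bd Nn C κ j ≤ e m := by
            rw [hek]
            exact ends_big _ b' P k hp hkp hm
          have hmM : m < M := by
            rcases vec_ends hm with h1 | h1
            · have := hP p hp
              omega
            · have := hP p hp
              omega
          have hthr := thr_ge Bd Nn C κ j
          by_cases hlow : (m / (N + 2) < R' ∧ m % (N + 2) < 4 * 2 ^ (R' - 1 - m / (N + 2)))
          · have hup := (expo_high U w D0 hD0 (i := m) hlow.1 hlow.2).2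
            rw [← hR, ← hN] at hup
            rw [he] at hem
            rcases lt_trichotomy (m / (N + 2)) j with h1 | h1 | h1
            · exfalso
              have := lev_lt_thr Bd Nn C κ h1
              rw [← hU] at this
              omega
            · left
              have hdm := Nat.div_add_mod m (N + 2)
              rw [h1] at hdm hlow
              have h3 : (N + 2) * j = j * (N + 2) := by ring
              omega
            · right
              rw [Finset.mem_filter, Finset.mem_range]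
              exact ⟨hmM, h1, hlow.2⟩
          · exfalso
            have := expo_low U w D0 hD0 (i := m) hlow
            rw [he] at hem
            omega)
    obtain ⟨q, rfl⟩ := Nat.exists_eq_add_of_le hi1
    exact ⟨q, z, by omega, hz1, hz2, hz3, hz4, hz5, hz6⟩
  choose! q z hq hz1 hz2 hz3 hz4 hz5 hz6 using hlocal
  set Δ : ℕ → ℕ → ℤ := fun j m => ∑ p ∈ P, z j p * (Link.vec p m : ℤ) with hΔ
  have hrow : ∀ j, j < R' → ((xs N (Δ j) j, ys N (Δ j) j) : D) ≠ 0 ∧
      |xs N (Δ j) j| ≤ (C : ℤ) ^ 2 ∧ |ys N (Δ j) j| ≤ (C : ℤ) ^ 2 ∧ ms N (Δ j) j = 0 ∧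
      ∀ j', j' ≠ j → xs N (Δ j) j' = 0 ∧ ys N (Δ j) j' = 0 ∧ ms N (Δ j) j' = 0 := by
    intro j hj
    exact row_colour N j (q j) (hq j hj) (Δ j) _ (hz3 j hj) (hz4 j hj) (hz5 j hj) (hz6 j hj)
  let χ : ℕ → D := fun j => (xs N (Δ j) j, ys N (Δ j) j)
  let cw : List (D × ℤ × D) := w.mapIdx fun j x => (x.1, x.2, χ j)
  have hcw : uncol cw = w := by
    unfold uncol
    apply List.ext_getElem
    · simp [cw]
    · intro j h1 h2
      simp [cw]
  have hcol : ∀ x ∈ cw, x.2.2 ∈ 𝒱 := by
    intro x hx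
    rw [List.mem_mapIdx] at hx
    obtain ⟨j, hj, rfl⟩ := hx
    obtain ⟨h1, h2, h3, -⟩ := hrow j hj
    exact h𝒱 _ h1 h2 h3
  obtain ⟨t, ht, hcfg, hdsp'⟩ := (hB cw hcw hcol).explicit hB0
  have hmod : (cw.mapIdx fun j x => (x.1 + t j • x.2.2, x.2.1)) =
      w.mapIdx fun j x => (x.1 + t j • χ j, x.2) := by
    simp [cw, List.mapIdx_mapIdx, Function.comp_def]
  rw [hmod] at hcfg hdsp'
  rw [hcw, hdsp, add_zero] at hdsp'
  -- the new multiplicities
  set k' : Link → ℕ := fun p => ((k p : ℤ) + ∑ j ∈ Finset.range R', t j * z j p).toNat with hk'def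
  have hk'eq : ∀ p, (k' p : ℤ) = (k p : ℤ) + ∑ j ∈ Finset.range R', t j * z j p := by
    intro p
    rw [hk'def]
    apply Int.toNat_of_nonneg
    by_cases hp : ∀ j ∈ Finset.range R', z j p = 0
    · rw [Finset.sum_eq_zero fun j hj => by rw [hp j hj, mul_zero]]
      positivity
    · push Not at hp
      obtain ⟨j₀, hj₀, hne⟩ := hp
      have h1 := (hz1 j₀ (Finset.mem_range.mp hj₀) p hne).2
      have h2 : |∑ j ∈ Finset.range R', t j * z j p| ≤ R' * (B * C) := by
        calc |∑ j ∈ Finset.range R', t j * z j p|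
            ≤ ∑ j ∈ Finset.range R', |t j * z j p| := Finset.abs_sum_le_sum_abs _ _
          _ ≤ ∑ _j ∈ Finset.range R', B * C := by
              apply Finset.sum_le_sum
              intro j hj
              rw [abs_mul]
              exact mul_le_mul (ht j) (hz2 j (Finset.mem_range.mp hj) p) (abs_nonneg _) hB0
          _ = R' * (B * C) := by simp
      have h3 : ((R' * B.toNat * C : ℕ) : ℤ) ≤ k p := by exact_mod_cast h1
      have h4 : ((R' * B.toNat * C : ℕ) : ℤ) = R' * (B * C) := by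
        push_cast
        rw [Int.toNat_of_nonneg hB0]
        ring
      rw [abs_le] at h2
      linarith [h2.1]
  have hlin : ∀ i, ((lin b' P k' i : ℕ) : ℤ) =
      ((e i : ℕ) : ℤ) + ∑ j ∈ Finset.range R', t j * Δ j i := by
    intro i
    rw [hek]
    simp only [lin, Finsupp.add_apply, Finsupp.finsetSum_apply, Finsupp.smul_apply, smul_eq_mul]
    push_cast
    simp only [hΔ, hk'eq, add_mul, Finset.sum_add_distrib, Finset.mul_sum]
    rw [add_assoc, add_right_inj, add_right_inj]
    rw [Finset.sum_comm]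
    apply Finset.sum_congr rfl
    intro p _
    rw [Finset.sum_mul]
    apply Finset.sum_congr rfl
    intro j _
    ring
  have hnew : (unword N R' fun i => ((lin b' P k' i : ℕ) : ℤ)) =
      w.mapIdx fun j x => (x.1 + t j • χ j, x.2) := by
    have h2 : (unword N R' fun i => ((e i : ℕ) : ℤ)) = w := unword_expo U w
    apply List.ext_getElem
    · simp [unword, hR]
    · intro j h3 h4
      have hj : j < R' := by simpa [unword] using h3
      have h5 : w[j]'(by omega) =
          ((xs N (fun i => ((e i : ℕ) : ℤ)) j, ys N (fun i => ((e i : ℕ) : ℤ)) j),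
            ms N (fun i => ((e i : ℕ) : ℤ)) j) := by
        have := List.getElem_of_eq h2.symm (i := j) (by omega)
        rw [this]
        simp [unword]
      simp only [unword, List.getElem_map, List.getElem_range, List.getElem_mapIdx, h5]
      have hfun : (fun i => ((lin b' P k' i : ℕ) : ℤ)) =
          fun i => ((e i : ℕ) : ℤ) + (fun i => ∑ j ∈ Finset.range R', t j * Δ j i) i :=
        funext hlin
      rw [hfun, xs_add, ys_add, ms_add, xs_sum, ys_sum, ms_sum]
      have hx : ∑ r ∈ Finset.range R', t r * xs N (Δ r) j = t j * xs N (Δ j) j := by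
        apply Finset.sum_eq_single_of_mem j (Finset.mem_range.mpr hj)
        intro r hr hrj
        rw [((hrow r (Finset.mem_range.mp hr)).2.2.2.2 j (Ne.symm hrj)).1, mul_zero]
      have hy : ∑ r ∈ Finset.range R', t r * ys N (Δ r) j = t j * ys N (Δ j) j := by
        apply Finset.sum_eq_single_of_mem j (Finset.mem_range.mpr hj)
        intro r hr hrj
        rw [((hrow r (Finset.mem_range.mp hr)).2.2.2.2 j (Ne.symm hrj)).2.1, mul_zero]
      have hm : ∑ r ∈ Finset.range R', t r * ms N (Δ r) j = 0 := by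
        apply Finset.sum_eq_zero
        intro r hr
        by_cases hrj : r = j
        · subst hrj
          rw [(hrow r hj).2.2.2.1, mul_zero]
        · rw [((hrow r (Finset.mem_range.mp hr)).2.2.2.2 j (Ne.symm hrj)).2.2, mul_zero]
      rw [hx, hy, hm, add_zero]
      simp [χ]
  have hfin := hk' k'
  rw [hmem, hword, hnew] at hfin
  exact hfin (h.kill _ hcfg hdsp')

/-- No group with context-free co-word problem contains a restricted wreath product `A ≀ B` with
`A` nontrivial and `ℤ² ≤ B`. -/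
theorem no_wreath {A B G : Type} [Group A] [Group B] [Group G] (hA : Nontrivial A)
    (i : Multiplicative (ℤ × ℤ) →* B) (hi : Function.Injective i) (hG : CoCF G)
    (φ : restricted A B →* G) : ¬ Function.Injective φ := by
  intro hφ
  obtain ⟨a, b, c, h⟩ := exists_wtriple_restricted A B hA i hi
  exact main hG (h.map φ hφ)

end Pool.Helper49.WR
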