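import Pool.Agent.Helper49.WR.CFGraded
import Pool.Agent.Helper49.WR.AbsPL

/-!
# WR-I: exponents of block words in a context-free language

Let `S` be the (finite) set of the suffixes of the words `X l` (`Λ` is finite), `F` from
`exists_forms`, `K = |S| |F| |S|`, `C = K 2^K`.

Given `M`, `ℓ`: if `M = 0` then `e = 0` and we take `b = 0`, `P = ∅`.  Otherwise let
`Bd = 2 ^ card (J × Finset J)` for the type `J = CT g (range M ×ˢ S) F`.  If
`bword X ℓ M e ∈ g.language` then `Yields g [nonterminal initial] (bword X ℓ M e)`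
(`Yields.of_derives` and `ContextFreeGrammar.mem_language_iff`); `Run.exists_run` and
`cfWG_complete` give a derivation of type `((0, []), [initial], (b, []))` and weight `e`, and
`abstractPL` (with `cfWG_graded`) gives `b`, `P`, `k`.  (`b i ≤ b.degree` is `Finsupp.le_degree`.)
For every `k'` the derivation of weight `lin b P k'` gives by `cfWG_sound` a word `u` with
`Yields g [initial] u`, `Run (0, []) u (lin b P k') (b, [])`, and `Run.word` says
`u = bword X ℓ M (lin b P k')`; conclude by `Yields.derives`.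
The instances: everything with `open Classical`.
-/

set_option autoImplicit false

namespace Pool.Helper49.WR

open Pool.Agent.Helper1.FIM (Yields)

private theorem finite_suffix95 {T Λ : Type} [Finite Λ] (X : Λ → List T) :
    {s : List T | ∃ l, s <:+ X l}.Finite := by
  have h1 : {s : List T | ∃ l, s <:+ X l} = ⋃ l, {s | s ∈ (X l).tails} := by
    ext s
    simp [List.mem_tails]
  rw [h1]
  exact Set.finite_iUnion fun l => List.finite_toSet _

open Classical in
private theorem parikh_pos95 {T Λ : Type} (g : ContextFreeGrammar.{0} T) (X : Λ → List T)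
    (hX : ∀ l, X l ≠ []) (S : Finset (List T)) (hS : ∀ l s, s <:+ X l → s ∈ S)
    (F : Finset (List (Symbol T g.NT))) (hF : FormsOK g F) (M : ℕ) (hM : 0 < M) (ℓ : ℕ → Λ)
    (e : Vec) (he : ∀ i, M ≤ i → e i = 0) (hw : bword X ℓ M e ∈ g.language) :
    ∃ (b : Vec) (P : Finset Link) (k : Link → ℕ),
      (∀ i, b i ≤ 2 ^ Fintype.card (CT g (Finset.range M ×ˢ S) F ×
        Finset (CT g (Finset.range M ×ˢ S) F))) ∧
      (∀ p ∈ P, p.1 ≤ p.2.1 ∧ p.2.1 < M ∧
        p.2.2.1 + p.2.2.2 ≤ S.card * F.card * S.card * 2 ^ (S.card * F.card * S.card)) ∧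
      NC P ∧ e = lin b P k ∧ ∀ k' : Link → ℕ, bword X ℓ M (lin b P k') ∈ g.language := by
  have hl0 : Λ := ℓ 0
  have hnil : ([] : List T) ∈ S := hS hl0 [] (List.nil_suffix)
  have hy : Yields g [Symbol.nonterminal g.initial] (bword X ℓ M e) :=
    Yields.of_derives ((ContextFreeGrammar.mem_language_iff g _).1 hw)
  obtain ⟨b', hb', hrun⟩ := Run.exists_run (X := X) (ℓ := ℓ) hX hM e he
  have hq : ((0, []) : ℕ × List T) ∈ Finset.range M ×ˢ S :=
    Finset.mem_product.2 ⟨Finset.mem_range.2 hM, hnil⟩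
  have hq' : ((b', []) : ℕ × List T) ∈ Finset.range M ×ˢ S :=
    Finset.mem_product.2 ⟨Finset.mem_range.2 hb', hnil⟩
  obtain ⟨U, n, hder⟩ := cfWG_complete (ℓ := ℓ) (M := M) hS hF hy hF.init hrun hq
    ⟨hl0, List.nil_suffix⟩ hq'
  obtain ⟨b, P, k, h1, h2, h3, h4, h5⟩ := abstractPL (cfWG_graded g X ℓ M S F) hder
  refine ⟨b, P, k, fun i => (Finsupp.le_degree i b).trans h1, fun p hp => ?_, h3, h4, fun k' => ?_⟩
  · obtain ⟨-, h6, h7, h8⟩ := h2 p hp
    exact ⟨h6, lt_of_le_of_lt h7 hb', h8⟩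
  · obtain ⟨U', n', hd⟩ := h5 k'
    obtain ⟨u, hu, hr⟩ := cfWG_sound hd
    have h6 := hr.word.2
    rw [List.nil_append] at h6
    rw [← h6]
    exact (ContextFreeGrammar.mem_language_iff g _).2 hu.derives

theorem parikh {T Λ : Type} [Finite Λ] (g : ContextFreeGrammar.{0} T) (X : Λ → List T)
    (hX : ∀ l, X l ≠ []) :
    ∃ C : ℕ, ∀ (M : ℕ) (ℓ : ℕ → Λ), ∃ Bd : ℕ, ∀ e : Vec, (∀ i, M ≤ i → e i = 0) →
      bword X ℓ M e ∈ g.language →
      ∃ (b : Vec) (P : Finset Link) (k : Link → ℕ),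
        (∀ i, b i ≤ Bd) ∧
        (∀ p ∈ P, p.1 ≤ p.2.1 ∧ p.2.1 < M ∧ p.2.2.1 + p.2.2.2 ≤ C) ∧
        NC P ∧ e = lin b P k ∧ ∀ k' : Link → ℕ, bword X ℓ M (lin b P k') ∈ g.language := by
  obtain ⟨F, hF⟩ := exists_forms g
  have hS : ∀ l s, s <:+ X l → s ∈ (finite_suffix95 X).toFinset := fun l s h =>
    (finite_suffix95 X).mem_toFinset.2 ⟨l, h⟩
  set S := (finite_suffix95 X).toFinset
  refine ⟨S.card * F.card * S.card * 2 ^ (S.card * F.card * S.card), fun M ℓ => ?_⟩
  rcases Nat.eq_zero_or_pos M with hM | hM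
  · subst hM
    refine ⟨0, fun e he hw => ⟨0, ∅, 0, by simp, by simp, by simp [NC], ?_, fun k' => ?_⟩⟩
    · ext i
      simp [lin, he i (Nat.zero_le i)]
    · simpa [bword] using hw
  · exact ⟨_, fun e he hw => parikh_pos95 g X hX S hS F hF M hM ℓ e he hw⟩

end Pool.Helper49.WR
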