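import Pool.Agent.Helper49.WR.AutoDefs

/-!
# WR-G: runs of the automaton

Inductions on runs.

* `Run.split`: induction on `u` (generalizing the state), cases on the run.
* `Run.append`: induction on the first run.
* `Run.fst_le`: the block number does not decrease; `Run.lt`: it stays below `M`;
  `Run.mem_suffix`: the second component of a state stays a suffix of some `X λ`
  (or is a suffix of the second component at the start).
* `Run.word`: a run from `(a, s)` to `(b, [])` reads `s` and then the block word of its exponent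
  vector `e`, and `e` is supported in `[a, b]` and below `M`.  Induction; `start` case:
  `u' = s ++ bword e'` with `e'` supported in `[b', M)`, and
  `bword (single b' 1 + e') = X (ℓ b') ++ bword e' = t :: s ++ bword e'`, because the blocks before
  `b'` are empty.  (Prove first: if `e'` vanishes below `b' < M` then
  `bword X ℓ M (single b' 1 + e') = X (ℓ b') ++ bword X ℓ M e'`, e.g. by splitting
  `List.range M = List.range b' ++ (List.range' b' (M - b'))` or by induction on `M`: write
  `bword X ℓ (M+1) e = bword X ℓ M e ++ (List.replicate (e M) (X (ℓ M))).flatten`.)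
* `Run.exists_run`: every block word with exponents vanishing from `M` on is read from `(0, [])`
  to some `(b, [])`, `b < M`.  Induction on `m ≤ M`: `bword X ℓ m e` is read from `(0, [])` to some
  `(b, [])` with `b < max 1 m` and weight `e` restricted to `[0, m)`; then append
  `X (ℓ m)^{e m}`, which for `e m ≠ 0` leads from `(b, [])` to `(m, [])` (here `X (ℓ m) ≠ []` is
  used; one copy: `start`, then `letter`s).
* `Run.single_letter`: the weight of a one-letter run.
-/

set_option autoImplicit false

namespace Pool.Helper49.WR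

variable {T Λ : Type} {X : Λ → List T} {ℓ : ℕ → Λ} {M : ℕ}

theorem Run.split {q q'' : ℕ × List T} {u v : List T} {e : Vec}
    (h : Run X ℓ M q (u ++ v) e q'') :
    ∃ q' e₁ e₂, Run X ℓ M q u e₁ q' ∧ Run X ℓ M q' v e₂ q'' ∧ e = e₁ + e₂ := by
  induction u generalizing q e with
  | nil => exact ⟨q, 0, e, Run.nil q, h, (zero_add e).symm⟩
  | cons t u ih =>
    rw [List.cons_append] at h
    cases h with
    | letter h =>
      obtain ⟨q', e₁, e₂, h1, h2, h3⟩ := ih h
      exact ⟨q', e₁, e₂, Run.letter h1, h2, h3⟩
    | start hab hb hX h =>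
      obtain ⟨q', e₁, e₂, h1, h2, h3⟩ := ih h
      exact ⟨q', _, e₂, Run.start hab hb hX h1, h2, by rw [h3, add_assoc]⟩

theorem Run.append {q q' q'' : ℕ × List T} {u v : List T} {e₁ e₂ : Vec}
    (h₁ : Run X ℓ M q u e₁ q') (h₂ : Run X ℓ M q' v e₂ q'') :
    Run X ℓ M q (u ++ v) (e₁ + e₂) q'' := by
  induction h₁ with
  | nil q =>
    rw [zero_add]
    exact h₂
  | letter h ih => exact Run.letter (ih h₂)
  | start hab hb hX h ih =>
    rw [add_assoc]
    exact Run.start hab hb hX (ih h₂)

theorem Run.fst_le {q q' : ℕ × List T} {u : List T} {e : Vec} (h : Run X ℓ M q u e q') :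
    q.1 ≤ q'.1 := by
  induction h with
  | nil q => exact le_refl _
  | letter h ih => exact ih
  | start hab hb hX h ih => exact hab.trans ih

theorem Run.lt {q q' : ℕ × List T} {u : List T} {e : Vec} (h : Run X ℓ M q u e q')
    (hq : q.1 < M) : q'.1 < M := by
  induction h with
  | nil q => exact hq
  | letter h ih => exact ih hq
  | start hab hb hX h ih => exact ih hb

theorem Run.mem_suffix {q q' : ℕ × List T} {u : List T} {e : Vec} (h : Run X ℓ M q u e q')
    (hq : ∃ l, q.2 <:+ X l) : ∃ l, q'.2 <:+ X l := by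
  induction h with
  | nil q => exact hq
  | letter h ih =>
    obtain ⟨l, hl⟩ := hq
    exact ih ⟨l, (List.suffix_cons _ _).trans hl⟩
  | start hab hb hX h ih => exact ih ⟨_, by rw [hX]; exact List.suffix_cons _ _⟩

private theorem bword_succ2 (m : ℕ) (e : ℕ → ℕ) :
    bword X ℓ (m + 1) e = bword X ℓ m e ++ (List.replicate (e m) (X (ℓ m))).flatten := by
  unfold bword
  rw [List.range_succ, List.flatMap_append, List.flatMap_singleton]

private theorem bword_eq_nil2 (m : ℕ) (e : ℕ → ℕ) (h : ∀ i, i < m → e i = 0) :
    bword X ℓ m e = [] := by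
  induction m with
  | zero => rfl
  | succ m ih =>
    rw [bword_succ2, ih fun i hi => h i (by omega), h m (by omega)]
    rfl

private theorem bword_single_add2 (m b : ℕ) (e : Vec) (h : ∀ i, i < b → e i = 0) (hb : b < m) :
    bword X ℓ m (Finsupp.single b 1 + e : Vec) = X (ℓ b) ++ bword X ℓ m e := by
  induction m with
  | zero => omega
  | succ m ih =>
    rw [bword_succ2, bword_succ2]
    rcases Nat.lt_or_ge b m with hbm | hbm
    · rw [ih hbm, Finsupp.add_apply, Finsupp.single_eq_of_ne (by omega), zero_add,
        List.append_assoc]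
    · have hbm' : b = m := by omega
      subst hbm'
      have h1 : ∀ i, i < b → (Finsupp.single b 1 + e : Vec) i = 0 := by
        intro i hi
        rw [Finsupp.add_apply, Finsupp.single_eq_of_ne (by omega), zero_add]
        exact h i hi
      rw [bword_eq_nil2 b _ h1, bword_eq_nil2 b _ h, Finsupp.add_apply, Finsupp.single_eq_same,
        Nat.add_comm 1 (e b), List.replicate_succ, List.flatten_cons, List.nil_append,
        List.nil_append]

private theorem Run.word2 {q q' : ℕ × List T} {u : List T} {e : Vec} (h : Run X ℓ M q u e q')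
    (hq : q'.2 = []) :
    (∀ i, e i ≠ 0 → q.1 ≤ i ∧ i ≤ q'.1 ∧ i < M) ∧ u = q.2 ++ bword X ℓ M e := by
  induction h with
  | nil q =>
    refine ⟨fun i hi => (hi rfl).elim, ?_⟩
    rw [hq, bword_eq_nil2 M ((0 : Vec) : ℕ → ℕ) fun i _ => rfl]
    rfl
  | letter h ih =>
    obtain ⟨h1, h2⟩ := ih hq
    refine ⟨h1, ?_⟩
    rw [h2]
    rfl
  | @start a b t s u e q' hab hb hX h ih =>
    obtain ⟨h1, h2⟩ := ih hq
    have h3 := h.fst_le
    refine ⟨fun i hi => ?_, ?_⟩
    · by_cases hib : i = b
      · subst hib
        exact ⟨hab, h3, hb⟩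
      · rw [Finsupp.add_apply, Finsupp.single_eq_of_ne hib, zero_add] at hi
        obtain ⟨h4, h5, h6⟩ := h1 i hi
        exact ⟨hab.trans h4, h5, h6⟩
    · rw [bword_single_add2 M b e _ hb, hX, h2]
      · rfl
      · intro i hi
        by_contra hne
        have h4 : b ≤ i := (h1 i hne).1
        omega

theorem Run.word {a b : ℕ} {s u : List T} {e : Vec} (h : Run X ℓ M (a, s) u e (b, [])) :
    (∀ i, e i ≠ 0 → a ≤ i ∧ i ≤ b ∧ i < M) ∧ u = s ++ bword X ℓ M e :=
  Run.word2 h rfl

private theorem Run.letters2 (m : ℕ) (s : List T) : Run X ℓ M (m, s) s 0 (m, []) := by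
  induction s with
  | nil => exact Run.nil _
  | cons t s ih => exact Run.letter ih

private theorem Run.copies2 (hX : ∀ l, X l ≠ []) {m : ℕ} (hm : m < M) (n : ℕ) :
    ∀ a, a ≤ m → ∃ b, b ≤ m ∧
      Run X ℓ M (a, []) (List.replicate n (X (ℓ m))).flatten (Finsupp.single m n) (b, []) := by
  induction n with
  | zero =>
    intro a ha
    refine ⟨a, ha, ?_⟩
    rw [Finsupp.single_zero]
    exact Run.nil _
  | succ n ih =>
    intro a ha
    obtain ⟨b, hb, hr⟩ := ih m (le_refl m)
    refine ⟨b, hb, ?_⟩
    rw [List.replicate_succ, List.flatten_cons, Nat.add_comm n 1, Finsupp.single_add]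
    refine Run.append (q' := (m, [])) ?_ hr
    rcases hx : X (ℓ m) with _ | ⟨t, s⟩
    · exact (hX _ hx).elim
    · have h1 := Run.start (X := X) (ℓ := ℓ) ha hm hx (Run.letters2 m s)
      rwa [add_zero] at h1

theorem Run.exists_run (hX : ∀ l, X l ≠ []) (hM : 0 < M) (e : Vec) (he : ∀ i, M ≤ i → e i = 0) :
    ∃ b, b < M ∧ Run X ℓ M (0, []) (bword X ℓ M e) e (b, []) := by
  have key : ∀ m, m ≤ M → ∃ b, b ≤ m ∧ Run X ℓ M (0, []) (bword X ℓ m e)
      (∑ i ∈ Finset.range m, Finsupp.single i (e i)) (b, []) := by
    intro m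
    induction m with
    | zero =>
      intro _
      exact ⟨0, le_refl 0, Run.nil _⟩
    | succ m ih =>
      intro hm
      obtain ⟨b, hb, hr⟩ := ih (by omega)
      obtain ⟨c, hc, hr'⟩ := Run.copies2 (ℓ := ℓ) hX (show m < M by omega) (e m) b hb
      refine ⟨c, by omega, ?_⟩
      rw [bword_succ2, Finset.sum_range_succ]
      exact Run.append hr hr'
  obtain ⟨b, _, hr⟩ := key M (le_refl M)
  have hs : (∑ i ∈ Finset.range M, Finsupp.single i (e i)) = e := by
    ext j
    rw [Finsupp.finsetSum_apply]
    by_cases hj : j < M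
    · rw [Finset.sum_eq_single j]
      · rw [Finsupp.single_eq_same]
      · intro i _ hij
        exact Finsupp.single_eq_of_ne (Ne.symm hij)
      · intro h
        exact (h (Finset.mem_range.mpr hj)).elim
    · rw [he j (by omega)]
      apply Finset.sum_eq_zero
      intro i hi
      rw [Finset.mem_range] at hi
      exact Finsupp.single_eq_of_ne (by omega)
  rw [hs] at hr
  exact ⟨b, Run.lt hr hM, hr⟩

theorem Run.single_letter {q q' : ℕ × List T} {t : T} {v : Vec} (h : Run X ℓ M q [t] v q') :
    v = 0 ∨ v = Finsupp.single q'.1 1 := by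
  cases h with
  | letter h =>
    cases h
    exact Or.inl rfl
  | start hab hb hX h =>
    cases h
    exact Or.inr (add_zero _)

end Pool.Helper49.WR
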