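import Pool.Agent.Helper49.WR.HardBasic

/-!
# WR-M1: unit words

* `two_marks`: `Mod.zero` for `l₁`, `l₂`, `l₃`, `Mod.cons` with `t` at the first mark and `-t` at
  the second, and `Mod.append`: the first part contributes `cfg l₁`, the part `l₂` is shifted by
  `t v`, the last part is not shifted any more.  (The marks have move `0` and add nothing.)
* `unit_word`: let `U_f` be a word with configuration `f` and displacement `0` (`exists_word`).
  The tour is the concatenation over `x ∈ X` (`Finset.univ.toList`) of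
  `U_{A x} ++ [(0, 0)] ++ U_{-A x}`; the unit is `u = tour^(N+1)`, `N = |𝒱|^|X|`.
  Everything has configuration `0` and displacement `0` (`cfg_append`).
  Let `cw` be a colouring of `u`.  It is a concatenation of colourings `ct_0, …, ct_N` of the tour
  (`List.map_eq_append_iff`: prove first: a colouring of a concatenation is a concatenation of
  colourings).  In every coloured tour `ct` and for every `x` we have
  `ct = p ++ ((0, 0, c) :: q)` with `cfg (uncol p) = A x`, `cfg (uncol q) = - A x` and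
  displacements `0`; this defines the colour `c = χ_r(x) ∈ 𝒱` of `x` in the tour `ct_r`.
  Two of the `N + 1` functions `χ_r : X → 𝒱` coincide (`Fintype.exists_ne_map_eq_of_card_lt`):
  `χ_r = χ_{r'} =: χ₀` with `r < r'`.  For `x`, `x'` with `χ₀ x = χ₀ x' = v` split `cw` at the mark
  of `x` in `ct_r` and at the mark of `x'` in `ct_{r'}`: `cw = l₁ ++ (0,0,v) :: l₂ ++ (0,0,v) :: l₃`
  with `cfg l₁ = A x`, `cfg l₂ = - A x + A x'`, `cfg l₃ = - A x'` and displacements `0`.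
  `two_marks` gives the configuration
  `A x + pt (t v) (A x' - A x) - A x' = (pt (t v) - 1) (A x' - A x)`.
-/

set_option autoImplicit false

namespace Pool.Helper49.WR

theorem two_marks (l₁ l₂ l₃ : List (D × ℤ × D)) (v : D) (h₁ : dsp (uncol l₁) = 0)
    (h₂ : dsp (uncol l₂) = 0) (t : ℤ) :
    Mod |t| (l₁ ++ ((0, 0, v) :: l₂) ++ ((0, 0, v) :: l₃))
      (cfg (uncol l₁) + pt (t • v) 1 * cfg (uncol l₂) + cfg (uncol l₃)) 0 := by
  have a1 : Mod |t| l₁ (cfg (uncol l₁)) 0 := Mod.zero (abs_nonneg t) l₁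
  have a2 : Mod |t| ((0, 0, v) :: l₂) (pt (0 + t • v) 1 * (pt 0 0 + cfg (uncol l₂))) (t • v + 0) :=
    Mod.cons t le_rfl (Mod.zero (abs_nonneg t) l₂)
  have a3 : Mod |t| ((0, 0, v) :: l₃) (pt (0 + (-t) • v) 1 * (pt 0 0 + cfg (uncol l₃)))
      ((-t) • v + 0) :=
    Mod.cons (-t) (abs_neg t).le (Mod.zero (abs_nonneg t) l₃)
  have a4 := (a1.append a2).append a3
  have h3 : dsp (uncol (l₁ ++ ((0, 0, v) :: l₂))) = 0 := by
    rw [uncol_append, dsp_append, h₁, zero_add]
    show (0 : D) + dsp (uncol l₂) = 0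
    rw [h₂, zero_add]
  have h4 : pt 0 0 = (0 : R) := by rw [pt_zero, Int.cast_zero]
  have h5 : pt (t • v) 1 * pt ((-t) • v) 1 = (1 : R) := by
    rw [pt_mul, ← add_smul, add_neg_cancel, zero_smul, mul_one, pt_zero_one]
  have h6 : (0 : D) + (t • v + 0) + ((-t) • v + 0) = 0 := by
    rw [zero_add, add_zero, add_zero, ← add_smul, add_neg_cancel, zero_smul]
  rw [h6, h3, h₁] at a4
  convert a4 using 1
  simp only [zero_add, add_zero, h4, pt_zero_one, one_mul]
  rw [← mul_assoc (pt (t • v) 1) (pt (-t • v) 1), h5, one_mul]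

private def Zw (w : List (D × ℤ)) (f : R) : Prop := dsp w = 0 ∧ cfg w = f

private lemma Zw_append {w w' : List (D × ℤ)} {f f' : R} (h : Zw w f) (h' : Zw w' f') :
    Zw (w ++ w') (f + f') := by
  refine ⟨by rw [dsp_append, h.1, h'.1, add_zero], ?_⟩
  rw [cfg_append, h.1, pt_zero_one, one_mul, h.2, h'.2]

private lemma Zw_cons {w : List (D × ℤ)} {f : R} (h : Zw w f) : Zw ((0, 0) :: w) f := by
  refine ⟨?_, ?_⟩
  · show (0 : D) + dsp w = 0
    rw [h.1, add_zero]
  · show pt 0 1 * (pt 0 0 + cfg w) = f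
    rw [h.2, pt_zero_one, pt_zero, Int.cast_zero, zero_add, one_mul]

private lemma Zw_nil : Zw [] 0 := ⟨rfl, rfl⟩

private lemma exists_tour {X : Type} (A : X → R) (xs : List X) :
    ∃ tour : List (D × ℤ), Zw tour 0 ∧ ∀ x ∈ xs, ∃ p q, tour = p ++ (0, 0) :: q ∧
      Zw p (A x) ∧ Zw q (-(A x)) := by
  induction xs with
  | nil => exact ⟨[], Zw_nil, by simp⟩
  | cons y xs ih =>
    obtain ⟨tour, h1, h2⟩ := ih
    obtain ⟨a, ha1, ha2⟩ := exists_word (A y)
    obtain ⟨b, hb1, hb2⟩ := exists_word (-(A y))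
    have ha : Zw a (A y) := ⟨ha2, ha1⟩
    have hb : Zw b (-(A y)) := ⟨hb2, hb1⟩
    refine ⟨(a ++ (0, 0) :: b) ++ tour, ?_, ?_⟩
    · have := Zw_append (Zw_append ha (Zw_cons hb)) h1
      rwa [add_neg_cancel, add_zero] at this
    · intro x hx
      rw [List.mem_cons] at hx
      rcases hx with rfl | hx
      · refine ⟨a, b ++ tour, by simp, ha, ?_⟩
        have := Zw_append hb h1
        rwa [add_zero] at this
      · obtain ⟨p, q, hpq, hp, hq⟩ := h2 x hx
        refine ⟨(a ++ (0, 0) :: b) ++ p, q, by rw [hpq]; simp, ?_, hq⟩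
        have := Zw_append (Zw_append ha (Zw_cons hb)) hp
        rwa [add_neg_cancel, zero_add] at this

private def Tp (tour : List (D × ℤ)) (r : ℕ) : List (D × ℤ) := (List.replicate r tour).flatten

private lemma Tp_add (tour : List (D × ℤ)) (r s : ℕ) : Tp tour (r + s) = Tp tour r ++ Tp tour s := by
  unfold Tp
  rw [List.replicate_add, List.flatten_append]

private lemma Tp_one (tour : List (D × ℤ)) : Tp tour 1 = tour := by simp [Tp]

private lemma Zw_Tp {tour : List (D × ℤ)} (h : Zw tour 0) (r : ℕ) : Zw (Tp tour r) 0 := by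
  induction r with
  | zero => simpa [Tp] using Zw_nil
  | succ r ih =>
    rw [Tp_add, Tp_one]
    have := Zw_append ih h
    rwa [add_zero] at this

/-- splitting a colouring at a mark -/
private lemma split_mark {cw : List (D × ℤ × D)} {a b : List (D × ℤ)}
    (h : uncol cw = a ++ (0, 0) :: b) :
    ∃ c₁ c c₂, cw = c₁ ++ (0, 0, c) :: c₂ ∧ uncol c₁ = a ∧ uncol c₂ = b := by
  unfold uncol at h
  rw [List.map_eq_append_iff] at h
  obtain ⟨c₁, c', hc, h1, h2⟩ := h
  rw [List.map_eq_cons_iff] at h2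
  obtain ⟨m, c₂, hc', h3, h4⟩ := h2
  obtain ⟨m1, m2, m3⟩ := m
  simp only [Prod.mk.injEq] at h3
  refine ⟨c₁, m3, c₂, ?_, h1, h4⟩
  rw [hc, hc', h3.1, h3.2]

theorem unit_word (𝒱 : Finset D) {X : Type} [Fintype X] [DecidableEq X] (A : X → R) :
    ∃ u : List (D × ℤ), dsp u = 0 ∧ cfg u = 0 ∧
      ∀ cw, uncol cw = u → (∀ c ∈ cw, c.2.2 ∈ 𝒱) →
        ∃ χ₀ : X → D, (∀ x, χ₀ x ∈ 𝒱) ∧
          ∀ x x', χ₀ x = χ₀ x' → ∀ t : ℤ, ∃ B : ℤ, 0 ≤ B ∧
            Mod B cw ((pt (t • χ₀ x) 1 - 1) * (A x' - A x)) 0 := by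
  obtain ⟨tour, ht, hx⟩ := exists_tour A (Finset.univ : Finset X).toList
  have hx' : ∀ x : X, ∃ p q, tour = p ++ (0, 0) :: q ∧ Zw p (A x) ∧ Zw q (-(A x)) :=
    fun x => hx x (by simp)
  choose p q hpq hp hq using hx'
  obtain ⟨N, hN⟩ : ∃ N, N = 𝒱.card ^ Fintype.card X := ⟨_, rfl⟩
  have hu := Zw_Tp ht (N + 1)
  refine ⟨Tp tour (N + 1), hu.1, hu.2, ?_⟩
  intro cw hcw hcol
  -- the marks
  have hmark : ∀ (r : Fin (N + 1)) (x : X), ∃ c₁ c c₂, cw = c₁ ++ (0, 0, c) :: c₂ ∧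
      uncol c₁ = Tp tour r ++ p x ∧ uncol c₂ = q x ++ Tp tour (N - r) := by
    intro r x
    apply split_mark
    rw [hcw]
    have h1 : N + 1 = (r : ℕ) + (1 + (N - r)) := by have := r.2; omega
    have h1' : Tp tour 1 = p x ++ (0, 0) :: q x := (Tp_one tour).trans (hpq x)
    have h4' : Tp tour (N + 1) = Tp tour r ++ (Tp tour 1 ++ Tp tour (N - (r : ℕ))) := by
      rw [← Tp_add, ← Tp_add, ← h1]
    rw [h4', h1']
    simp
  choose c₁ χ c₂ hc h1 h2 using hmark
  have hmem : ∀ r x, χ r x ∈ 𝒱 := by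
    intro r x
    have h3 : ((0 : D), (0 : ℤ), χ r x) ∈ cw := by
      rw [hc r x]; simp
    exact hcol _ h3
  obtain ⟨r, r', hne, heq⟩ := Fintype.exists_ne_map_eq_of_card_lt
    (fun r : Fin (N + 1) => fun x : X => (⟨χ r x, hmem r x⟩ : {v // v ∈ 𝒱})) (by
      rw [Fintype.card_fun, Fintype.card_coe, Fintype.card_fin, ← hN]
      exact Nat.lt_succ_self N)
  have heq' : ∀ x, χ r x = χ r' x := by
    intro x
    have := congrFun heq x
    simpa using this
  obtain ⟨s, s', hlt, hs⟩ : ∃ s s' : Fin (N + 1), s < s' ∧ ∀ x, χ s x = χ s' x := by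
    rcases lt_or_gt_of_ne hne with h | h
    · exact ⟨r, r', h, heq'⟩
    · exact ⟨r', r, h, fun x => (heq' x).symm⟩
  refine ⟨χ s, hmem s, ?_⟩
  intro x x' hxx t
  refine ⟨|t|, abs_nonneg t, ?_⟩
  -- split the first part of the second mark
  have h3 : uncol (c₁ s' x') = (Tp tour s ++ p x) ++
      (0, 0) :: (q x ++ Tp tour ((s' : ℕ) - s - 1) ++ p x') := by
    rw [h1 s' x']
    have h4 : (s' : ℕ) = s + (1 + ((s' : ℕ) - s - 1)) := by
      have : (s : ℕ) < s' := hlt
      omega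
    have h1' : Tp tour 1 = p x ++ (0, 0) :: q x := (Tp_one tour).trans (hpq x)
    have h4' : Tp tour (s' : ℕ) = Tp tour s ++ (Tp tour 1 ++ Tp tour ((s' : ℕ) - s - 1)) := by
      rw [← Tp_add, ← Tp_add, ← h4]
    rw [h4', h1']
    simp
  obtain ⟨d₁, w, d₂, hd, hd1, hd2⟩ := split_mark h3
  have h5 : cw = d₁ ++ (0, 0, w) :: (d₂ ++ (0, 0, χ s' x') :: c₂ s' x') := by
    rw [hc s' x', hd]
    simp
  have h6 : c₁ s x ++ (0, 0, χ s x) :: c₂ s x =
      d₁ ++ (0, 0, w) :: (d₂ ++ (0, 0, χ s' x') :: c₂ s' x') := by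
    rw [← h5, ← hc s x]
  have h7 : (c₁ s x).length = d₁.length := by
    have e1 := congrArg List.length (h1 s x)
    have e2 := congrArg List.length hd1
    unfold uncol at e1 e2
    rw [List.length_map] at e1 e2
    omega
  obtain ⟨-, h8⟩ := List.append_inj h6 h7
  have h9 : χ s x = w := by
    have := (List.cons.inj h8).1
    simpa using this
  have h10 : χ s' x' = χ s x := by rw [hxx, hs x']
  have hZ1 : Zw (uncol d₁) (A x) := by
    rw [hd1]
    have := Zw_append (Zw_Tp ht s) (hp x)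
    rwa [zero_add] at this
  have hZ2 : Zw (uncol d₂) (-(A x) + A x') := by
    rw [hd2]
    have := Zw_append (Zw_append (hq x) (Zw_Tp ht ((s' : ℕ) - s - 1))) (hp x')
    rwa [add_zero] at this
  have hZ3 : Zw (uncol (c₂ s' x')) (-(A x')) := by
    rw [h2 s' x']
    have := Zw_append (hq x') (Zw_Tp ht (N - (s' : ℕ)))
    rwa [add_zero] at this
  have h11 := two_marks d₁ d₂ (c₂ s' x') (χ s x) hZ1.1 hZ2.1 t
  rw [hZ1.2, hZ2.2, hZ3.2] at h11
  have h12 : cw = d₁ ++ (0, 0, χ s x) :: d₂ ++ (0, 0, χ s x) :: c₂ s' x' := by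
    rw [h5, ← h9, h10]
    simp
  rw [← h12] at h11
  have h13 : (pt (t • χ s x) 1 - 1) * (A x' - A x) =
      A x + pt (t • χ s x) 1 * (-(A x) + A x') + -(A x') := by ring
  rw [h13]
  exact h11

end Pool.Helper49.WR
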